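import Mathlib

/-!
# MP_59bbdb_co, all dimensions: definitions

See the text MP_59bbdb_co_alldim_helper82.md in the team store. `D = d + 1` clusters, also used as
rows; `M = m - 1` points per cluster; a colouring is `c : Fin D → Fin M → Fin m`.
-/

set_option autoImplicit false

namespace Pool.Agent.Rey

open Finset

/-- Multiplicity of the colour `A` in the cluster colouring `κ`. -/
def cnt {M m : ℕ} (κ : Fin M → Fin m) (A : Fin m) : ℕ := (univ.filter (fun a => κ a = A)).card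

/-- Missing colours. -/
def mis {M m : ℕ} (κ : Fin M → Fin m) : Finset (Fin m) := univ.filter (fun A => ∀ a, κ a ≠ A)

/-- Bernoulli weight of `I`. -/
noncomputable def wt {m : ℕ} (τ : ℝ) (I : Finset (Fin m)) : ℝ :=
  ∏ A : Fin m, if A ∈ I then τ else 1 - τ

/-- Domain of a partial map. -/
def dm {w D : ℕ} (f : Fin w → Option (Fin D)) : Finset (Fin w) :=
  univ.filter (fun i => (f i).isSome = true)

/-- Partial monotone maps. -/
def PM {w D : ℕ} (f : Fin w → Option (Fin D)) : Prop :=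
  ∀ i i' k k', i ≤ i' → f i = some k → f i' = some k' → k ≤ k'

/-- The levels of the design. Rows divisible by `8` are active. -/
def lv {D M R h : ℕ} (sam : Fin D → Fin D → Fin h → Fin R) (xx : Fin D → Fin D → Fin M)
    (k j : Fin D) (a : Fin M) : ℕ :=
  if 8 ∣ (j : ℕ) then (if a = xx k j then 1 else 0)
  else if ∃ p, (sam k j p : ℕ) = (a : ℕ) % R then 1 + (a : ℕ) / R else 0

/-- What the geometry gives for the set `I` of colours. -/
def Win {D M m : ℕ} (lev : Fin D → Fin D → Fin M → ℕ) (c : Fin D → Fin M → Fin m)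
    (I : Finset (Fin m)) : Prop :=
  ∀ (J : Finset (Fin D)) (β : Fin D → Fin m), (∀ j ∈ J, β j ∈ I ∧ ∀ a, c j a ≠ β j) →
    ∃ (φ : Fin D → Fin D) (ρ : Fin D → Fin m → Fin M),
      (∀ j ∈ J, ∀ A ∈ I, c (φ j) (ρ (φ j) A) = A ∧
        ∃ a, c (φ j) a = β j ∧ lev (φ j) j (ρ (φ j) A) ≤ lev (φ j) j a) ∧
      (∀ j ∈ J, ∀ j' ∈ J, j ≤ j' → φ j ≤ φ j')

/-- The virtual column `v` is valid at row `j` for `I0`. -/
def VAL {D M m : ℕ} (lev : Fin D → Fin D → Fin M → ℕ) (c : Fin D → Fin M → Fin m)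
    (b : Fin D → Fin m) (a0 : Fin M) (I0 : Finset (Fin m)) (v : Fin D × (Fin m → Fin M))
    (j : Fin D) : Prop :=
  (∀ A ∈ I0, c v.1 (v.2 A) = A) ∧ (∀ A, A ∉ I0 → v.2 A = a0) ∧
    ∀ A ∈ I0, ∃ a, c v.1 a = b j ∧ lev v.1 j (v.2 A) ≤ lev v.1 j a

/-- Heads: points with no point above them, in the same block, of a colour in `I` used once. -/
def hd {M m : ℕ} (R : ℕ) (κ : Fin M → Fin m) (I : Finset (Fin m)) : Finset (Fin M) :=
  univ.filter (fun a => ∀ a' : Fin M, (a' : ℕ) % R = (a : ℕ) % R → (a : ℕ) / R < (a' : ℕ) / R →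
    κ a' ∈ I → cnt κ (κ a') ≠ 1)

/-- Blocks containing a point whose colour is in `I` and used once. -/
def gb {M m : ℕ} (R : ℕ) (κ : Fin M → Fin m) (I : Finset (Fin m)) : Finset (Fin R) :=
  univ.filter (fun r => ∃ a : Fin M, (a : ℕ) % R = (r : ℕ) ∧ κ a ∈ I ∧ cnt κ (κ a) = 1)

/-- Total number of heads in ordinary clusters. -/
def hds {D M m : ℕ} (R E1 : ℕ) (c : Fin D → Fin M → Fin m) (I : Finset (Fin m)) : ℕ :=
  ∑ k ∈ univ.filter (fun k => (mis (c k)).card ≤ E1), (hd R (c k) I).card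

/-- Number of virtual special columns. -/
def vs {D M m : ℕ} (E1 : ℕ) (c : Fin D → Fin M → Fin m) (I : Finset (Fin m)) : ℕ :=
  ∑ k ∈ univ.filter (fun k => E1 < (mis (c k)).card), ∏ A ∈ I, cnt (c k) A

/-- Suitable sets of colours. -/
def Suit {D M m : ℕ} (q n R E1 Hmax Vmax : ℕ) (c : Fin D → Fin M → Fin m)
    (I : Finset (Fin m)) : Prop :=
  m ≤ 4 * q * I.card ∧ 2 * I.card ≤ n ∧ hds R E1 c I ≤ Hmax ∧ vs E1 c I ≤ Vmax

/-- Lemma A (property of the samples). -/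
def GoodSam {D h R : ℕ} (m q E1 Hmax N0 Y : ℕ) (sam : Fin D → Fin D → Fin h → Fin R) : Prop :=
  ∀ (b : Fin D → Fin m) (G : Fin D → Finset (Fin R)) (H : Finset (Fin D × Fin m × Fin R))
    (F : Fin (Y + 1) → Fin D → Option (Fin D)),
    (∀ k, R ≤ 16 * q * (G k).card) → H.card ≤ Hmax →
    (∀ k β, (univ.filter (fun r : Fin R => (k, β, r) ∈ H)).card ≤ E1) →
    (∀ i, PM (F i)) → (∀ i i' j k, F i j = some k → F i' j = some k → i = i') →
    N0 ≤ ∑ i, (dm (F i)).card →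
    ∃ i j k, F i j = some k ∧ (∃ p, sam k j p ∈ G k) ∧ ∀ p, (k, b j, sam k j p) ∉ H

/-- The windows used by `K`. -/
def usd {D w m : ℕ} (K : Fin m × Fin m → Fin w → Option (Fin D)) : Finset (Fin w) :=
  univ.filter (fun i => ∃ g, (K g i).isSome = true)

/-- Lemma B (property of the marked points). The window `i` consists of the rows `j` with
`j / (8 m^3) = i`. -/
def GoodX {D M : ℕ} (m q w : ℕ) (xx : Fin D → Fin D → Fin M) : Prop :=
  ∀ (K : Fin m × Fin m → Fin w → Option (Fin D)) (Q : Fin m × Fin m → Fin w → Finset (Fin M))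
    (Θ : Fin w → Finset (Fin D)),
    (∀ g, PM (K g)) → (∀ i g g' k, K g i = some k → K g' i = some k → g = g') →
    (∀ i ∈ usd K, (univ.filter (fun g => (K g i).isSome = true)).card = m) →
    (usd K).Nonempty → w ≤ 4 * (usd K).card →
    (∀ g i, (K g i).isSome = true → M ≤ 8 * q * (Q g i).card) →
    (∀ i ∈ usd K, (Θ i).card = m ^ 2 ∧ ∀ j ∈ Θ i, 8 ∣ (j : ℕ) ∧ (j : ℕ) / (8 * m ^ 3) = i) →
    ∃ g i k j, K g i = some k ∧ j ∈ Θ i ∧ xx k j ∈ Q g i

/-- The parameters. -/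
structure Par (m n q l : ℕ) : Prop where
  hq : 8 ≤ q
  hnm : n ≤ m
  hqn : 8 * m ≤ n * q
  hl : Real.log m ≤ l
  hl1 : 1 ≤ l
  hP : 10 ^ 15 * q ^ 14 * l ^ 2 ≤ m

/-- Bound between ordinary and special clusters. -/
def pE (q l : ℕ) : ℕ := 10 * q ^ 2 * l
/-- Number of samples. -/
def ph (q : ℕ) : ℕ := 400 * q ^ 2
/-- Number of blocks. -/
def pR (q l : ℕ) : ℕ := 8 * 10 ^ 9 * q ^ 8 * l
/-- Bound for the heads. -/
def pH (q l D : ℕ) : ℕ := 400 * q ^ 3 * pR q l * D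
/-- Bound for the virtual special columns. -/
def pV (m q D : ℕ) : ℕ := 300 * q ^ 2 * D / m ^ 5
/-- Bound for the number of cells. -/
noncomputable def pN (n q D : ℕ) : ℕ := ⌈(((n / 2 + 1 : ℕ) : ℝ) * D) / (96 * (q : ℝ) ^ 2)⌉₊

end Pool.Agent.Rey
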