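import Mathlib
import Pool.Agent.MP_59bbdb_co.LinTrop
import Pool.Agent.MP_59bbdb_co.LinAssemble
import Pool.Agent.Rey.Defs

set_option autoImplicit false

namespace Pool.Agent.Rey

open Finset Filter Topology
open Pool.Agent.MP_59bbdb_co.Lin

section Trop

variable {d M m : ℕ} (lev : Fin (d + 1) → Fin (d + 1) → Fin M → ℕ) (T S : ℝ)
  (c : Fin (d + 1) × Fin M → Fin m) (I : Finset (Fin m))

/-- The combinatorial content of the limit condition, with representatives. -/
theorem trop_reps (Q : ℕ) (hlev : ∀ k j a, lev k j a ≤ Q) (hM : 0 < M)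
    (hS : ((d : ℝ) + 1) * M < S) (hT : S ^ (2 * Q) < T)
    (hL : Lim lev T S c I)
    (J : Finset (Fin (d + 1))) (β : Fin (d + 1) → Fin m)
    (hβ : ∀ j ∈ J, β j ∈ I ∧ ∀ q : Fin (d + 1) × Fin M, q.1 = j → c q ≠ β j) :
    ∃ (φ : Fin (d + 1) → Fin (d + 1)) (ρ : Fin (d + 1) → Fin m → Fin M),
      (∀ j ∈ J, ∀ A ∈ I, c (φ j, ρ (φ j) A) = A ∧
        ∃ a, c (φ j, a) = β j ∧ lev (φ j) j (ρ (φ j) A) ≤ lev (φ j) j a) ∧
      (∀ j ∈ J, ∀ j' ∈ J, j ≤ j' → φ j ≤ φ j') := by
  classical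
  have : Nonempty (Fin M) := ⟨⟨0, hM⟩⟩
  rcases J.eq_empty_or_nonempty with hJ | ⟨j0, hj0⟩
  · subst hJ
    exact ⟨id, fun _ _ => ⟨0, hM⟩, by simp, by simp⟩
  obtain ⟨w, hw, hmass, hstar⟩ := hL
  have hM1 : (1 : ℝ) ≤ M := by exact_mod_cast hM
  have hS1 : 1 ≤ S := by
    have : (0 : ℝ) ≤ d := Nat.cast_nonneg d
    nlinarith
  have hS0 : 0 < S := by linarith
  have hT1 : 1 < T := lt_of_le_of_lt (one_le_pow₀ hS1) hT
  have hT0 : 0 < T := by linarith
  have hA0 := (hβ j0 hj0).1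
  set lam : Fin (d + 1) → ℝ := fun k => ∑ a, w (β j0) (k, a) with hlam
  have hmassA : ∀ A ∈ I, ∀ k, ∑ a, w A (k, a) = lam k := by
    intro A hA k
    have h := hmass A hA _ hA0 k
    rw [sum_fst, sum_fst] at h
    exact h
  have hlam0 : ∀ k, 0 ≤ lam k := fun k => Finset.sum_nonneg (fun a _ => (hw _ hA0).1 _)
  have hlamsum : ∑ k, lam k = 1 := by
    rw [← (hw _ hA0).2.1, Fintype.sum_prod_type]
  have hlamj : ∀ j ∈ J, lam j = 0 := by
    intro j hj
    rw [← hmassA _ (hβ j hj).1 j]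
    apply Finset.sum_eq_zero
    intro a _
    exact (hw _ (hβ j hj).1).2.2 _ (fun h => (hβ j hj).2 (j, a) rfl h)
  have hdl1 : ∀ (k : Fin (d + 1)) (a : Fin M) (j : Fin (d + 1)), T ^ ((k : ℕ) * (j : ℕ)) ≤ dl lev T S (k, a) j := by
    intro k a j
    have h0 : 0 < T ^ ((k : ℕ) * (j : ℕ)) := pow_pos hT0 _
    have h1 : 1 ≤ S ^ (lev k j a) := one_le_pow₀ hS1
    unfold dl
    simp only
    nlinarith
  have hdl2 : ∀ (k : Fin (d + 1)) (a : Fin M) (j : Fin (d + 1)), dl lev T S (k, a) j ≤ T ^ ((k : ℕ) * (j : ℕ)) * S ^ Q := by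
    intro k a j
    have h0 : 0 < T ^ ((k : ℕ) * (j : ℕ)) := pow_pos hT0 _
    unfold dl
    simp only
    exact mul_le_mul_of_nonneg_left (pow_le_pow_right₀ hS1 (hlev k j a)) h0.le
  let v : Fin (d + 1) → Fin (d + 1) → ℝ := fun j k => ∑ a, w (β j) (k, a) * dl lev T S (k, a) j
  have hv1 : ∀ j ∈ J, ∀ k, lam k * T ^ ((k : ℕ) * (j : ℕ)) ≤ v j k := by
    intro j hj k
    rw [← hmassA _ (hβ j hj).1 k, Finset.sum_mul]
    exact Finset.sum_le_sum (fun a _ =>
      mul_le_mul_of_nonneg_left (hdl1 k a j) ((hw _ (hβ j hj).1).1 _))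
  have hv2 : ∀ j ∈ J, ∀ k, v j k ≤ lam k * (T ^ ((k : ℕ) * (j : ℕ)) * S ^ Q) := by
    intro j hj k
    rw [← hmassA _ (hβ j hj).1 k, Finset.sum_mul]
    exact Finset.sum_le_sum (fun a _ =>
      mul_le_mul_of_nonneg_left (hdl2 k a j) ((hw _ (hβ j hj).1).1 _))
  have hmax : ∀ j, ∃ i, ∀ k, v j k ≤ v j i := fun j => Finite.exists_max (v j)
  choose φ hφ using hmax
  have hnear : ∀ j ∈ J, ∀ k, lam k * T ^ ((k : ℕ) * (j : ℕ))
      ≤ lam (φ j) * (T ^ ((φ j : ℕ) * (j : ℕ)) * S ^ Q) :=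
    fun j hj k => (hv1 j hj k).trans ((hφ j k).trans (hv2 j hj (φ j)))
  have hlampos : ∀ j ∈ J, 0 < lam (φ j) := by
    intro j hj
    by_contra hcon
    have h0 : lam (φ j) = 0 := le_antisymm (not_lt.mp hcon) (hlam0 _)
    have h1 : ∀ k, lam k = 0 := by
      intro k
      have h2 := hnear j hj k
      rw [h0, zero_mul] at h2
      have h3 : 0 < T ^ ((k : ℕ) * (j : ℕ)) := pow_pos hT0 _
      have h4 := hlam0 k
      by_contra h5
      have h6 : 0 < lam k := lt_of_le_of_ne h4 (Ne.symm h5)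
      have := mul_pos h6 h3
      linarith
    have : ∑ k, lam k = 0 := Finset.sum_eq_zero (fun k _ => h1 k)
    rw [hlamsum] at this
    exact one_ne_zero this
  have hrep : ∀ (k : Fin (d + 1)) (A : Fin m), ∃ a, ∀ a', w A (k, a') ≤ w A (k, a) :=
    fun k A => Finite.exists_max (fun a => w A (k, a))
  choose ρ hρ using hrep
  have hρ2 : ∀ A ∈ I, ∀ k, lam k ≤ M * w A (k, ρ k A) := by
    intro A hA k
    rw [← hmassA A hA k]
    calc ∑ a, w A (k, a) ≤ ∑ a : Fin M, w A (k, ρ k A) := Finset.sum_le_sum (fun a _ => hρ k A a)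
      _ = M * w A (k, ρ k A) := by simp
  refine ⟨φ, ρ, ?_, ?_⟩
  · intro j hj A hAI
    have hposw : 0 < w A (φ j, ρ (φ j) A) := by
      have h1 := hρ2 A hAI (φ j)
      have h2 := hlampos j hj
      by_contra h3
      have h4 : w A (φ j, ρ (φ j) A) ≤ 0 := not_lt.mp h3
      nlinarith
    have hcA : c (φ j, ρ (φ j) A) = A := by
      by_contra h
      exact hposw.ne' ((hw A hAI).2.2 _ h)
    refine ⟨hcA, ?_⟩
    set i := φ j with hi
    set a0 := ρ i A with ha0
    by_contra hne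
    push Not at hne
    have hij : i ≠ j := by
      intro h
      have h1 := hlampos j hj
      rw [← hi, h, hlamj j hj] at h1
      exact lt_irrefl _ h1
    -- `v j i` times `S` is at most the contribution of `a0`
    have hB : v j i * S ≤ lam i * (T ^ ((i : ℕ) * (j : ℕ)) * S ^ (lev i j a0)) := by
      rw [← hmassA _ (hβ j hj).1 i, Finset.sum_mul, Finset.sum_mul]
      apply Finset.sum_le_sum
      intro a _
      by_cases ha : c (i, a) = β j
      · have h1 := hne a ha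
        have h2 : S ^ (lev i j a) * S ≤ S ^ (lev i j a0) := by
          rw [← pow_succ]
          exact pow_le_pow_right₀ hS1 h1
        have h3 : 0 ≤ T ^ ((i : ℕ) * (j : ℕ)) := pow_nonneg hT0.le _
        have h4 : 0 ≤ w (β j) (i, a) := (hw _ (hβ j hj).1).1 _
        have h5 : w (β j) (i, a) * dl lev T S (i, a) j * S
            = w (β j) (i, a) * (T ^ ((i : ℕ) * (j : ℕ)) * (S ^ (lev i j a) * S)) := by
          unfold dl
          ring
        rw [h5]
        exact mul_le_mul_of_nonneg_left (mul_le_mul_of_nonneg_left h2 h3) h4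
      · have : w (β j) (i, a) = 0 := (hw _ (hβ j hj).1).2.2 _ ha
        rw [this]
        simp
    have hvnn : 0 ≤ v j i := (mul_nonneg (hlam0 i) (pow_nonneg hT0.le _)).trans (hv1 j hj i)
    have hsumB : ∑ q : Fin (d + 1) × Fin M, (if q.1 = j then 0 else w (β j) q * dl lev T S q j)
        ≤ ((d : ℝ) + 1) * v j i := by
      rw [sum_not_fst (fun q => w (β j) q * dl lev T S q j)]
      calc ∑ k ∈ univ.erase j, v j k ≤ ∑ k ∈ univ.erase j, v j i :=
            Finset.sum_le_sum (fun k _ => hφ j k)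
        _ ≤ ∑ k : Fin (d + 1), v j i := by
            apply Finset.sum_le_sum_of_subset_of_nonneg (Finset.erase_subset _ _)
            intro k _ _
            exact hvnn
        _ = ((d : ℝ) + 1) * v j i := by
            simp
    have hwA : lam i ≤ M * w A (i, a0) := hρ2 A hAI i
    have hsumA : w A (i, a0) * (T ^ ((i : ℕ) * (j : ℕ)) * S ^ (lev i j a0))
        ≤ ∑ q : Fin (d + 1) × Fin M, (if q.1 = j then 0 else w A q * dl lev T S q j) := by
      have h1 : (if ((i, a0) : Fin (d + 1) × Fin M).1 = j then 0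
          else w A (i, a0) * dl lev T S (i, a0) j)
          = w A (i, a0) * (T ^ ((i : ℕ) * (j : ℕ)) * S ^ (lev i j a0)) := by
        rw [if_neg hij]
        simp [dl]
      rw [← h1]
      refine Finset.single_le_sum (f := fun q : Fin (d + 1) × Fin M =>
        if q.1 = j then 0 else w A q * dl lev T S q j) (fun q _ => ?_) (Finset.mem_univ _)
      split_ifs
      · exact le_refl _
      · exact mul_nonneg ((hw A hAI).1 q)
          ((pow_nonneg hT0.le _).trans (hdl1 q.1 q.2 j))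
    have h3 := hstar j (β j) (hβ j hj).1 (hβ j hj).2 A hAI
    have h4 : w A (i, a0) * (T ^ ((i : ℕ) * (j : ℕ)) * S ^ (lev i j a0))
        ≤ ((d : ℝ) + 1) * v j i := hsumA.trans (h3.trans hsumB)
    have h5 : 0 < v j i := lt_of_lt_of_le (mul_pos (hlampos j hj) (pow_pos hT0 _)) (hv1 j hj i)
    have hTS : 0 ≤ T ^ ((i : ℕ) * (j : ℕ)) * S ^ (lev i j a0) :=
      mul_nonneg (pow_nonneg hT0.le _) (pow_nonneg hS0.le _)
    have h6 : v j i * S ≤ M * (((d : ℝ) + 1) * v j i) := by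
      calc v j i * S ≤ lam i * (T ^ ((i : ℕ) * (j : ℕ)) * S ^ (lev i j a0)) := hB
        _ ≤ (M * w A (i, a0)) * (T ^ ((i : ℕ) * (j : ℕ)) * S ^ (lev i j a0)) :=
            mul_le_mul_of_nonneg_right hwA hTS
        _ = M * (w A (i, a0) * (T ^ ((i : ℕ) * (j : ℕ)) * S ^ (lev i j a0))) := by ring
        _ ≤ M * (((d : ℝ) + 1) * v j i) := mul_le_mul_of_nonneg_left h4 (by linarith)
    nlinarith
  · intro j hj j' hj' hjj
    by_contra hcon
    push Not at hcon
    have hlt : j < j' := by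
      rcases lt_or_eq_of_le hjj with h | h
      · exact h
      · subst h
        exact absurd hcon (lt_irrefl _)
    have h1 := hnear j hj (φ j')
    have h2 := hnear j' hj' (φ j)
    have hp1 := hlampos j hj
    have hp2 := hlampos j' hj'
    have hlt' : (j : ℕ) < (j' : ℕ) := hlt
    have hcon' : (φ j' : ℕ) < (φ j : ℕ) := hcon
    set x : ℕ := (φ j : ℕ)
    set x' : ℕ := (φ j' : ℕ)
    set a : ℕ := (j : ℕ)
    set a' : ℕ := (j' : ℕ)
    have h3 : (lam (φ j') * T ^ (x' * a)) * (lam (φ j) * T ^ (x * a'))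
        ≤ (lam (φ j) * (T ^ (x * a) * S ^ Q)) * (lam (φ j') * (T ^ (x' * a') * S ^ Q)) := by
      apply mul_le_mul h1 h2
      · exact mul_nonneg hp1.le (pow_nonneg hT0.le _)
      · exact mul_nonneg hp1.le (mul_nonneg (pow_nonneg hT0.le _) (pow_nonneg hS0.le _))
    have h4 : T ^ (x' * a + x * a') ≤ T ^ (x * a + x' * a') * S ^ (2 * Q) := by
      have h5 : 0 < lam (φ j) * lam (φ j') := mul_pos hp1 hp2
      have h6 : (lam (φ j) * lam (φ j')) * T ^ (x' * a + x * a')
          ≤ (lam (φ j) * lam (φ j')) * (T ^ (x * a + x' * a') * S ^ (2 * Q)) := by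
        rw [pow_add, pow_add]
        calc _ = (lam (φ j') * T ^ (x' * a)) * (lam (φ j) * T ^ (x * a')) := by ring
          _ ≤ _ := h3
          _ = _ := by ring
      exact le_of_mul_le_mul_left h6 h5
    have hexp : x * a + x' * a' + 1 ≤ x' * a + x * a' := by
      obtain ⟨s, hs⟩ := Nat.exists_eq_add_of_lt hlt'
      obtain ⟨t, ht⟩ := Nat.exists_eq_add_of_lt hcon'
      rw [hs, ht]
      nlinarith
    have h7 : T ^ (x * a + x' * a' + 1) ≤ T ^ (x' * a + x * a') :=
      pow_le_pow_right₀ hT1.le hexp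
    have h8 : 0 < T ^ (x * a + x' * a') := pow_pos hT0 _
    rw [pow_succ] at h7
    nlinarith


lemma Lim_mono (I' : Finset (Fin m)) (h : I ⊆ I') (hL : Lim lev T S c I') : Lim lev T S c I := by
  obtain ⟨w, h1, h2, h3⟩ := hL
  exact ⟨w, fun A hA => h1 A (h hA), fun A hA A' hA' => h2 A (h hA) A' (h hA'),
    fun k B hB hk A hA => h3 k B (h hB) hk A (h hA)⟩

end Trop

/-- From combinatorics to points. -/
theorem geo (d M m n : ℕ) (hd : 1 ≤ d) (hM : 0 < M) (hn : n ≤ m)
    (lev : Fin (d + 1) → Fin (d + 1) → Fin M → ℕ)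
    (h : ∀ c : Fin (d + 1) → Fin M → Fin m, ¬ ∀ I : Finset (Fin m), I.card ≤ n → Win lev c I) :
    ∃ X : Finset (EuclideanSpace ℝ (Fin d)), X.card = M * (d + 1) ∧
      ∀ f : EuclideanSpace ℝ (Fin d) → Fin m, ∃ I : Finset (Fin m), I.card = n ∧
        (⋂ i ∈ I, convexHull ℝ {x : EuclideanSpace ℝ (Fin d) | x ∈ X ∧ f x = i}) = ∅ := by
  classical
  obtain ⟨Q, hQ⟩ : ∃ Q : ℕ, ∀ k j a, lev k j a ≤ Q := by
    refine ⟨∑ k, ∑ j, ∑ a, lev k j a, fun k j a => ?_⟩
    calc lev k j a ≤ ∑ a, lev k j a := Finset.single_le_sum (f := fun a => lev k j a)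
          (fun _ _ => Nat.zero_le _) (Finset.mem_univ a)
      _ ≤ ∑ j, ∑ a, lev k j a := Finset.single_le_sum (f := fun j => ∑ a, lev k j a)
          (fun _ _ => Nat.zero_le _) (Finset.mem_univ j)
      _ ≤ ∑ k, ∑ j, ∑ a, lev k j a := Finset.single_le_sum (f := fun k => ∑ j, ∑ a, lev k j a)
          (fun _ _ => Nat.zero_le _) (Finset.mem_univ k)
  set S : ℝ := ((d : ℝ) + 1) * M + 1 with hS
  set T : ℝ := S ^ (2 * Q) + 1 with hT
  refine exists_config lev T S hd n (fun c => ?_)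
  by_contra hcon
  push Not at hcon
  refine h (fun k a => c (k, a)) (fun I hI => ?_)
  obtain ⟨I', hI1, hI2⟩ : ∃ I' : Finset (Fin m), I ⊆ I' ∧ I'.card = n :=
    Finset.exists_superset_card_eq hI (by simpa using hn)
  have hL := Lim_mono lev T S c I I' hI1 (hcon I' hI2)
  intro J β hβ
  exact trop_reps lev T S c I Q hQ hM (by rw [hS]; linarith) (by rw [hT]; linarith) hL J β
    (fun j hj => ⟨(hβ j hj).1, fun q hq => by
      subst hq
      exact (hβ q.1 hj).2 q.2⟩)

end Pool.Agent.Rey
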