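import Mathlib
import Pool.Agent.Rey.Defs

set_option autoImplicit false

namespace Pool.Agent.Rey

open Finset

/-- ENVELOPE (abstract). -/
theorem envelope {P κ V C : Type} [LinearOrder P] [LinearOrder κ] [LinearOrder V]
    [Fintype V] [Fintype P] [DecidableEq C] [Fintype C] (J : Finset P) (col : V → κ)
    (hcol : ∀ v v', v ≤ v' → col v ≤ col v') (b : κ → C) (I0 : Finset C) (Y : ℕ)
    (Val : Finset C → V → P → Prop)
    (hanti : ∀ I I' v j, I0 ⊆ I → I ⊆ I' → Val I' v j → Val I v j)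
    (hmiss : ∀ I v j, Val I v j → b (col v) ∉ I)
    (hex : ∀ I, I0 ⊆ I → I.card ≤ I0.card + Y →
      ∃ φ : P → V, (∀ j ∈ J, Val I (φ j) j) ∧ ∀ j ∈ J, ∀ j' ∈ J, j ≤ j' → φ j ≤ φ j') :
    ∃ f : ℕ → P → V,
      (∀ i ≤ Y, ∀ j ∈ J, ∀ j' ∈ J, j ≤ j' → f i j ≤ f i j') ∧
      (∀ i ≤ Y, ∀ j ∈ J, Val I0 (f i j) j) ∧
      (∀ i < Y, ∀ j ∈ J, col (f i j) < col (f (i + 1) j)) := by
  classical
  obtain ⟨φ0, -, -⟩ := hex I0 (Finset.Subset.refl _) (Nat.le_add_right _ _)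
  -- the pointwise minimum
  have key : ∀ I : Finset C, ∃ Φ : P → V, I0 ⊆ I → I.card ≤ I0.card + Y →
      (∀ j ∈ J, Val I (Φ j) j) ∧ (∀ j ∈ J, ∀ j' ∈ J, j ≤ j' → Φ j ≤ Φ j') ∧
      (∀ φ : P → V, (∀ j ∈ J, Val I (φ j) j) → (∀ j ∈ J, ∀ j' ∈ J, j ≤ j' → φ j ≤ φ j') →
        ∀ j ∈ J, Φ j ≤ φ j) := by
    intro I
    by_cases hI : I0 ⊆ I ∧ I.card ≤ I0.card + Y
    · obtain ⟨φ1, h1, h2⟩ := hex I hI.1 hI.2
      let S : Finset (P → V) := univ.filter (fun φ => (∀ j ∈ J, Val I (φ j) j) ∧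
        ∀ j ∈ J, ∀ j' ∈ J, j ≤ j' → φ j ≤ φ j')
      have hS : S.Nonempty := ⟨φ1, by simp only [S, Finset.mem_filter, Finset.mem_univ, true_and]; exact ⟨h1, h2⟩⟩
      have hmem : ∀ φ, φ ∈ S ↔ ((∀ j ∈ J, Val I (φ j) j) ∧
        ∀ j ∈ J, ∀ j' ∈ J, j ≤ j' → φ j ≤ φ j') := by
        intro φ
        simp only [S, Finset.mem_filter, Finset.mem_univ, true_and]
      refine ⟨fun j => S.inf' hS (fun φ => φ j), fun _ _ => ⟨?_, ?_, ?_⟩⟩
      · intro j hj
        obtain ⟨φ, hφ, he⟩ := Finset.exists_mem_eq_inf' hS (fun φ : P → V => φ j)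
        show Val I (S.inf' hS (fun φ => φ j)) j
        rw [he]
        exact ((hmem φ).1 hφ).1 j hj
      · intro j hj j' hj' hjj
        refine Finset.le_inf' _ _ ?_
        intro φ hφ
        exact le_trans (Finset.inf'_le _ hφ) (((hmem φ).1 hφ).2 j hj j' hj' hjj)
      · intro φ hv hm j hj
        exact Finset.inf'_le (fun φ : P → V => φ j) ((hmem φ).2 ⟨hv, hm⟩)
    · exact ⟨φ0, fun h1 h2 => absurd ⟨h1, h2⟩ hI⟩
  choose Φ hΦ using key
  let W : ℕ → Finset (Finset C) := fun i => univ.filter (fun I => I0 ⊆ I ∧ I.card ≤ I0.card + i)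
  have hW : ∀ i I, I ∈ W i ↔ (I0 ⊆ I ∧ I.card ≤ I0.card + i) := by
    intro i I
    simp only [W, Finset.mem_filter, Finset.mem_univ, true_and]
  have hWn : ∀ i, (W i).Nonempty := fun i =>
    ⟨I0, (hW i I0).2 ⟨Finset.Subset.refl _, Nat.le_add_right _ _⟩⟩
  refine ⟨fun i j => (W i).sup' (hWn i) (fun I => Φ I j), ?_, ?_, ?_⟩
  · intro i hi j hj j' hj' hjj
    refine Finset.sup'_le _ _ ?_
    intro I hI
    have hI' := (hW i I).1 hI
    have h := hΦ I hI'.1 (by omega)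
    exact le_trans (h.2.1 j hj j' hj' hjj) (Finset.le_sup' (fun I => Φ I j') hI)
  · intro i hi j hj
    obtain ⟨I, hI, he⟩ := Finset.exists_mem_eq_sup' (hWn i) (fun I => Φ I j)
    show Val I0 ((W i).sup' (hWn i) (fun I => Φ I j)) j
    rw [he]
    have hI' := (hW i I).1 hI
    have h := hΦ I hI'.1 (by omega)
    exact hanti I0 I _ j (Finset.Subset.refl _) hI'.1 (h.1 j hj)
  · intro i hi j hj
    obtain ⟨I, hI, he⟩ := Finset.exists_mem_eq_sup' (hWn i) (fun I => Φ I j)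
    show col ((W i).sup' (hWn i) (fun I => Φ I j)) < col ((W (i + 1)).sup' (hWn (i + 1)) (fun I => Φ I j))
    rw [he]
    have hI' := (hW i I).1 hI
    have h := hΦ I hI'.1 (by omega)
    have hb : b (col (Φ I j)) ∉ I := hmiss I _ j (h.1 j hj)
    have hsub : I ⊆ insert (b (col (Φ I j))) I := Finset.subset_insert _ _
    have hcard : (insert (b (col (Φ I j))) I).card = I.card + 1 := Finset.card_insert_of_notMem hb
    have h2 := hΦ (insert (b (col (Φ I j))) I) (hI'.1.trans hsub) (by omega)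
    have hmem2 : insert (b (col (Φ I j))) I ∈ W (i + 1) :=
      (hW _ _).2 ⟨hI'.1.trans hsub, by omega⟩
    have hle : Φ I j ≤ Φ (insert (b (col (Φ I j))) I) j :=
      h.2.2 _ (fun j1 hj1 => hanti I _ _ j1 hI'.1 hsub (h2.1 j1 hj1)) h2.2.1 j hj
    have hne : col (Φ (insert (b (col (Φ I j))) I) j) ≠ col (Φ I j) := by
      intro heq
      have := hmiss _ _ j (h2.1 j hj)
      rw [heq] at this
      exact this (Finset.mem_insert_self _ _)
    exact lt_of_lt_of_le (lt_of_le_of_ne (hcol _ _ hle) (Ne.symm hne))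
      (hcol _ _ (Finset.le_sup' (fun I => Φ I j) hmem2))

/-- ENVELOPE, applied. Take `V := Fin D ×ₗ Fin N` with `Fin N ≃ (Fin m → Fin M)`
(`Fintype.equivFin`), `Val I v j := VAL lev c b a0 I0 v j ∧ ∀ A ∈ I, ∃ a, c v.1 a = A`; `hex`
comes from `Win` for `I` with `J = {j | b j ∈ I0}`, `β = b` and representatives set to `a0`
outside `I0`. -/
theorem env_apply {D M m : ℕ} (lev : Fin D → Fin D → Fin M → ℕ) (c : Fin D → Fin M → Fin m)
    (b : Fin D → Fin m) (hb : ∀ k a, c k a ≠ b k) (a0 : Fin M) (I0 : Finset (Fin m)) (Y : ℕ)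
    (hwin : ∀ I : Finset (Fin m), I.card ≤ I0.card + Y → Win lev c I) :
    ∃ f : ℕ → Fin D → Fin D × (Fin m → Fin M),
      (∀ i ≤ Y, ∀ j j', b j ∈ I0 → b j' ∈ I0 → j ≤ j' → (f i j).1 ≤ (f i j').1) ∧
      (∀ i ≤ Y, ∀ j j' j'', b j ∈ I0 → b j' ∈ I0 → b j'' ∈ I0 → j ≤ j' → j' ≤ j'' →
        f i j = f i j'' → f i j' = f i j) ∧
      (∀ i ≤ Y, ∀ j, b j ∈ I0 → VAL lev c b a0 I0 (f i j) j) ∧
      (∀ i < Y, ∀ j, b j ∈ I0 → (f i j).1 < (f (i + 1) j).1) := by
  classical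
  let e : (Fin m → Fin M) ≃ Fin (Fintype.card (Fin m → Fin M)) := Fintype.equivFin _
  let V := Fin D ×ₗ Fin (Fintype.card (Fin m → Fin M))
  let col : V → Fin D := fun v => (ofLex v).1
  let dec : V → Fin D × (Fin m → Fin M) := fun v => ((ofLex v).1, e.symm (ofLex v).2)
  let Val : Finset (Fin m) → V → Fin D → Prop := fun I v j =>
    VAL lev c b a0 I0 (dec v) j ∧ ∀ A ∈ I, ∃ a, c (col v) a = A
  have hinj : ∀ v v' : V, dec v = dec v' → v = v' := by
    intro v v' h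
    have h1 := (Prod.mk.inj h).1
    have h2 := e.symm.injective (Prod.mk.inj h).2
    exact ofLex.injective (Prod.ext h1 h2)
  have hcol : ∀ v v' : V, v ≤ v' → col v ≤ col v' := by
    intro v v' h
    rcases (Prod.Lex.le_iff (α := Fin D) (β := Fin (Fintype.card (Fin m → Fin M)))).1 h with h | h
    · exact le_of_lt h
    · exact le_of_eq h.1
  obtain ⟨f, h1, h2, h3⟩ := envelope (P := Fin D) (κ := Fin D) (V := V) (C := Fin m)
    (univ.filter (fun j => b j ∈ I0)) col hcol b I0 Y Val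
    (fun I I' v j _ hII h => ⟨h.1, fun A hA => h.2 A (hII hA)⟩)
    (fun I v j h hmem => by
      obtain ⟨a, ha⟩ := h.2 _ hmem
      exact hb _ _ ha)
    (by
      intro I hI hcard
      obtain ⟨φ, ρ, hφ, hmono⟩ := hwin I hcard (univ.filter (fun j => b j ∈ I0)) b
        (fun j hj => ⟨hI (mem_filter.1 hj).2, fun a => hb j a⟩)
      refine ⟨fun j => toLex (φ j, e (fun A => if A ∈ I0 then ρ (φ j) A else a0)), ?_, ?_⟩
      · intro j hj
        have hd : dec (toLex (φ j, e (fun A => if A ∈ I0 then ρ (φ j) A else a0)))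
            = (φ j, fun A => if A ∈ I0 then ρ (φ j) A else a0) := by
          simp [dec]
        refine ⟨?_, ?_⟩
        · rw [hd]
          refine ⟨?_, ?_, ?_⟩
          · intro A hA
            simp only [hA, if_true]
            exact (hφ j hj A (hI hA)).1
          · intro A hA
            simp only [hA, if_false]
          · intro A hA
            simp only [hA, if_true]
            exact (hφ j hj A (hI hA)).2
        · intro A hA
          exact ⟨_, (hφ j hj A hA).1⟩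
      · intro j hj j' hj' hjj
        rcases lt_or_eq_of_le (hmono j hj j' hj' hjj) with h | h
        · exact (Prod.Lex.le_iff (α := Fin D) (β := Fin (Fintype.card (Fin m → Fin M)))).2 (Or.inl h)
        · refine (Prod.Lex.le_iff (α := Fin D) (β := Fin (Fintype.card (Fin m → Fin M)))).2
            (Or.inr ⟨h, ?_⟩)
          simp only [ofLex_toLex]
          rw [h])
  refine ⟨fun i j => dec (f i j), ?_, ?_, ?_, ?_⟩
  · intro i hi j j' hj hj' hjj
    exact hcol _ _ (h1 i hi j (mem_filter.2 ⟨mem_univ _, hj⟩) j' (mem_filter.2 ⟨mem_univ _, hj'⟩) hjj)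
  · intro i hi j j' j'' hj hj' hj'' hjj hjj' heq
    have e1 := h1 i hi j (mem_filter.2 ⟨mem_univ _, hj⟩) j' (mem_filter.2 ⟨mem_univ _, hj'⟩) hjj
    have e2 := h1 i hi j' (mem_filter.2 ⟨mem_univ _, hj'⟩) j'' (mem_filter.2 ⟨mem_univ _, hj''⟩) hjj'
    have e3 := hinj _ _ heq
    rw [← e3] at e2
    exact congrArg dec (le_antisymm e2 e1)
  · intro i hi j hj
    exact (h2 i hi j (mem_filter.2 ⟨mem_univ _, hj⟩)).1
  · intro i hi j hj
    exact h3 i hi j (mem_filter.2 ⟨mem_univ _, hj⟩)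

end Pool.Agent.Rey
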