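import Mathlib
import Pool.Agent.Rey.Defs

set_option autoImplicit false

namespace Pool.Agent.Rey

open Finset

private theorem ba_gen {m : ℕ} (p q : Fin m → ℝ) :
    ∑ I : Finset (Fin m), ∏ A : Fin m, (if A ∈ I then p A else q A) = ∏ A, (p A + q A) := by
  rw [Finset.prod_add, Finset.powerset_univ]
  refine Finset.sum_congr rfl ?_
  intro I _
  rw [Finset.prod_ite]
  congr 1
  · refine Finset.prod_congr ?_ (fun _ _ => rfl)
    ext A; simp
  · refine Finset.prod_congr ?_ (fun _ _ => rfl)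
    ext A; simp

theorem wt_nonneg {m : ℕ} {τ : ℝ} (h0 : 0 ≤ τ) (h1 : τ ≤ 1) (I : Finset (Fin m)) :
    0 ≤ wt τ I := by
  unfold wt
  refine Finset.prod_nonneg ?_
  intro A _
  split_ifs
  · exact h0
  · linarith

/-- Product formula. -/
theorem wt_prod {m : ℕ} (τ : ℝ) (x : Fin m → ℝ) :
    ∑ I : Finset (Fin m), wt τ I * ∏ A ∈ I, x A = ∏ A, (1 - τ + τ * x A) := by
  have h := ba_gen (fun A => τ * x A) (fun _ => 1 - τ)
  have e : ∏ A : Fin m, (1 - τ + τ * x A) = ∏ A : Fin m, (τ * x A + (1 - τ)) :=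
    Finset.prod_congr rfl (fun A _ => by ring)
  rw [e, ← h]
  refine Finset.sum_congr rfl ?_
  intro I _
  have e2 : ∏ A ∈ I, x A = ∏ A : Fin m, (if A ∈ I then x A else 1) := by
    rw [Finset.prod_ite_mem, Finset.univ_inter]
  rw [e2]
  unfold wt
  rw [← Finset.prod_mul_distrib]
  refine Finset.prod_congr rfl ?_
  intro A _
  split_ifs
  · rfl
  · ring

theorem wt_sum {m : ℕ} (τ : ℝ) : ∑ I : Finset (Fin m), wt τ I = 1 := by
  have h := ba_gen (m := m) (fun _ => τ) (fun _ => 1 - τ)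
  have e : ∏ A : Fin m, (τ + (1 - τ)) = 1 := by
    refine Finset.prod_eq_one ?_
    intro A _
    ring
  rw [e] at h
  exact h

/-- Probability of missing `U`. -/
theorem wt_miss {m : ℕ} (τ : ℝ) (U : Finset (Fin m)) :
    ∑ I ∈ univ.filter (fun I : Finset (Fin m) => ∀ A ∈ U, A ∉ I), wt τ I
      = (1 - τ) ^ U.card := by
  have h := ba_gen (m := m) (fun A => if A ∈ U then 0 else τ) (fun _ => 1 - τ)
  have e : ∏ A : Fin m, ((if A ∈ U then 0 else τ) + (1 - τ)) = (1 - τ) ^ U.card := by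
    rw [← Finset.prod_const, ← Finset.univ_inter U, ← Finset.prod_ite_mem]
    refine Finset.prod_congr rfl ?_
    intro A _
    rw [Finset.univ_inter]
    split_ifs
    · ring
    · ring
  rw [e] at h
  rw [← h, Finset.sum_filter]
  refine Finset.sum_congr rfl ?_
  intro I _
  split_ifs with hI
  · unfold wt
    refine Finset.prod_congr rfl ?_
    intro A _
    by_cases hA : A ∈ I
    · rw [if_pos hA, if_pos hA, if_neg (fun hU => hI A hU hA)]
    · rw [if_neg hA, if_neg hA]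
  · push Not at hI
    obtain ⟨A, hAU, hAI⟩ := hI
    symm
    refine Finset.prod_eq_zero (Finset.mem_univ A) ?_
    rw [if_pos hAI, if_pos hAU]

private theorem ba_sub {m : ℕ} (τ : ℝ) (U : Finset (Fin m)) :
    ∑ I ∈ univ.filter (fun I : Finset (Fin m) => ∀ A ∈ U, A ∈ I), wt τ I
      = τ ^ U.card := by
  have h := ba_gen (m := m) (fun _ => τ) (fun A => if A ∈ U then 0 else 1 - τ)
  have e : ∏ A : Fin m, (τ + (if A ∈ U then 0 else 1 - τ)) = τ ^ U.card := by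
    rw [← Finset.prod_const, ← Finset.univ_inter U, ← Finset.prod_ite_mem]
    refine Finset.prod_congr rfl ?_
    intro A _
    rw [Finset.univ_inter]
    split_ifs
    · ring
    · ring
  rw [e] at h
  rw [← h, Finset.sum_filter]
  refine Finset.sum_congr rfl ?_
  intro I _
  split_ifs with hI
  · unfold wt
    refine Finset.prod_congr rfl ?_
    intro A _
    by_cases hA : A ∈ I
    · rw [if_pos hA, if_pos hA]
    · rw [if_neg hA, if_neg hA, if_neg (fun hU => hA (hI A hU))]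
  · push Not at hI
    obtain ⟨A, hAU, hAI⟩ := hI
    symm
    refine Finset.prod_eq_zero (Finset.mem_univ A) ?_
    rw [if_neg hAI, if_pos hAU]

theorem wt_mem {m : ℕ} (τ : ℝ) (b : Fin m) :
    ∑ I ∈ univ.filter (fun I : Finset (Fin m) => b ∈ I), wt τ I = τ := by
  have h := ba_sub τ ({b} : Finset (Fin m))
  simpa using h

theorem wt_mem2 {m : ℕ} {τ : ℝ} (h0 : 0 ≤ τ) (h1 : τ ≤ 1) (b β : Fin m) :
    τ ^ 2 ≤ ∑ I ∈ univ.filter (fun I : Finset (Fin m) => b ∈ I ∧ β ∈ I), wt τ I := by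
  have h := ba_sub τ ({b, β} : Finset (Fin m))
  have e : (univ.filter (fun I : Finset (Fin m) => ∀ A ∈ ({b, β} : Finset (Fin m)), A ∈ I))
      = univ.filter (fun I : Finset (Fin m) => b ∈ I ∧ β ∈ I) := by
    ext I; simp
  rw [e] at h
  rw [h]
  have hc : ({b, β} : Finset (Fin m)).card ≤ 2 := Finset.card_le_two
  exact pow_le_pow_of_le_one h0 h1 hc

private theorem bb_par {m n q l : ℕ} (h : Par m n q l) :
    (8 : ℝ) ≤ q ∧ (10 : ℝ) ^ 15 * q ^ 14 ≤ m ∧ 8 * (m : ℝ) ≤ n * q := by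
  obtain ⟨hq, hnm, hqn, hl, hl1, hP⟩ := h
  refine ⟨by exact_mod_cast hq, ?_, by exact_mod_cast hqn⟩
  have h2 : 10 ^ 15 * q ^ 14 ≤ m := by
    refine le_trans ?_ hP
    calc 10 ^ 15 * q ^ 14 = 10 ^ 15 * q ^ 14 * 1 := by ring
      _ ≤ 10 ^ 15 * q ^ 14 * l ^ 2 := Nat.mul_le_mul_left _ (Nat.one_le_pow _ _ hl1)
  exact_mod_cast h2

private theorem bb_exp {y T : ℝ} (hT : 0 < T) (hy : T ≤ y) : Real.exp (-y) ≤ 1 / T := by
  rw [Real.exp_neg, ← one_div]
  refine one_div_le_one_div_of_le hT ?_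
  have := Real.add_one_le_exp y
  linarith

/-- Lower tail: `P(4 q |I| < m) ≤ 2^(m/(4q)) (1 - 1/(2q))^m ≤ exp(- 0.32 m / q)`. -/
theorem wt_low {m n q l : ℕ} (h : Par m n q l) :
    ∑ I ∈ univ.filter (fun I : Finset (Fin m) => ¬ m ≤ 4 * q * I.card), wt (1 / (q : ℝ)) I
      ≤ 1 / (600 * (q : ℝ) ^ 2) := by
  obtain ⟨hq, hm, -⟩ := bb_par h
  have hq0 : (0 : ℝ) < q := by linarith
  have ht0 : (0 : ℝ) ≤ 1 / (q : ℝ) := by positivity
  have ht1 : 1 / (q : ℝ) ≤ 1 := by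
    rw [div_le_one hq0]; linarith
  set L : ℝ := Real.log 2 with hL
  have hL1 : L < 0.6931471808 := Real.log_two_lt_d9
  have hL0 : 0.6931471803 < L := Real.log_two_gt_d9
  -- Markov
  have h1 : ∑ I ∈ univ.filter (fun I : Finset (Fin m) => ¬ m ≤ 4 * q * I.card), wt (1 / (q : ℝ)) I
      ≤ ∑ I : Finset (Fin m), Real.exp (L * (m / (4 * q))) *
        (wt (1 / (q : ℝ)) I * ∏ A ∈ I, (1 / 2 : ℝ)) := by
    refine le_trans ?_ (Finset.sum_le_sum_of_subset_of_nonneg (Finset.filter_subset (fun I : Finset (Fin m) => ¬ m ≤ 4 * q * I.card) univ) ?_)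
    · refine Finset.sum_le_sum ?_
      intro I hI
      rw [Finset.mem_filter] at hI
      have hI2 := hI.2
      have hI3 : 4 * q * I.card ≤ m := by omega
      have hI4 : 4 * (q : ℝ) * I.card ≤ m := by exact_mod_cast hI3
      have hw := wt_nonneg ht0 ht1 I
      rw [Finset.prod_const]
      have e : ((1 : ℝ) / 2) ^ I.card = Real.exp (-(L * I.card)) := by
        rw [Real.exp_neg, mul_comm L, Real.exp_nat_mul, hL, Real.exp_log (by norm_num), one_div, inv_pow]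
      rw [e]
      have e2 : Real.exp (L * (m / (4 * q))) * (wt (1 / (q : ℝ)) I * Real.exp (-(L * I.card)))
          = wt (1 / (q : ℝ)) I * Real.exp (L * (m / (4 * q)) + -(L * I.card)) := by
        rw [Real.exp_add]; ring
      rw [e2]
      have h5 : (I.card : ℝ) ≤ m / (4 * q) := by
        rw [le_div_iff₀ (by positivity)]
        linarith
      have h6 : (0 : ℝ) ≤ L * (m / (4 * q)) + -(L * I.card) := by
        have : L * I.card ≤ L * (m / (4 * q)) := mul_le_mul_of_nonneg_left h5 (by linarith)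
        linarith
      have h7 := Real.one_le_exp h6
      calc wt (1 / (q : ℝ)) I = wt (1 / (q : ℝ)) I * 1 := by ring
        _ ≤ _ := mul_le_mul_of_nonneg_left h7 hw
    · intro I _ _
      have hw := wt_nonneg ht0 ht1 I
      have : (0 : ℝ) ≤ ∏ A ∈ I, (1 / 2 : ℝ) := Finset.prod_nonneg (fun _ _ => by norm_num)
      positivity
  refine le_trans h1 ?_
  rw [← Finset.mul_sum, wt_prod]
  rw [Finset.prod_const, Finset.card_univ, Fintype.card_fin]
  have h2 : (1 - 1 / (q : ℝ) + 1 / (q : ℝ) * (1 / 2)) ^ m ≤ Real.exp (-(m / (2 * q))) := by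
    have h3 : 1 - 1 / (q : ℝ) + 1 / (q : ℝ) * (1 / 2) ≤ Real.exp (-(1 / (2 * q))) := by
      have := Real.add_one_le_exp (-(1 / (2 * (q : ℝ))))
      have e : 1 - 1 / (q : ℝ) + 1 / (q : ℝ) * (1 / 2) = -(1 / (2 * (q : ℝ))) + 1 := by
        field_simp
        ring
      rw [e]; exact this
    have h4 : 0 ≤ 1 - 1 / (q : ℝ) + 1 / (q : ℝ) * (1 / 2) := by
      have : (0 : ℝ) ≤ 1 / (q : ℝ) * (1 / 2) := by positivity
      linarith
    calc (1 - 1 / (q : ℝ) + 1 / (q : ℝ) * (1 / 2)) ^ m ≤ (Real.exp (-(1 / (2 * q)))) ^ m :=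
          pow_le_pow_left₀ h4 h3 m
      _ = Real.exp (-(m / (2 * q))) := by
          rw [← Real.exp_nat_mul]
          congr 1
          ring
  have h3 : Real.exp (L * (m / (4 * q))) * (1 - 1 / (q : ℝ) + 1 / (q : ℝ) * (1 / 2)) ^ m
      ≤ Real.exp (-(m / q * (1 / 2 - L / 4))) := by
    refine le_trans (mul_le_mul_of_nonneg_left h2 (Real.exp_pos _).le) ?_
    rw [← Real.exp_add]
    refine le_of_eq ?_
    congr 1
    field_simp
    ring
  refine le_trans h3 (bb_exp (by positivity) ?_)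
  have h4 : (10 : ℝ) ^ 15 * (q : ℝ) ^ 13 ≤ (m : ℝ) / (q : ℝ) := by
    rw [le_div_iff₀ hq0]
    calc (10 : ℝ) ^ 15 * (q : ℝ) ^ 13 * (q : ℝ) = 10 ^ 15 * (q : ℝ) ^ 14 := by ring
      _ ≤ (m : ℝ) := hm
  have h5 : (10 : ℝ) ^ 15 * (q : ℝ) ^ 2 ≤ m / q := by
    refine le_trans ?_ h4
    have h6 : (1 : ℝ) ≤ (q : ℝ) ^ 11 := one_le_pow₀ (by linarith)
    have h7 : (q : ℝ) ^ 13 = q ^ 2 * q ^ 11 := by ring
    rw [h7]
    have : (0 : ℝ) ≤ (q : ℝ) ^ 2 := by positivity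
    nlinarith
  have h8 : (0.3 : ℝ) ≤ 1 / 2 - L / 4 := by linarith
  have h9 : (0 : ℝ) ≤ (q : ℝ) ^ 2 := by positivity
  calc 600 * (q : ℝ) ^ 2 ≤ (10 : ℝ) ^ 15 * (q : ℝ) ^ 2 * 0.3 := by nlinarith
    _ ≤ m / q * (1 / 2 - L / 4) := by
        refine mul_le_mul h5 h8 (by norm_num) (by positivity)

/-- Upper tail: `P(|I| > n/2) ≤ 2^(-n/2) (1 + 1/q)^m ≤ exp(- 0.22 n)`, `n ≥ 8 m / q`. -/
theorem wt_high {m n q l : ℕ} (h : Par m n q l) :
    ∑ I ∈ univ.filter (fun I : Finset (Fin m) => ¬ 2 * I.card ≤ n), wt (1 / (q : ℝ)) I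
      ≤ 1 / (600 * (q : ℝ) ^ 2) := by
  obtain ⟨hq, hm, hn⟩ := bb_par h
  have hq0 : (0 : ℝ) < q := by linarith
  have ht0 : (0 : ℝ) ≤ 1 / (q : ℝ) := by positivity
  have ht1 : 1 / (q : ℝ) ≤ 1 := by
    rw [div_le_one hq0]; linarith
  set L : ℝ := Real.log 2 with hL
  have hL1 : L < 0.6931471808 := Real.log_two_lt_d9
  have hL0 : 0.6931471803 < L := Real.log_two_gt_d9
  have h1 : ∑ I ∈ univ.filter (fun I : Finset (Fin m) => ¬ 2 * I.card ≤ n), wt (1 / (q : ℝ)) I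
      ≤ ∑ I : Finset (Fin m), Real.exp (-(L * (n / 2))) *
        (wt (1 / (q : ℝ)) I * ∏ A ∈ I, (2 : ℝ)) := by
    refine le_trans ?_ (Finset.sum_le_sum_of_subset_of_nonneg (Finset.filter_subset (fun I : Finset (Fin m) => ¬ 2 * I.card ≤ n) univ) ?_)
    · refine Finset.sum_le_sum ?_
      intro I hI
      rw [Finset.mem_filter] at hI
      have hI2 := hI.2
      have hI3 : n ≤ 2 * I.card := by omega
      have hI4 : (n : ℝ) ≤ 2 * I.card := by exact_mod_cast hI3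
      have hw := wt_nonneg ht0 ht1 I
      rw [Finset.prod_const]
      have e : (2 : ℝ) ^ I.card = Real.exp (L * I.card) := by
        rw [mul_comm L, Real.exp_nat_mul, hL, Real.exp_log (by norm_num)]
      rw [e]
      have e2 : Real.exp (-(L * (n / 2))) * (wt (1 / (q : ℝ)) I * Real.exp (L * I.card))
          = wt (1 / (q : ℝ)) I * Real.exp (-(L * (n / 2)) + L * I.card) := by
        rw [Real.exp_add]; ring
      rw [e2]
      have h6 : (0 : ℝ) ≤ -(L * (n / 2)) + L * I.card := by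
        have : L * (n / 2) ≤ L * I.card := mul_le_mul_of_nonneg_left (by linarith) (by linarith)
        linarith
      have h7 := Real.one_le_exp h6
      calc wt (1 / (q : ℝ)) I = wt (1 / (q : ℝ)) I * 1 := by ring
        _ ≤ _ := mul_le_mul_of_nonneg_left h7 hw
    · intro I _ _
      have hw := wt_nonneg ht0 ht1 I
      have : (0 : ℝ) ≤ ∏ A ∈ I, (2 : ℝ) := Finset.prod_nonneg (fun _ _ => by norm_num)
      positivity
  refine le_trans h1 ?_
  rw [← Finset.mul_sum, wt_prod]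
  rw [Finset.prod_const, Finset.card_univ, Fintype.card_fin]
  have h2 : (1 - 1 / (q : ℝ) + 1 / (q : ℝ) * 2) ^ m ≤ Real.exp (m / q) := by
    have h3 : 1 - 1 / (q : ℝ) + 1 / (q : ℝ) * 2 ≤ Real.exp (1 / q) := by
      have := Real.add_one_le_exp (1 / (q : ℝ))
      linarith
    have h4 : 0 ≤ 1 - 1 / (q : ℝ) + 1 / (q : ℝ) * 2 := by
      linarith
    calc (1 - 1 / (q : ℝ) + 1 / (q : ℝ) * 2) ^ m ≤ (Real.exp (1 / q)) ^ m :=
          pow_le_pow_left₀ h4 h3 m
      _ = Real.exp (m / q) := by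
          rw [← Real.exp_nat_mul]
          congr 1
          ring
  have h3 : Real.exp (-(L * (n / 2))) * (1 - 1 / (q : ℝ) + 1 / (q : ℝ) * 2) ^ m
      ≤ Real.exp (-(L * (n / 2) - m / q)) := by
    refine le_trans (mul_le_mul_of_nonneg_left h2 (Real.exp_pos _).le) ?_
    rw [← Real.exp_add]
    refine le_of_eq ?_
    congr 1
    ring
  refine le_trans h3 (bb_exp (by positivity) ?_)
  have h4 : (10 : ℝ) ^ 15 * (q : ℝ) ^ 13 ≤ (m : ℝ) / (q : ℝ) := by
    rw [le_div_iff₀ hq0]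
    calc (10 : ℝ) ^ 15 * (q : ℝ) ^ 13 * (q : ℝ) = 10 ^ 15 * (q : ℝ) ^ 14 := by ring
      _ ≤ (m : ℝ) := hm
  have h5 : (10 : ℝ) ^ 15 * (q : ℝ) ^ 2 ≤ m / q := by
    refine le_trans ?_ h4
    have h6 : (1 : ℝ) ≤ (q : ℝ) ^ 11 := one_le_pow₀ (by linarith)
    have h7 : (q : ℝ) ^ 13 = q ^ 2 * q ^ 11 := by ring
    rw [h7]
    have : (0 : ℝ) ≤ (q : ℝ) ^ 2 := by positivity
    nlinarith
  have h6 : m / (q : ℝ) ≤ n / 8 := by
    rw [div_le_div_iff₀ hq0 (by norm_num)]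
    linarith
  have h9 : (0 : ℝ) ≤ (q : ℝ) ^ 2 := by positivity
  have h10 : (0 : ℝ) ≤ (m : ℝ) / q := by positivity
  have h11 : (0.34 : ℝ) * n ≤ L * (n / 2) := by
    have : (0 : ℝ) ≤ n := Nat.cast_nonneg n
    nlinarith
  nlinarith

end Pool.Agent.Rey
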