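import Mathlib
import Pool.Agent.Rey.Bern
import Pool.Agent.Rey.Defs

set_option autoImplicit false

namespace Pool.Agent.Rey

open Finset

variable {M m : ℕ} (κ : Fin M → Fin m)

theorem cnt_sum : ∑ A, cnt κ A = M := by
  have h := Finset.card_eq_sum_card_fiberwise (s := (univ : Finset (Fin M)))
    (t := (univ : Finset (Fin m))) (f := κ) (fun _ _ => Finset.mem_coe.2 (mem_univ _))
  rw [card_univ, Fintype.card_fin] at h
  exact h.symm

theorem cnt_pos_iff (A : Fin m) : 0 < cnt κ A ↔ A ∉ mis κ := by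
  unfold cnt mis
  rw [card_pos, filter_nonempty_iff, mem_filter]
  push Not
  constructor
  · rintro ⟨a, _, h⟩ _
    exact ⟨a, h⟩
  · intro h
    obtain ⟨a, h⟩ := h (mem_univ _)
    exact ⟨a, mem_univ _, h⟩

/-- Some colour is missing. -/
theorem mis_pos (h : M < m) : (mis κ).Nonempty := by
  by_contra hc
  rw [not_nonempty_iff_eq_empty] at hc
  have hs : Function.Surjective κ := by
    intro A
    by_contra hA
    push Not at hA
    have : A ∈ mis κ := mem_filter.2 ⟨mem_univ _, hA⟩
    rw [hc] at this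
    exact absurd this (notMem_empty _)
  have h1 := Fintype.card_le_of_surjective κ hs
  rw [Fintype.card_fin, Fintype.card_fin] at h1
  omega

/-- The excess function. -/
private theorem ca_ex (h : M + 1 = m) : ∃ e : Fin m → ℕ,
    (∀ A, cnt κ A + (if A ∈ mis κ then 1 else 0) = e A + 1) ∧ ∑ A, e A + 1 = (mis κ).card := by
  refine ⟨fun A => cnt κ A + (if A ∈ mis κ then 1 else 0) - 1, ?_, ?_⟩
  · intro A
    have h1 : 1 ≤ cnt κ A + (if A ∈ mis κ then 1 else 0) := by
      split_ifs with h2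
      · omega
      · have := (cnt_pos_iff κ A).2 h2
        omega
    simp only
    omega
  · have h1 : ∀ A : Fin m, cnt κ A + (if A ∈ mis κ then 1 else 0) =
        (cnt κ A + (if A ∈ mis κ then 1 else 0) - 1) + 1 := by
      intro A
      have h1 : 1 ≤ cnt κ A + (if A ∈ mis κ then 1 else 0) := by
        split_ifs with h2
        · omega
        · have := (cnt_pos_iff κ A).2 h2
          omega
      omega
    have h2 : ∑ A : Fin m, (cnt κ A + (if A ∈ mis κ then 1 else 0)) =
        ∑ A : Fin m, ((cnt κ A + (if A ∈ mis κ then 1 else 0) - 1) + 1) :=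
      sum_congr rfl (fun A _ => h1 A)
    rw [sum_add_distrib, sum_add_distrib, cnt_sum, sum_boole, sum_const, card_univ,
      Fintype.card_fin, filter_mem_eq_inter, univ_inter] at h2
    simp only [Nat.cast_id, smul_eq_mul, mul_one] at h2
    show ∑ A : Fin m, (cnt κ A + (if A ∈ mis κ then 1 else 0) - 1) + 1 = (mis κ).card
    omega

/-- `sum over the present colours of (cnt - 1) = |mis| - 1`, so `cnt ≤ |mis|`. -/
theorem cnt_le (h : M + 1 = m) (A : Fin m) : cnt κ A ≤ (mis κ).card := by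
  obtain ⟨e, he, hs⟩ := ca_ex κ h
  have h1 := he A
  have h2 : e A ≤ ∑ B, e B := single_le_sum (fun _ _ => Nat.zero_le _) (mem_univ A)
  omega

/-- At most `2 (|mis| - 1)` points have a colour which is used more than once. -/
theorem multi_le (h : M + 1 = m) :
    (univ.filter (fun a : Fin M => cnt κ (κ a) ≠ 1)).card ≤ 2 * (mis κ).card := by
  obtain ⟨e, he, hs⟩ := ca_ex κ h
  have h1 := Finset.card_eq_sum_card_fiberwise
    (s := univ.filter (fun a : Fin M => cnt κ (κ a) ≠ 1))
    (t := (univ : Finset (Fin m))) (f := κ) (fun _ _ => Finset.mem_coe.2 (mem_univ _))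
  rw [h1]
  have h2 : ∀ A ∈ (univ : Finset (Fin m)),
      ((univ.filter (fun a : Fin M => cnt κ (κ a) ≠ 1)).filter (fun a => κ a = A)).card ≤
        2 * e A := by
    intro A _
    have h3 := he A
    by_cases hA : cnt κ A = 1
    · refine le_trans (le_of_eq ?_) (Nat.zero_le _)
      rw [card_eq_zero, filter_filter, filter_eq_empty_iff]
      rintro a _ ⟨h4, h5⟩
      rw [h5] at h4
      exact h4 hA
    · have h4 : ((univ.filter (fun a : Fin M => cnt κ (κ a) ≠ 1)).filter
          (fun a => κ a = A)).card ≤ cnt κ A := by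
        unfold cnt
        apply card_le_card
        intro a ha
        rw [mem_filter] at ha ⊢
        exact ⟨mem_univ _, ha.2⟩
      by_cases h5 : A ∈ mis κ
      · have h6 : cnt κ A = 0 := by
          by_contra h7
          exact (cnt_pos_iff κ A).1 (Nat.pos_of_ne_zero h7) h5
        omega
      · rw [if_neg h5] at h3
        have := (cnt_pos_iff κ A).2 h5
        omega
  have h3 := sum_le_sum h2
  rw [← mul_sum] at h3
  omega

/-- Once used colours of `I` (all colours of `I` present): at least `|I| - |mis|`. -/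
theorem once_ge (h : M + 1 = m) (I : Finset (Fin m)) (hI : ∀ A ∈ I, ∃ a, κ a = A) :
    I.card ≤ (univ.filter (fun a : Fin M => κ a ∈ I ∧ cnt κ (κ a) = 1)).card
      + (mis κ).card := by
  obtain ⟨e, he, hs⟩ := ca_ex κ h
  have h1 := Finset.card_eq_sum_card_fiberwise
    (s := univ.filter (fun a : Fin M => κ a ∈ I ∧ cnt κ (κ a) = 1))
    (t := I) (f := κ) (fun a ha => Finset.mem_coe.2 (mem_filter.1 (Finset.mem_coe.1 ha)).2.1)
  have h2 : ∀ A ∈ I, 1 ≤ ((univ.filter (fun a : Fin M => κ a ∈ I ∧ cnt κ (κ a) = 1)).filter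
      (fun a => κ a = A)).card + e A := by
    intro A hA
    have h3 := he A
    obtain ⟨a, ha⟩ := hI A hA
    have hm : A ∉ mis κ := by
      intro h4
      exact (mem_filter.1 h4).2 a ha
    rw [if_neg hm] at h3
    have h5 := (cnt_pos_iff κ A).2 hm
    by_cases h6 : cnt κ A = 1
    · have h7 : 0 < ((univ.filter (fun a : Fin M => κ a ∈ I ∧ cnt κ (κ a) = 1)).filter
          (fun a => κ a = A)).card := by
        rw [card_pos]
        exact ⟨a, by
          rw [mem_filter, mem_filter]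
          exact ⟨⟨mem_univ _, by rw [ha]; exact hA, by rw [ha]; exact h6⟩, ha⟩⟩
      omega
    · omega
  have h3 := sum_le_sum h2
  rw [sum_add_distrib, ← h1, sum_const, smul_eq_mul, mul_one] at h3
  have h4 : ∑ A ∈ I, e A ≤ ∑ A, e A := sum_le_sum_of_subset (subset_univ _)
  omega

/-- `E prod_{A in I} cnt A = prod_A (1 - τ + τ cnt A) ≤ (1-τ)^e exp(τ (e-1)) ≤ exp(-τ^2 e / 2)`. -/
theorem exp_prod (h : M + 1 = m) {τ : ℝ} (h0 : 0 ≤ τ) (h1 : τ < 1) :
    ∑ I : Finset (Fin m), wt τ I * ((∏ A ∈ I, cnt κ A : ℕ) : ℝ)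
      ≤ Real.exp (- (τ ^ 2 * (mis κ).card / 2)) := by
  obtain ⟨e, he, hs⟩ := ca_ex κ h
  have h2 : ∑ I : Finset (Fin m), wt τ I * ((∏ A ∈ I, cnt κ A : ℕ) : ℝ) =
      ∏ A, (1 - τ + τ * (cnt κ A : ℝ)) := by
    rw [← wt_prod τ (fun A => (cnt κ A : ℝ))]
    refine sum_congr rfl (fun I _ => ?_)
    rw [Nat.cast_prod]
  rw [h2]
  have h3 : ∀ A ∈ (univ : Finset (Fin m)), 1 - τ + τ * (cnt κ A : ℝ) ≤
      Real.exp (τ * e A) * (if A ∈ mis κ then 1 - τ else 1) := by
    intro A _
    have h4 := he A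
    by_cases h5 : A ∈ mis κ
    · have h6 : cnt κ A = 0 := by
        by_contra h7
        exact (cnt_pos_iff κ A).1 (Nat.pos_of_ne_zero h7) h5
      rw [if_pos h5] at h4 ⊢
      have h8 : e A = 0 := by omega
      rw [h6, h8]
      simp
    · rw [if_neg h5] at h4 ⊢
      have h6 : (cnt κ A : ℝ) = e A + 1 := by
        have : cnt κ A = e A + 1 := by omega
        exact_mod_cast this
      rw [h6, mul_one]
      have := Real.add_one_le_exp (τ * e A)
      linarith
  have h4 : ∏ A, (1 - τ + τ * (cnt κ A : ℝ)) ≤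
      ∏ A, (Real.exp (τ * e A) * (if A ∈ mis κ then 1 - τ else 1)) := by
    refine prod_le_prod (fun A _ => ?_) h3
    have : 0 ≤ τ * (cnt κ A : ℝ) := mul_nonneg h0 (Nat.cast_nonneg _)
    linarith
  refine h4.trans ?_
  rw [prod_mul_distrib, ← Real.exp_sum, ← mul_sum, prod_ite, prod_const_one, mul_one, prod_const,
    filter_mem_eq_inter, univ_inter]
  have h5 : (1 - τ) ≤ Real.exp (-(τ + τ ^ 2 / 2)) := by
    have h6 := Real.hasSum_pow_div_log_of_abs_lt_one (x := τ) (by rw [abs_lt]; constructor <;> linarith)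
    have h7 := sum_le_hasSum (range 2) (fun i _ => by positivity) h6
    rw [sum_range_succ, sum_range_succ, sum_range_zero] at h7
    norm_num at h7
    have h8 : Real.log (1 - τ) ≤ -(τ + τ ^ 2 / 2) := by linarith
    calc 1 - τ = Real.exp (Real.log (1 - τ)) := (Real.exp_log (by linarith)).symm
      _ ≤ _ := Real.exp_le_exp.2 h8
  have h6 : (1 - τ) ^ (mis κ).card ≤ Real.exp (-(τ + τ ^ 2 / 2)) ^ (mis κ).card :=
    pow_le_pow_left₀ (by linarith) h5 _
  calc Real.exp (τ * ∑ A, (e A : ℝ)) * (1 - τ) ^ (mis κ).card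
      ≤ Real.exp (τ * ∑ A, (e A : ℝ)) * Real.exp (-(τ + τ ^ 2 / 2)) ^ (mis κ).card :=
        mul_le_mul_of_nonneg_left h6 (Real.exp_pos _).le
    _ ≤ _ := by
      rw [← Real.exp_nat_mul, ← Real.exp_add]
      apply Real.exp_le_exp.2
      have h7 : (∑ A, (e A : ℝ)) + 1 = ((mis κ).card : ℝ) := by
        rw [← hs]
        push_cast
        ring
      have h8 : (∑ A, (e A : ℝ)) = ((mis κ).card : ℝ) - 1 := by linarith
      rw [h8]
      nlinarith

/-- Expected number of once used heads in one block: list them from the top, the `i`-th (from 0)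
is a head iff the (distinct) colours of the earlier ones are not in `I`: probability
`(1-τ)^i`; the sum is at most `1/τ`. -/
theorem exp_heads_block {τ : ℝ} (h0 : 0 < τ) (h1 : τ < 1) (R r : ℕ) :
    ∑ I : Finset (Fin m), wt τ I * (((hd R κ I).filter
      (fun a : Fin M => (a : ℕ) % R = r ∧ cnt κ (κ a) = 1)).card : ℝ) ≤ 1 / τ := by
  classical
  set P : Finset (Fin M) := univ.filter (fun a : Fin M => (a : ℕ) % R = r ∧ cnt κ (κ a) = 1)
    with hP
  have hinj : ∀ a ∈ P, ∀ b ∈ P, (a : ℕ) / R = (b : ℕ) / R → a = b := by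
    intro a ha b hb hab
    have h2 := (mem_filter.1 ha).2.1
    have h3 := (mem_filter.1 hb).2.1
    have h4 := Nat.div_add_mod (a : ℕ) R
    have h5 := Nat.div_add_mod (b : ℕ) R
    apply Fin.ext
    rw [← h4, ← h5, hab, h2, h3]
  have hκ : ∀ a ∈ P, ∀ b ∈ P, κ a = κ b → a = b := by
    intro a ha b hb hab
    have h2 := (mem_filter.1 ha).2.2
    unfold cnt at h2
    rw [card_eq_one] at h2
    obtain ⟨c, hc⟩ := h2
    have h3 : a ∈ univ.filter (fun a' : Fin M => κ a' = κ a) := by simp
    have h4 : b ∈ univ.filter (fun a' : Fin M => κ a' = κ a) := by simp [hab]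
    rw [hc, mem_singleton] at h3 h4
    rw [h3, h4]
  -- probability that `a` is a head
  have h2 : ∀ a ∈ P, ∑ I : Finset (Fin m), wt τ I * (if a ∈ hd R κ I then (1 : ℝ) else 0) =
      (1 - τ) ^ (P.filter (fun b : Fin M => (a : ℕ) / R < (b : ℕ) / R)).card := by
    intro a ha
    have h3 := (mem_filter.1 ha).2
    have h4 : (P.filter (fun b : Fin M => (a : ℕ) / R < (b : ℕ) / R)).card =
        ((P.filter (fun b : Fin M => (a : ℕ) / R < (b : ℕ) / R)).image κ).card := by
      rw [card_image_of_injOn]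
      intro b hb c hc hbc
      exact hκ b (mem_filter.1 (mem_coe.1 hb)).1 c (mem_filter.1 (mem_coe.1 hc)).1 hbc
    rw [h4, ← wt_miss, sum_filter]
    refine sum_congr rfl (fun I _ => ?_)
    have h5 : a ∈ hd R κ I ↔
        ∀ A ∈ (P.filter (fun b : Fin M => (a : ℕ) / R < (b : ℕ) / R)).image κ, A ∉ I := by
      unfold hd
      rw [mem_filter]
      constructor
      · rintro ⟨_, h6⟩ A hA hAI
        obtain ⟨b, hb, hbA⟩ := mem_image.1 hA
        rw [mem_filter, hP, mem_filter] at hb
        refine h6 b ?_ hb.2 (by rw [hbA]; exact hAI) hb.1.2.2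
        rw [hb.1.2.1, h3.1]
      · intro h6
        refine ⟨mem_univ _, ?_⟩
        intro b hb1 hb2 hb3 hb4
        refine h6 (κ b) ?_ hb3
        apply mem_image_of_mem
        rw [mem_filter, hP, mem_filter]
        exact ⟨⟨mem_univ _, by rw [hb1, h3.1], hb4⟩, hb2⟩
    by_cases h6 : a ∈ hd R κ I
    · rw [if_pos h6, if_pos (h5.1 h6), mul_one]
    · rw [if_neg h6, if_neg (fun h7 => h6 (h5.2 h7)), mul_zero]
  have h3 : ∑ I : Finset (Fin m), wt τ I * (((hd R κ I).filter
      (fun a : Fin M => (a : ℕ) % R = r ∧ cnt κ (κ a) = 1)).card : ℝ) =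
      ∑ a ∈ P, (1 - τ) ^ (P.filter (fun b : Fin M => (a : ℕ) / R < (b : ℕ) / R)).card := by
    rw [← sum_congr rfl h2, sum_comm]
    refine sum_congr rfl (fun I _ => ?_)
    rw [← mul_sum, sum_boole]
    congr 2
    congr 1
    ext a
    rw [mem_filter, mem_filter, hP, mem_filter]
    constructor
    · rintro ⟨h4, h5⟩
      exact ⟨⟨mem_univ _, h5⟩, h4⟩
    · rintro ⟨h4, h5⟩
      exact ⟨h5, h4.2⟩
  rw [h3]
  have h4 : ∀ a ∈ P, ∀ b ∈ P, (P.filter (fun c : Fin M => (a : ℕ) / R < (c : ℕ) / R)).card =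
      (P.filter (fun c : Fin M => (b : ℕ) / R < (c : ℕ) / R)).card → a = b := by
    have key : ∀ a ∈ P, ∀ b ∈ P, (a : ℕ) / R < (b : ℕ) / R →
        (P.filter (fun c : Fin M => (b : ℕ) / R < (c : ℕ) / R)).card <
          (P.filter (fun c : Fin M => (a : ℕ) / R < (c : ℕ) / R)).card := by
      intro a ha b hb hab
      apply card_lt_card
      rw [ssubset_iff_of_subset]
      · exact ⟨b, mem_filter.2 ⟨hb, hab⟩, fun h => lt_irrefl _ (mem_filter.1 h).2⟩
      · intro c hc
        rw [mem_filter] at hc ⊢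
        exact ⟨hc.1, hab.trans hc.2⟩
    intro a ha b hb hab
    rcases lt_trichotomy ((a : ℕ) / R) ((b : ℕ) / R) with h | h | h
    · have := key a ha b hb h
      omega
    · exact hinj a ha b hb h
    · have := key b hb a ha h
      omega
  have h5 : ∑ a ∈ P, (1 - τ) ^ (P.filter (fun b : Fin M => (a : ℕ) / R < (b : ℕ) / R)).card =
      ∑ i ∈ P.image (fun a : Fin M => (P.filter (fun b : Fin M => (a : ℕ) / R < (b : ℕ) / R)).card),
        (1 - τ) ^ i := by
    rw [sum_image]
    intro a ha b hb hab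
    exact h4 a ha b hb hab
  rw [h5]
  have h6 : P.image (fun a : Fin M => (P.filter (fun b : Fin M => (a : ℕ) / R < (b : ℕ) / R)).card) ⊆
      range (P.card + 1) := by
    intro i hi
    obtain ⟨a, _, ha⟩ := mem_image.1 hi
    rw [mem_range, ← ha]
    exact Nat.lt_succ_of_le (card_filter_le _ _)
  refine (sum_le_sum_of_subset_of_nonneg h6 (fun i _ _ => pow_nonneg (by linarith) _)).trans ?_
  have h7 := Summable.sum_le_tsum (range (P.card + 1))
    (fun i _ => pow_nonneg (show (0 : ℝ) ≤ 1 - τ by linarith) i)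
    (summable_geometric_of_lt_one (show (0 : ℝ) ≤ 1 - τ by linarith) (by linarith))
  rw [tsum_geometric_of_lt_one (by linarith) (by linarith)] at h7
  rw [one_div]
  calc _ ≤ _ := h7
    _ = _ := by congr 1; ring

/-- Expected number of heads of a cluster. -/
theorem exp_heads (h : M + 1 = m) {τ : ℝ} (h0 : 0 < τ) (h1 : τ < 1) (R : ℕ) (hR : 0 < R) :
    ∑ I : Finset (Fin m), wt τ I * ((hd R κ I).card : ℝ)
      ≤ R / τ + 2 * (mis κ).card := by
  have h2 : ∀ I : Finset (Fin m), ((hd R κ I).card : ℝ) ≤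
      ∑ r ∈ range R, (((hd R κ I).filter
        (fun a : Fin M => (a : ℕ) % R = r ∧ cnt κ (κ a) = 1)).card : ℝ) + 2 * (mis κ).card := by
    intro I
    have h3 : (hd R κ I).card ≤ ∑ r ∈ range R, ((hd R κ I).filter
        (fun a : Fin M => (a : ℕ) % R = r ∧ cnt κ (κ a) = 1)).card + 2 * (mis κ).card := by
      have h4 : hd R κ I ⊆ ((range R).biUnion (fun r => (hd R κ I).filter
          (fun a : Fin M => (a : ℕ) % R = r ∧ cnt κ (κ a) = 1))) ∪
          (univ.filter (fun a : Fin M => cnt κ (κ a) ≠ 1)) := by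
        intro a ha
        rw [mem_union]
        by_cases h5 : cnt κ (κ a) = 1
        · left
          rw [mem_biUnion]
          exact ⟨(a : ℕ) % R, mem_range.2 (Nat.mod_lt _ hR), mem_filter.2 ⟨ha, rfl, h5⟩⟩
        · right
          exact mem_filter.2 ⟨mem_univ _, h5⟩
      have h5 := card_le_card h4
      have h6 := card_union_le ((range R).biUnion (fun r => (hd R κ I).filter
          (fun a : Fin M => (a : ℕ) % R = r ∧ cnt κ (κ a) = 1)))
          (univ.filter (fun a : Fin M => cnt κ (κ a) ≠ 1))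
      have h7 : ((range R).biUnion (fun r => (hd R κ I).filter
          (fun a : Fin M => (a : ℕ) % R = r ∧ cnt κ (κ a) = 1))).card ≤
          ∑ r ∈ range R, ((hd R κ I).filter
            (fun a : Fin M => (a : ℕ) % R = r ∧ cnt κ (κ a) = 1)).card := card_biUnion_le
      have h8 := multi_le κ h
      omega
    exact_mod_cast h3
  calc ∑ I : Finset (Fin m), wt τ I * ((hd R κ I).card : ℝ)
      ≤ ∑ I : Finset (Fin m), wt τ I * (∑ r ∈ range R, (((hd R κ I).filter
        (fun a : Fin M => (a : ℕ) % R = r ∧ cnt κ (κ a) = 1)).card : ℝ) + 2 * (mis κ).card) :=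
        sum_le_sum (fun I _ => mul_le_mul_of_nonneg_left (h2 I) (wt_nonneg h0.le h1.le I))
    _ = (∑ r ∈ range R, ∑ I : Finset (Fin m), wt τ I * (((hd R κ I).filter
        (fun a : Fin M => (a : ℕ) % R = r ∧ cnt κ (κ a) = 1)).card : ℝ)) +
          2 * (mis κ).card := by
        rw [sum_comm]
        simp only [mul_add, mul_sum, sum_add_distrib]
        rw [← sum_mul, wt_sum, one_mul]
    _ ≤ (∑ r ∈ range R, 1 / τ) + 2 * (mis κ).card :=
        add_le_add_left (sum_le_sum (fun r _ => exp_heads_block κ h0 h1 R r)) _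
    _ = _ := by
        rw [sum_const, card_range, nsmul_eq_mul]
        ring

/-- The number of blocks containing a head of colour `β` is at most `|mis|`. -/
theorem head_blocks (h : M + 1 = m) (R : ℕ) (I : Finset (Fin m)) (β : Fin m) :
    (univ.filter (fun r : Fin R => ∃ a ∈ hd R κ I, κ a = β ∧ (a : ℕ) % R = (r : ℕ))).card
      ≤ (mis κ).card := by
  refine le_trans ?_ (cnt_le κ h β)
  unfold cnt
  have h2 : (univ.filter (fun r : Fin R => ∃ a ∈ hd R κ I, κ a = β ∧ (a : ℕ) % R = (r : ℕ))).card =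
      ((univ.filter (fun r : Fin R => ∃ a ∈ hd R κ I, κ a = β ∧ (a : ℕ) % R = (r : ℕ))).image
        (fun r : Fin R => (r : ℕ))).card := by
    rw [card_image_of_injective _ Fin.val_injective]
  rw [h2]
  refine le_trans (card_le_card (t := (univ.filter (fun a : Fin M => κ a = β)).image
    (fun a : Fin M => (a : ℕ) % R)) ?_) card_image_le
  intro x hx
  obtain ⟨r, hr, hrx⟩ := mem_image.1 hx
  obtain ⟨_, a, _, ha1, ha2⟩ := mem_filter.1 hr
  exact mem_image.2 ⟨a, mem_filter.2 ⟨mem_univ _, ha1⟩, ha2.trans hrx⟩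

/-- Many blocks contain a once used point of a colour in `I`: at least
`|I| - E1 ≥ m/(4q) - m/(8q)` points (`once_ge`), at most `M/R + 1 ≤ 2 m / R` per block. -/
theorem gb_ge {n q l : ℕ} (hp : Par m n q l) (h : M + 1 = m) (I : Finset (Fin m))
    (hI : ∀ A ∈ I, ∃ a, κ a = A) (hI2 : m ≤ 4 * q * I.card)
    (ho : (mis κ).card ≤ pE q l) :
    pR q l ≤ 16 * q * (gb (pR q l) κ I).card := by
  obtain ⟨hq, hnm, hqn, hl, hl1, hP⟩ := hp
  set R := pR q l with hR
  have hq1 : 1 ≤ q := by omega
  have e1 : R ≤ m := by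
    refine le_trans ?_ hP
    rw [hR]
    unfold pR
    calc 8 * 10 ^ 9 * q ^ 8 * l ≤ 10 ^ 15 * q ^ 14 * l ^ 2 :=
          Nat.mul_le_mul (Nat.mul_le_mul (by norm_num) (Nat.pow_le_pow_right hq1 (by norm_num)))
            (by nlinarith)
      _ = _ := rfl
  have e2 : 8 * q * pE q l ≤ m := by
    refine le_trans ?_ hP
    unfold pE
    calc 8 * q * (10 * q ^ 2 * l) = 80 * q ^ 3 * l := by ring
      _ ≤ 10 ^ 15 * q ^ 14 * l ^ 2 :=
          Nat.mul_le_mul (Nat.mul_le_mul (by norm_num) (Nat.pow_le_pow_right hq1 (by norm_num)))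
            (by nlinarith)
  have hR0 : 0 < R := by
    rw [hR]
    unfold pR
    positivity
  set P : Finset (Fin M) := univ.filter (fun a : Fin M => κ a ∈ I ∧ cnt κ (κ a) = 1) with hPd
  have h1 := once_ge κ h I hI
  rw [← hPd] at h1
  have h2 : m ≤ 8 * q * P.card := by
    have h3 : 4 * q * I.card ≤ 4 * q * (P.card + pE q l) :=
      Nat.mul_le_mul_left _ (by omega)
    have h4 : 4 * q * (P.card + pE q l) * 2 = 8 * q * P.card + 8 * q * pE q l := by ring
    omega
  have h3 : P.card ≤ (gb R κ I).card * (M / R + 1) := by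
    have h4 : P ⊆ (gb R κ I).biUnion (fun r => univ.filter (fun a : Fin M => (a : ℕ) % R = r)) := by
      intro a ha
      rw [mem_biUnion]
      have h5 := (mem_filter.1 ha).2
      refine ⟨⟨(a : ℕ) % R, Nat.mod_lt _ hR0⟩, ?_, mem_filter.2 ⟨mem_univ _, rfl⟩⟩
      exact mem_filter.2 ⟨mem_univ _, a, rfl, h5⟩
    refine (card_le_card h4).trans (card_biUnion_le_card_mul _ _ _ ?_)
    intro r _
    refine le_trans (card_le_card_of_injOn (t := range (M / R + 1)) (fun a : Fin M => (a : ℕ) / R) ?_ ?_)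
      (card_range _).le
    · intro a _
      rw [mem_coe, mem_range]
      exact Nat.lt_succ_of_le (Nat.div_le_div_right a.2.le)
    · intro a ha b hb hab
      rw [mem_coe, mem_filter] at ha hb
      have h5 := Nat.div_add_mod (a : ℕ) R
      have h6 := Nat.div_add_mod (b : ℕ) R
      have h7 : (a : ℕ) / R = (b : ℕ) / R := hab
      apply Fin.ext
      rw [← h5, ← h6, h7, ha.2, hb.2]
  have h4 : R * (M / R + 1) ≤ 2 * m := by
    have h5 := Nat.mul_div_le M R
    rw [mul_add, mul_one]
    omega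
  have h5 : R * m ≤ 16 * q * (gb R κ I).card * m := by
    calc R * m ≤ R * (8 * q * P.card) := Nat.mul_le_mul_left _ h2
      _ ≤ R * (8 * q * ((gb R κ I).card * (M / R + 1))) :=
          Nat.mul_le_mul_left _ (Nat.mul_le_mul_left _ h3)
      _ = 8 * q * (gb R κ I).card * (R * (M / R + 1)) := by ring
      _ ≤ 8 * q * (gb R κ I).card * (2 * m) := Nat.mul_le_mul_left _ h4
      _ = 16 * q * (gb R κ I).card * m := by ring
  exact Nat.le_of_mul_le_mul_right h5 (by omega)

end Pool.Agent.Rey
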