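import Mathlib
import Pool.Agent.Rey.Defs

set_option autoImplicit false

namespace Pool.Agent.Rey

open Finset
open scoped Classical

/-- Multiplicities of a partial monotone map. -/
private noncomputable def fa_mu {w D : ℕ} (f : Fin w → Option (Fin D)) (k : Fin D) : Fin (w + 1) :=
  ⟨(univ.filter (fun i => f i = some k)).card, by
    have := Finset.card_le_univ (univ.filter (fun i => f i = some k))
    rw [Fintype.card_fin] at this
    omega⟩

private theorem fa_sum {w D : ℕ} (f : Fin w → Option (Fin D)) (p : Fin D → Prop)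
    [DecidablePred p] :
    ∑ k ∈ univ.filter p, ((fa_mu f k : Fin (w + 1)) : ℕ)
      = (univ.filter (fun i => ∃ k, p k ∧ f i = some k)).card := by
  have h : (univ.filter (fun i => ∃ k, p k ∧ f i = some k))
      = (univ.filter p).biUnion (fun k => univ.filter (fun i => f i = some k)) := by
    ext i
    simp only [mem_filter, mem_univ, true_and, mem_biUnion]
  rw [h, Finset.card_biUnion]
  · rfl
  · intro k _ k' _ hne
    rw [Function.onFun, Finset.disjoint_left]
    intro i hi hi'
    simp only [mem_filter, mem_univ, true_and] at hi hi'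
    rw [hi] at hi'
    exact hne (Option.some.inj hi')

private theorem fa_dm {w D : ℕ} (f : Fin w → Option (Fin D)) :
    ∑ k, ((fa_mu f k : Fin (w + 1)) : ℕ) = (dm f).card := by
  have h := fa_sum f (fun _ => True)
  rw [Finset.filter_true] at h
  rw [h]
  congr 1
  ext i
  simp only [dm, mem_filter, mem_univ, true_and, Option.isSome_iff_exists]

private theorem fa_lt {w D : ℕ} (f f' : Fin w → Option (Fin D)) (hf : PM f) (hf' : PM f')
    (hd : dm f = dm f') (hm : fa_mu f = fa_mu f') (i : Fin w) (k k' : Fin D)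
    (hk : f i = some k) (hk' : f' i = some k') : ¬ k < k' := by
  intro hlt
  -- rank + 1 ≤ sum over k'' ≤ k of mu f
  have h1 : ((dm f).filter (fun i' => i' ≤ i)).card
      ≤ ∑ k'' ∈ univ.filter (fun k'' => k'' ≤ k), ((fa_mu f k'' : Fin (w + 1)) : ℕ) := by
    rw [fa_sum f (fun k'' => k'' ≤ k)]
    apply Finset.card_le_card
    intro i' hi'
    simp only [dm, mem_filter, mem_univ, true_and, Option.isSome_iff_exists] at hi' ⊢
    obtain ⟨⟨a, ha⟩, hle⟩ := hi'
    exact ⟨a, hf i' i a k hle ha hk, ha⟩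
  have h2 : ∑ k'' ∈ univ.filter (fun k'' => k'' < k'), ((fa_mu f' k'' : Fin (w + 1)) : ℕ)
      ≤ ((dm f').filter (fun i' => i' < i)).card := by
    rw [fa_sum f' (fun k'' => k'' < k')]
    apply Finset.card_le_card
    intro i' hi'
    simp only [dm, mem_filter, mem_univ, true_and, Option.isSome_iff_exists] at hi' ⊢
    obtain ⟨a, ha, hfa⟩ := hi'
    refine ⟨⟨a, hfa⟩, ?_⟩
    by_contra hn
    rw [not_lt] at hn
    have := hf' i i' k' a hn hk' hfa
    exact absurd ha (not_lt.mpr this)
  have h3 : ∑ k'' ∈ univ.filter (fun k'' => k'' ≤ k), ((fa_mu f k'' : Fin (w + 1)) : ℕ)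
      ≤ ∑ k'' ∈ univ.filter (fun k'' => k'' < k'), ((fa_mu f' k'' : Fin (w + 1)) : ℕ) := by
    rw [hm]
    apply Finset.sum_le_sum_of_subset
    intro x hx
    simp only [mem_filter, mem_univ, true_and] at hx ⊢
    exact lt_of_le_of_lt hx hlt
  have h4 : ((dm f').filter (fun i' => i' < i)).card < ((dm f).filter (fun i' => i' ≤ i)).card := by
    rw [← hd]
    apply Finset.card_lt_card
    rw [Finset.ssubset_iff_of_subset]
    · refine ⟨i, ?_, ?_⟩
      · simp only [dm, mem_filter, mem_univ, true_and, le_refl, and_true, hk, Option.isSome_some]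
      · simp only [mem_filter, lt_irrefl, and_false, not_false_iff]
    · intro x hx
      simp only [mem_filter] at hx ⊢
      exact ⟨hx.1, hx.2.le⟩
  omega

private theorem fa_inj {w D : ℕ} (f f' : Fin w → Option (Fin D)) (hf : PM f) (hf' : PM f')
    (hd : dm f = dm f') (hm : fa_mu f = fa_mu f') : f = f' := by
  funext i
  by_cases h : i ∈ dm f
  · have h' : i ∈ dm f' := hd ▸ h
    simp only [dm, mem_filter, mem_univ, true_and, Option.isSome_iff_exists] at h h'
    obtain ⟨k, hk⟩ := h
    obtain ⟨k', hk'⟩ := h'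
    have h1 := fa_lt f f' hf hf' hd hm i k k' hk hk'
    have h2 := fa_lt f' f hf' hf hd.symm hm.symm i k' k hk' hk
    have : k = k' := le_antisymm (not_lt.mp h2) (not_lt.mp h1)
    rw [hk, hk', this]
  · have h' : i ∉ dm f' := hd ▸ h
    simp only [dm, mem_filter, mem_univ, true_and, Bool.not_eq_true, Option.isSome_eq_false_iff,
      Option.isNone_iff_eq_none] at h h'
    rw [h, h']

/-- COUNTING LEMMA. A partial monotone map is determined by its domain and by its multiplicities
`mu k = card {i | f i = some k}`, and `card (dm f) = sum mu`. So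
`sum a^(2 card) ≤ (sum over s of a^card s) (sum over t ≤ w of a^t)^D`. -/
theorem cnt_pm (w D : ℕ) (a : ℝ) (h0 : 0 < a) (h1 : a < 1) :
    ∑ f ∈ univ.filter (fun f : Fin w → Option (Fin D) => PM f), a ^ (2 * (dm f).card)
      ≤ (1 + a) ^ w * ((1 - a)⁻¹) ^ D := by
  let e : (Fin w → Option (Fin D)) → Finset (Fin w) × (Fin D → Fin (w + 1)) :=
    fun f => (dm f, fa_mu f)
  let G : Finset (Fin w) × (Fin D → Fin (w + 1)) → ℝ :=
    fun x => a ^ x.1.card * ∏ k, a ^ ((x.2 k : Fin (w + 1)) : ℕ)
  have hG : ∀ x, 0 ≤ G x := fun x =>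
    mul_nonneg (pow_nonneg h0.le _) (Finset.prod_nonneg (fun k _ => pow_nonneg h0.le _))
  have hinj : Set.InjOn e ((univ.filter (fun f : Fin w → Option (Fin D) => PM f)) : Set _) := by
    intro f hf f' hf' hee
    have hf1 : PM f := by simpa using hf
    have hf2 : PM f' := by simpa using hf'
    have h1 : dm f = dm f' := congrArg Prod.fst hee
    have h2 : fa_mu f = fa_mu f' := congrArg Prod.snd hee
    exact fa_inj f f' hf1 hf2 h1 h2
  calc ∑ f ∈ univ.filter (fun f : Fin w → Option (Fin D) => PM f), a ^ (2 * (dm f).card)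
      = ∑ f ∈ univ.filter (fun f : Fin w → Option (Fin D) => PM f), G (e f) := by
        apply Finset.sum_congr rfl
        intro f _
        show a ^ (2 * (dm f).card) = a ^ (dm f).card * ∏ k, a ^ ((fa_mu f k : Fin (w + 1)) : ℕ)
        rw [Finset.prod_pow_eq_pow_sum, fa_dm, two_mul, pow_add]
    _ = ∑ x ∈ (univ.filter (fun f : Fin w → Option (Fin D) => PM f)).image e, G x := by
        rw [Finset.sum_image hinj]
    _ ≤ ∑ x, G x := Finset.sum_le_univ_sum_of_nonneg hG
    _ = (∑ s : Finset (Fin w), a ^ s.card) *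
          ∑ μ : Fin D → Fin (w + 1), ∏ k, a ^ ((μ k : Fin (w + 1)) : ℕ) := by
        rw [Fintype.sum_prod_type, Finset.sum_mul_sum]
    _ = (1 + a) ^ w * (∑ t : Fin (w + 1), a ^ (t : ℕ)) ^ D := by
        congr 1
        · have := Fintype.sum_pow_mul_eq_add_pow (Fin w) a (1 : ℝ)
          simp only [one_pow, mul_one, Fintype.card_fin] at this
          rw [this, add_comm]
        · have := Finset.prod_univ_sum (fun _ : Fin D => (univ : Finset (Fin (w + 1))))
            (fun (_ : Fin D) (t : Fin (w + 1)) => a ^ (t : ℕ))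
          rw [Fintype.piFinset_univ] at this
          rw [← this, Finset.prod_const, Finset.card_univ, Fintype.card_fin]
    _ ≤ (1 + a) ^ w * ((1 - a)⁻¹) ^ D := by
        apply mul_le_mul_of_nonneg_left _ (pow_nonneg (by linarith) _)
        apply pow_le_pow_left₀ (Finset.sum_nonneg (fun t _ => pow_nonneg h0.le _))
        rw [Fin.sum_univ_eq_sum_range (fun t => a ^ t) (w + 1), geom_sum_eq h1.ne]
        have h2 : 0 < 1 - a := by linarith
        have h3 : (a ^ (w + 1) - 1) / (a - 1) = (1 - a ^ (w + 1)) / (1 - a) := by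
          rw [← neg_div_neg_eq]; ring
        rw [h3, div_eq_mul_inv]
        have h4 : 0 ≤ a ^ (w + 1) := pow_nonneg h0.le _
        have h5 : 0 ≤ (1 - a)⁻¹ := inv_nonneg.mpr h2.le
        nlinarith

/-- Independence on distinct cells. -/
theorem card_cells {K α : Type} [Fintype K] [DecidableEq K] [Fintype α] [DecidableEq α]
    (Z : Finset K) (A : K → Finset α) (η : ℝ) (hη : 0 ≤ η)
    (hA : ∀ z ∈ Z, ((A z).card : ℝ) ≤ η * Fintype.card α) :
    ((univ.filter (fun X : K → α => ∀ z ∈ Z, X z ∈ A z)).card : ℝ)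
      ≤ η ^ Z.card * (Fintype.card α : ℝ) ^ (Fintype.card K) := by
  have h1 : (univ.filter (fun X : K → α => ∀ z ∈ Z, X z ∈ A z))
      = Fintype.piFinset (fun z => if z ∈ Z then A z else univ) := by
    ext X
    simp only [mem_filter, mem_univ, true_and, Fintype.mem_piFinset]
    constructor
    · intro h z
      by_cases hz : z ∈ Z
      · rw [if_pos hz]; exact h z hz
      · rw [if_neg hz]; exact mem_univ _
    · intro h z hz
      have := h z
      rw [if_pos hz] at this
      exact this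
  rw [h1, Fintype.card_piFinset, Nat.cast_prod]
  calc ∏ z, (((if z ∈ Z then A z else univ : Finset α).card : ℕ) : ℝ)
      ≤ ∏ z : K, ((if z ∈ Z then η else 1) * (Fintype.card α : ℝ)) := by
        apply Finset.prod_le_prod
        · intro z _
          exact Nat.cast_nonneg _
        · intro z _
          by_cases hz : z ∈ Z
          · rw [if_pos hz, if_pos hz]; exact hA z hz
          · rw [if_neg hz, if_neg hz, one_mul, Finset.card_univ]
    _ = η ^ Z.card * (Fintype.card α : ℝ) ^ (Fintype.card K) := by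
        rw [Finset.prod_mul_distrib, Finset.prod_const, Finset.card_univ, Finset.prod_ite_mem,
          Finset.univ_inter, Finset.prod_const]

/-- Union bound. -/
theorem union_bound {Ω T : Type} [Fintype Ω] [Nonempty Ω] [Fintype T] (bad : T → Ω → Prop)
    (p : T → ℝ) (hp : ∀ t, ((univ.filter (fun ω => bad t ω)).card : ℝ) ≤ p t * Fintype.card Ω)
    (hs : ∑ t, p t < 1) : ∃ ω, ∀ t, ¬ bad t ω := by
  by_contra hcon
  push Not at hcon
  have h1 : (univ : Finset Ω) ⊆ (univ : Finset T).biUnion (fun t => univ.filter (fun ω => bad t ω)) := by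
    intro ω _
    obtain ⟨t, ht⟩ := hcon ω
    simp only [mem_biUnion, mem_univ, true_and, mem_filter]
    exact ⟨t, ht⟩
  have h2 : (Fintype.card Ω : ℝ) ≤ ∑ t, ((univ.filter (fun ω => bad t ω)).card : ℝ) := by
    have h3 := (Finset.card_le_card h1).trans Finset.card_biUnion_le
    rw [Finset.card_univ] at h3
    exact_mod_cast h3
  have h3 : ∑ t, ((univ.filter (fun ω => bad t ω)).card : ℝ) ≤ (∑ t, p t) * Fintype.card Ω := by
    rw [Finset.sum_mul]
    exact Finset.sum_le_sum (fun t _ => hp t)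
  have h4 : (0 : ℝ) < Fintype.card Ω := by exact_mod_cast Fintype.card_pos
  have h5 : (∑ t, p t) * Fintype.card Ω < 1 * Fintype.card Ω := mul_lt_mul_of_pos_right hs h4
  linarith

/-- Number of small subsets: `x^(-s) (1+x)^N` with `x = 1/y`, `N ≤ y B`. -/
theorem card_small {α : Type} [Fintype α] [DecidableEq α] (s y B : ℕ) (hy : 1 ≤ y)
    (hN : Fintype.card α ≤ y * B) :
    ((univ.filter (fun H : Finset α => H.card ≤ s)).card : ℝ) ≤ (y : ℝ) ^ s * Real.exp B := by
  have hy0 : (1 : ℝ) ≤ y := by exact_mod_cast hy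
  have hyp : (0 : ℝ) < y := by linarith
  have hx0 : (0 : ℝ) < (y : ℝ)⁻¹ := inv_pos.mpr hyp
  have hx1 : (y : ℝ)⁻¹ ≤ 1 := inv_le_one_of_one_le₀ hy0
  have h1 : ∑ H : Finset α, ((y : ℝ)⁻¹) ^ H.card = ((y : ℝ)⁻¹ + 1) ^ Fintype.card α := by
    have := Fintype.sum_pow_mul_eq_add_pow α ((y : ℝ)⁻¹) (1 : ℝ)
    simpa only [one_pow, mul_one] using this
  have h2 : ((y : ℝ)⁻¹ + 1) ^ Fintype.card α ≤ Real.exp B := by
    calc ((y : ℝ)⁻¹ + 1) ^ Fintype.card α ≤ (Real.exp ((y : ℝ)⁻¹)) ^ Fintype.card α :=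
          pow_le_pow_left₀ (by linarith) (Real.add_one_le_exp _) _
      _ = Real.exp (Fintype.card α * (y : ℝ)⁻¹) := (Real.exp_nat_mul _ _).symm
      _ ≤ Real.exp B := by
          apply Real.exp_le_exp.mpr
          have h3 : (Fintype.card α : ℝ) ≤ y * B := by exact_mod_cast hN
          rw [← div_eq_mul_inv, div_le_iff₀ hyp]
          linarith
  have h3 : ((univ.filter (fun H : Finset α => H.card ≤ s)).card : ℝ) * ((y : ℝ)⁻¹) ^ s
      ≤ ∑ H : Finset α, ((y : ℝ)⁻¹) ^ H.card := by
    calc ((univ.filter (fun H : Finset α => H.card ≤ s)).card : ℝ) * ((y : ℝ)⁻¹) ^ s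
        = ∑ H ∈ univ.filter (fun H : Finset α => H.card ≤ s), ((y : ℝ)⁻¹) ^ s := by
          rw [Finset.sum_const, nsmul_eq_mul]
      _ ≤ ∑ H ∈ univ.filter (fun H : Finset α => H.card ≤ s), ((y : ℝ)⁻¹) ^ H.card := by
          apply Finset.sum_le_sum
          intro H hH
          rw [mem_filter] at hH
          exact pow_le_pow_of_le_one hx0.le hx1 hH.2
      _ ≤ ∑ H : Finset α, ((y : ℝ)⁻¹) ^ H.card :=
          Finset.sum_le_univ_sum_of_nonneg (fun H => pow_nonneg hx0.le _)
  have h4 : ((univ.filter (fun H : Finset α => H.card ≤ s)).card : ℝ) * ((y : ℝ)⁻¹) ^ s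
      ≤ Real.exp B := by rw [h1] at h3; exact h3.trans h2
  have h5 : (0 : ℝ) < (y : ℝ) ^ s := pow_pos hyp s
  rw [inv_pow, ← div_eq_mul_inv, div_le_iff₀ h5] at h4
  linarith

end Pool.Agent.Rey
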