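import Mathlib
import Pool.Agent.Rey.Bern
import Pool.Agent.Rey.Defs

set_option autoImplicit false

namespace Pool.Agent.Rey

open Finset
open scoped Classical

/-- Double counting. -/
theorem ave_dc {D m : ℕ} (τ : ℝ) (Q : Finset (Fin m) → Fin D → Prop) :
    ∑ I : Finset (Fin m), wt τ I * ((univ.filter (fun j => Q I j)).card : ℝ)
      = ∑ j : Fin D, ∑ I ∈ univ.filter (fun I => Q I j), wt τ I := by
  have h1 : ∀ I : Finset (Fin m), wt τ I * ((univ.filter (fun j => Q I j)).card : ℝ)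
      = ∑ j : Fin D, if Q I j then wt τ I else 0 := by
    intro I
    rw [← Finset.sum_filter, Finset.sum_const, nsmul_eq_mul, mul_comm]
  rw [Finset.sum_congr rfl (fun I _ => h1 I), Finset.sum_comm]
  apply Finset.sum_congr rfl
  intro j _
  rw [Finset.sum_filter]

/-- Number of active rows. -/
theorem ave_act (D : ℕ) : (univ.filter (fun j : Fin D => 8 ∣ (j : ℕ))).card ≤ (D + 7) / 8 := by
  have h : (univ.filter (fun j : Fin D => 8 ∣ (j : ℕ))).card ≤ (Finset.range ((D + 7) / 8)).card := by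
    apply Finset.card_le_card_of_injOn (fun j : Fin D => (j : ℕ) / 8)
    · intro j hj
      have h1 := j.2
      have h2 : 8 ∣ (j : ℕ) := (Finset.mem_filter.1 hj).2
      apply Finset.mem_coe.2
      apply Finset.mem_range.2
      show (j : ℕ) / 8 < (D + 7) / 8
      omega
    · intro j hj j' hj' he
      have h2 : 8 ∣ (j : ℕ) := (Finset.mem_filter.1 hj).2
      have h2' : 8 ∣ (j' : ℕ) := (Finset.mem_filter.1 hj').2
      have h3 : (j : ℕ) / 8 = (j' : ℕ) / 8 := he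
      apply Fin.ext
      omega
  rwa [Finset.card_range] at h

/-- Average of a function bounded by `B` everywhere and by `C` on the suitable sets. -/
theorem ave_split {m : ℕ} {τ : ℝ} (h0 : 0 ≤ τ) (h1 : τ ≤ 1) (S : Finset (Fin m) → Prop)
    (N : Finset (Fin m) → ℝ) (B C ε : ℝ) (hB : 0 ≤ B) (hC : 0 ≤ C)
    (hS : ∑ I ∈ univ.filter (fun I => ¬ S I), wt τ I ≤ ε) (hN : ∀ I, N I ≤ B)
    (hN' : ∀ I, S I → N I ≤ C) :
    ∑ I : Finset (Fin m), wt τ I * N I ≤ B * ε + C := by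
  have hsp : ∑ I : Finset (Fin m), wt τ I * N I
      = ∑ I ∈ univ.filter (fun I => ¬ S I), wt τ I * N I
        + ∑ I ∈ univ.filter (fun I => S I), wt τ I * N I := by
    rw [add_comm]
    exact (Finset.sum_filter_add_sum_filter_not univ (fun I => S I) _).symm
  rw [hsp]
  have hA : ∑ I ∈ univ.filter (fun I => ¬ S I), wt τ I * N I ≤ B * ε := by
    calc ∑ I ∈ univ.filter (fun I => ¬ S I), wt τ I * N I
        ≤ ∑ I ∈ univ.filter (fun I => ¬ S I), wt τ I * B := by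
          apply Finset.sum_le_sum
          intro I _
          exact mul_le_mul_of_nonneg_left (hN I) (wt_nonneg h0 h1 I)
      _ = B * ∑ I ∈ univ.filter (fun I => ¬ S I), wt τ I := by
          rw [← Finset.sum_mul, mul_comm]
      _ ≤ B * ε := mul_le_mul_of_nonneg_left hS hB
  have hA' : ∑ I ∈ univ.filter (fun I => S I), wt τ I * N I ≤ C := by
    calc ∑ I ∈ univ.filter (fun I => S I), wt τ I * N I
        ≤ ∑ I ∈ univ.filter (fun I => S I), wt τ I * C := by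
          apply Finset.sum_le_sum
          intro I hI
          exact mul_le_mul_of_nonneg_left (hN' I (Finset.mem_filter.1 hI).2) (wt_nonneg h0 h1 I)
      _ ≤ ∑ I : Finset (Fin m), wt τ I * C := by
          apply Finset.sum_le_sum_of_subset_of_nonneg (Finset.filter_subset _ _)
          intro I _ _
          exact mul_nonneg (wt_nonneg h0 h1 I) hC
      _ = C := by
          rw [← Finset.sum_mul, wt_sum, one_mul]
  linarith

/-- Section 7. The average of `card {j | b j ∈ I, j non-active}` is `(1/q) card nonactive`, at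
least `D / (2 q)`; it is at most `D/(96 q^2) + D/(96 q^2)`. -/
theorem case0 {D m n q l : ℕ} (hp : Par m n q l) (hD : 2 ≤ D) (b : Fin D → Fin m)
    (S : Finset (Fin m) → Prop)
    (hS : ∑ I ∈ univ.filter (fun I => ¬ S I), wt (1 / (q : ℝ)) I ≤ 1 / (96 * (q : ℝ) ^ 2))
    (h : ∀ I, S I → 96 * q ^ 2 *
      (univ.filter (fun j : Fin D => b j ∈ I ∧ ¬ 8 ∣ (j : ℕ))).card < D) : False := by
  have hq8 := hp.hq
  have hqR : (8 : ℝ) ≤ q := by exact_mod_cast hq8
  have hq0 : (0 : ℝ) < q := by linarith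
  have hτ0 : (0 : ℝ) ≤ 1 / (q : ℝ) := by positivity
  have hτ1 : 1 / (q : ℝ) ≤ 1 := by
    rw [div_le_one hq0]; linarith
  have hDR : (2 : ℝ) ≤ D := by exact_mod_cast hD
  have hdc := ave_dc (1 / (q : ℝ)) (fun (I : Finset (Fin m)) (j : Fin D) => b j ∈ I ∧ ¬ 8 ∣ (j : ℕ))
  have hR : ∑ j : Fin D, ∑ I ∈ univ.filter (fun I : Finset (Fin m) => b j ∈ I ∧ ¬ 8 ∣ (j : ℕ)),
      wt (1 / (q : ℝ)) I = (1 / (q : ℝ)) * ((univ.filter (fun j : Fin D => ¬ 8 ∣ (j : ℕ))).card : ℝ) := by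
    have h1 : ∀ j : Fin D, ∑ I ∈ univ.filter (fun I : Finset (Fin m) => b j ∈ I ∧ ¬ 8 ∣ (j : ℕ)),
        wt (1 / (q : ℝ)) I = if ¬ 8 ∣ (j : ℕ) then 1 / (q : ℝ) else 0 := by
      intro j
      by_cases hj : 8 ∣ (j : ℕ)
      · rw [if_neg (not_not.2 hj)]
        rw [Finset.filter_false_of_mem (fun I _ h => h.2 hj), Finset.sum_empty]
      · rw [if_pos hj]
        refine Eq.trans ?_ (wt_mem (1 / (q : ℝ)) (b j))
        apply Finset.sum_congr _ (fun _ _ => rfl)
        ext I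
        simp [hj]
    rw [Finset.sum_congr rfl (fun j _ => h1 j), ← Finset.sum_filter, Finset.sum_const, nsmul_eq_mul,
      mul_comm]
  have hact := ave_act D
  have hcard : (univ.filter (fun j : Fin D => 8 ∣ (j : ℕ))).card
      + (univ.filter (fun j : Fin D => ¬ 8 ∣ (j : ℕ))).card = D := by
    rw [Finset.card_filter_add_card_filter_not, Finset.card_univ, Fintype.card_fin]
  have hna : D ≤ 2 * (univ.filter (fun j : Fin D => ¬ 8 ∣ (j : ℕ))).card := by omega
  have hnaR : (D : ℝ) ≤ 2 * ((univ.filter (fun j : Fin D => ¬ 8 ∣ (j : ℕ))).card : ℝ) := by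
    exact_mod_cast hna
  have hL := ave_split hτ0 hτ1 S
    (fun I => ((univ.filter (fun j : Fin D => b j ∈ I ∧ ¬ 8 ∣ (j : ℕ))).card : ℝ))
    (D : ℝ) ((D : ℝ) / (96 * (q : ℝ) ^ 2)) (1 / (96 * (q : ℝ) ^ 2)) (by positivity) (by positivity)
    hS (by
      intro I
      have h1 := Finset.card_le_univ (univ.filter (fun j : Fin D => b j ∈ I ∧ ¬ 8 ∣ (j : ℕ)))
      rw [Fintype.card_fin] at h1
      exact_mod_cast h1)
    (by
      intro I hI
      have h1 := h I hI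
      rw [le_div_iff₀ (by positivity)]
      have h2 : ((96 * q ^ 2 * (univ.filter (fun j : Fin D => b j ∈ I ∧ ¬ 8 ∣ (j : ℕ))).card : ℕ) : ℝ)
          ≤ (D : ℝ) := by exact_mod_cast h1.le
      push_cast at h2
      linarith)
  have hL2 : (1 / (q : ℝ)) * ((univ.filter (fun j : Fin D => ¬ 8 ∣ (j : ℕ))).card : ℝ)
      ≤ (D : ℝ) * (1 / (96 * (q : ℝ) ^ 2)) + (D : ℝ) / (96 * (q : ℝ) ^ 2) := by
    rw [← hR]
    refine le_trans (le_of_eq ?_) (hdc.ge.trans ?_)
    · apply Finset.sum_congr rfl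
      intro j _
      apply Finset.sum_congr _ (fun _ _ => rfl)
      ext I
      simp
    · refine le_trans (le_of_eq ?_) hL
      apply Finset.sum_congr rfl
      intro I _
      congr!
  have h3 : 1 / (q : ℝ) * ((D : ℝ) / 2) ≤ (D : ℝ) * (1 / (96 * (q : ℝ) ^ 2))
      + (D : ℝ) / (96 * (q : ℝ) ^ 2) := by
    refine le_trans ?_ hL2
    apply mul_le_mul_of_nonneg_left _ hτ0
    linarith
  have h4 : (D : ℝ) * (1 / (96 * (q : ℝ) ^ 2)) + (D : ℝ) / (96 * (q : ℝ) ^ 2)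
      = (1 / (q : ℝ) * ((D : ℝ) / 2)) * (1 / (24 * q)) := by
    field_simp
    ring
  rw [h4] at h3
  have h5 : 0 < 1 / (q : ℝ) * ((D : ℝ) / 2) := by positivity
  have h6 : 1 / (24 * (q : ℝ)) < 1 := by
    rw [div_lt_one (by positivity)]; linarith
  have h7 : (1 / (q : ℝ) * ((D : ℝ) / 2)) * (1 / (24 * q)) < (1 / (q : ℝ) * ((D : ℝ) / 2)) * 1 :=
    mul_lt_mul_of_pos_left h6 h5
  linarith

/-- Number of rows near the ends of their stays: at most `2 L` for every value. -/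
theorem deep {D L : ℕ} {V : Type} [DecidableEq V] (J : Finset (Fin D)) (f : Fin D → V)
    (hf : ∀ j ∈ J, ∀ j' ∈ J, ∀ j'' ∈ J, j ≤ j' → j' ≤ j'' → f j = f j'' → f j' = f j)
    (Sp : Finset V) :
    (J.filter (fun j => f j ∈ Sp ∧ ∃ j' ∈ J, (j : ℕ) ≤ j' + L ∧ (j' : ℕ) ≤ j + L ∧
      f j' ≠ f j)).card ≤ 2 * L * Sp.card := by
  have hmain : ∀ v ∈ Sp, ((J.filter (fun j => f j ∈ Sp ∧ ∃ j' ∈ J, (j : ℕ) ≤ j' + L ∧
      (j' : ℕ) ≤ j + L ∧ f j' ≠ f j)).filter (fun j => f j = v)).card ≤ 2 * L := by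
    intro v _
    let T : Finset (Fin D) := J.filter (fun j => f j = v)
    rcases T.eq_empty_or_nonempty with hT | hT
    · have h1 : (J.filter (fun j => f j ∈ Sp ∧ ∃ j' ∈ J, (j : ℕ) ≤ j' + L ∧
          (j' : ℕ) ≤ j + L ∧ f j' ≠ f j)).filter (fun j => f j = v) = ∅ := by
        apply Finset.eq_empty_of_forall_notMem
        intro j hj
        have h2 := Finset.mem_filter.1 hj
        have h3 : j ∈ T := Finset.mem_filter.2 ⟨(Finset.mem_filter.1 h2.1).1, h2.2⟩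
        rw [hT] at h3
        exact absurd h3 (Finset.notMem_empty _)
      rw [h1, Finset.card_empty]
      exact Nat.zero_le _
    · let lo := T.min' hT
      let hi := T.max' hT
      have hlo : lo ∈ T := T.min'_mem hT
      have hhi : hi ∈ T := T.max'_mem hT
      have hlo1 := Finset.mem_filter.1 hlo
      have hhi1 := Finset.mem_filter.1 hhi
      have hkey : ∀ j ∈ (J.filter (fun j => f j ∈ Sp ∧ ∃ j' ∈ J, (j : ℕ) ≤ j' + L ∧
          (j' : ℕ) ≤ j + L ∧ f j' ≠ f j)).filter (fun j => f j = v),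
          (lo : ℕ) ≤ j ∧ (j : ℕ) ≤ hi ∧ ((j : ℕ) < lo + L ∨ (hi : ℕ) < j + L) := by
        intro j hj
        obtain ⟨hj1, hjv⟩ := Finset.mem_filter.1 hj
        obtain ⟨hjJ, -, j', hj'J, hd1, hd2, hne⟩ := Finset.mem_filter.1 hj1
        have hjT : j ∈ T := Finset.mem_filter.2 ⟨hjJ, hjv⟩
        have h1 : lo ≤ j := T.min'_le j hjT
        have h2 : j ≤ hi := T.le_max' j hjT
        refine ⟨h1, h2, ?_⟩
        rcases lt_or_ge (j' : ℕ) lo with h3 | h3
        · left; omega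
        · rcases lt_or_ge (hi : ℕ) j' with h4 | h4
          · right; omega
          · exfalso
            apply hne
            have h5 := hf lo hlo1.1 j' hj'J hi hhi1.1 h3 h4 (by rw [hlo1.2, hhi1.2])
            rw [h5, hlo1.2, hjv]
      have hle : ((J.filter (fun j => f j ∈ Sp ∧ ∃ j' ∈ J, (j : ℕ) ≤ j' + L ∧
          (j' : ℕ) ≤ j + L ∧ f j' ≠ f j)).filter (fun j => f j = v)).card
          ≤ (Finset.range (2 * L)).card := by
        apply Finset.card_le_card_of_injOn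
          (fun j : Fin D => if (j : ℕ) < lo + L then (j : ℕ) - lo else L + (hi - j))
        · intro j hj
          obtain ⟨h1, h2, h3⟩ := hkey j hj
          apply Finset.mem_coe.2
          apply Finset.mem_range.2
          show (if (j : ℕ) < lo + L then (j : ℕ) - lo else L + (hi - j)) < 2 * L
          split_ifs with h4
          · omega
          · omega
        · intro j hj j' hj' he
          obtain ⟨h1, h2, h3⟩ := hkey j hj
          obtain ⟨h1', h2', h3'⟩ := hkey j' hj'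
          have he' : (if (j : ℕ) < lo + L then (j : ℕ) - lo else L + (hi - j))
              = (if (j' : ℕ) < lo + L then (j' : ℕ) - lo else L + (hi - j')) := he
          apply Fin.ext
          split_ifs at he' with h4 h5 h5
          · omega
          · omega
          · omega
          · omega
      rwa [Finset.card_range] at hle
  exact Finset.card_le_mul_card_image_of_maps_to
    (fun j hj => (Finset.mem_filter.1 hj).2.1) (2 * L) hmain

/-- Number of virtual special columns which have representatives for all colours of `I0`. -/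
theorem sp_card {D M m : ℕ} (E1 : ℕ) (c : Fin D → Fin M → Fin m) (a0 : Fin M)
    (I0 : Finset (Fin m)) :
    (univ.filter (fun v : Fin D × (Fin m → Fin M) => E1 < (mis (c v.1)).card ∧
      (∀ A ∈ I0, c v.1 (v.2 A) = A) ∧ ∀ A, A ∉ I0 → v.2 A = a0)).card ≤ vs E1 c I0 := by
  have h1 : (univ.filter (fun v : Fin D × (Fin m → Fin M) => E1 < (mis (c v.1)).card ∧
      (∀ A ∈ I0, c v.1 (v.2 A) = A) ∧ ∀ A, A ∉ I0 → v.2 A = a0)).card
      ≤ ((univ.filter (fun k : Fin D => E1 < (mis (c k)).card)).sigma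
        (fun k => Fintype.piFinset (fun A : Fin m =>
          if A ∈ I0 then univ.filter (fun a : Fin M => c k a = A) else {a0}))).card := by
    apply Finset.card_le_card_of_injOn
      (fun v : Fin D × (Fin m → Fin M) => (⟨v.1, v.2⟩ : Σ _ : Fin D, Fin m → Fin M))
    · intro v hv
      obtain ⟨-, hv1, hv2, hv3⟩ := Finset.mem_filter.1 hv
      apply Finset.mem_coe.2
      apply Finset.mem_sigma.2
      refine ⟨Finset.mem_filter.2 ⟨mem_univ _, hv1⟩, ?_⟩
      apply Fintype.mem_piFinset.2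
      intro A
      by_cases hA : A ∈ I0
      · rw [if_pos hA]
        exact Finset.mem_filter.2 ⟨mem_univ _, hv2 A hA⟩
      · rw [if_neg hA]
        exact Finset.mem_singleton.2 (hv3 A hA)
    · intro v _ v' _ he
      have h2 : (⟨v.1, v.2⟩ : Σ _ : Fin D, Fin m → Fin M) = ⟨v'.1, v'.2⟩ := he
      have h3 := Sigma.mk.inj h2
      exact Prod.ext h3.1 (eq_of_heq h3.2)
  refine h1.trans (le_of_eq ?_)
  rw [Finset.card_sigma]
  unfold vs
  apply Finset.sum_congr rfl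
  intro k _
  rw [Fintype.card_piFinset]
  have h2 : ∀ A : Fin m, (if A ∈ I0 then univ.filter (fun a : Fin M => c k a = A) else {a0}).card
      = if A ∈ I0 then cnt (c k) A else 1 := by
    intro A
    split_ifs with hA
    · unfold cnt
      congr
    · exact Finset.card_singleton a0
  rw [Finset.prod_congr rfl (fun A _ => h2 A)]
  rw [Finset.prod_ite, Finset.prod_const_one, mul_one]
  apply Finset.prod_congr _ (fun _ _ => rfl)
  ext A
  simp

/-- Good rows: double counting gives total weight at most `D/(96 q^2) + D/(48 q^2)` of the bad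
pairs; Markov: at most `D/4` rows have weight above `1/(8 q^2)`. -/
theorem good_rows {D m n q l : ℕ} (hp : Par m n q l) (hD : 8 ≤ D) (b : Fin D → Fin m)
    (S : Finset (Fin m) → Prop) (G : Finset (Fin m) → Fin D → Prop)
    (hS : ∑ I ∈ univ.filter (fun I => ¬ S I), wt (1 / (q : ℝ)) I ≤ 1 / (96 * (q : ℝ) ^ 2))
    (h : ∀ I, S I → 48 * q ^ 2 *
      (univ.filter (fun j : Fin D => b j ∈ I ∧ ¬ 8 ∣ (j : ℕ) ∧ ¬ G I j)).card ≤ D) :
    D ≤ 2 * (univ.filter (fun j : Fin D => ¬ 8 ∣ (j : ℕ) ∧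
      ∑ I ∈ univ.filter (fun I => b j ∈ I ∧ ¬ (S I ∧ G I j)), wt (1 / (q : ℝ)) I
        ≤ 1 / (8 * (q : ℝ) ^ 2))).card := by
  have hq8 := hp.hq
  have hqR : (8 : ℝ) ≤ q := by exact_mod_cast hq8
  have hq0 : (0 : ℝ) < q := by linarith
  have hτ0 : (0 : ℝ) ≤ 1 / (q : ℝ) := by positivity
  have hτ1 : 1 / (q : ℝ) ≤ 1 := by
    rw [div_le_one hq0]; linarith
  have hDR : (8 : ℝ) ≤ D := by exact_mod_cast hD
  have hdc := ave_dc (1 / (q : ℝ)) (fun (I : Finset (Fin m)) (j : Fin D) =>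
    (b j ∈ I ∧ ¬ (S I ∧ G I j)) ∧ ¬ 8 ∣ (j : ℕ))
  have hL := ave_split hτ0 hτ1 S
    (fun I => ((univ.filter (fun j : Fin D =>
      (b j ∈ I ∧ ¬ (S I ∧ G I j)) ∧ ¬ 8 ∣ (j : ℕ))).card : ℝ))
    (D : ℝ) ((D : ℝ) / (48 * (q : ℝ) ^ 2)) (1 / (96 * (q : ℝ) ^ 2)) (by positivity) (by positivity)
    hS (by
      intro I
      have h1 := Finset.card_le_univ (univ.filter (fun j : Fin D =>
        (b j ∈ I ∧ ¬ (S I ∧ G I j)) ∧ ¬ 8 ∣ (j : ℕ)))
      rw [Fintype.card_fin] at h1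
      exact_mod_cast h1)
    (by
      intro I hI
      have h1 := h I hI
      have h1' : (univ.filter (fun j : Fin D => (b j ∈ I ∧ ¬ (S I ∧ G I j)) ∧ ¬ 8 ∣ (j : ℕ))).card
          ≤ (univ.filter (fun j : Fin D => b j ∈ I ∧ ¬ 8 ∣ (j : ℕ) ∧ ¬ G I j)).card := by
        apply Finset.card_le_card
        intro j hj
        obtain ⟨-, ⟨h2, h3⟩, h4⟩ := Finset.mem_filter.1 hj
        exact Finset.mem_filter.2 ⟨mem_univ _, h2, h4, fun h5 => h3 ⟨hI, h5⟩⟩
      have h1'' : 48 * q ^ 2 * (univ.filter (fun j : Fin D =>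
          (b j ∈ I ∧ ¬ (S I ∧ G I j)) ∧ ¬ 8 ∣ (j : ℕ))).card ≤ D :=
        le_trans (Nat.mul_le_mul_left _ h1') h1
      rw [le_div_iff₀ (by positivity)]
      have h2 : ((48 * q ^ 2 * (univ.filter (fun j : Fin D =>
          (b j ∈ I ∧ ¬ (S I ∧ G I j)) ∧ ¬ 8 ∣ (j : ℕ))).card : ℕ) : ℝ)
          ≤ (D : ℝ) := by exact_mod_cast h1''
      push_cast at h2
      linarith)
  have hL2 : ∑ j : Fin D, ∑ I ∈ univ.filter (fun I : Finset (Fin m) =>
      (b j ∈ I ∧ ¬ (S I ∧ G I j)) ∧ ¬ 8 ∣ (j : ℕ)), wt (1 / (q : ℝ)) I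
      ≤ (D : ℝ) * (1 / (96 * (q : ℝ) ^ 2)) + (D : ℝ) / (48 * (q : ℝ) ^ 2) := by
    refine le_trans (le_of_eq ?_) (hdc.ge.trans ?_)
    · apply Finset.sum_congr rfl
      intro j _
      apply Finset.sum_congr _ (fun _ _ => rfl)
      ext I
      simp
    · refine le_trans (le_of_eq ?_) hL
      apply Finset.sum_congr rfl
      intro I _
      congr!
  -- the bad rows
  let W : Fin D → ℝ := fun j => ∑ I ∈ univ.filter (fun I => b j ∈ I ∧ ¬ (S I ∧ G I j)),
    wt (1 / (q : ℝ)) I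
  have hW0 : ∀ j, 0 ≤ W j := fun j => Finset.sum_nonneg (fun I _ => wt_nonneg hτ0 hτ1 I)
  have hWs : ∑ j ∈ univ.filter (fun j : Fin D => ¬ 8 ∣ (j : ℕ)), W j
      ≤ (D : ℝ) / (32 * (q : ℝ) ^ 2) := by
    have h1 : ∑ j ∈ univ.filter (fun j : Fin D => ¬ 8 ∣ (j : ℕ)), W j
        = ∑ j : Fin D, ∑ I ∈ univ.filter (fun I : Finset (Fin m) =>
          (b j ∈ I ∧ ¬ (S I ∧ G I j)) ∧ ¬ 8 ∣ (j : ℕ)), wt (1 / (q : ℝ)) I := by
      rw [Finset.sum_filter]
      apply Finset.sum_congr rfl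
      intro j _
      by_cases hj : 8 ∣ (j : ℕ)
      · rw [if_neg (not_not.2 hj),
          Finset.filter_false_of_mem (fun I _ h => h.2 hj), Finset.sum_empty]
      · rw [if_pos hj]
        apply Finset.sum_congr _ (fun _ _ => rfl)
        ext I
        simp [hj]
    rw [h1]
    refine hL2.trans (le_of_eq ?_)
    field_simp
    ring
  have hbad : (((univ.filter (fun j : Fin D => ¬ 8 ∣ (j : ℕ))).filter
      (fun j => ¬ W j ≤ 1 / (8 * (q : ℝ) ^ 2))).card : ℝ) ≤ (D : ℝ) / 4 := by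
    have h1 : (((univ.filter (fun j : Fin D => ¬ 8 ∣ (j : ℕ))).filter
        (fun j => ¬ W j ≤ 1 / (8 * (q : ℝ) ^ 2))).card : ℝ) * (1 / (8 * (q : ℝ) ^ 2))
        ≤ (D : ℝ) / (32 * (q : ℝ) ^ 2) := by
      calc (((univ.filter (fun j : Fin D => ¬ 8 ∣ (j : ℕ))).filter
            (fun j => ¬ W j ≤ 1 / (8 * (q : ℝ) ^ 2))).card : ℝ) * (1 / (8 * (q : ℝ) ^ 2))
          = ∑ j ∈ (univ.filter (fun j : Fin D => ¬ 8 ∣ (j : ℕ))).filter
            (fun j => ¬ W j ≤ 1 / (8 * (q : ℝ) ^ 2)), (1 / (8 * (q : ℝ) ^ 2)) := by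
            rw [Finset.sum_const, nsmul_eq_mul]
        _ ≤ ∑ j ∈ (univ.filter (fun j : Fin D => ¬ 8 ∣ (j : ℕ))).filter
            (fun j => ¬ W j ≤ 1 / (8 * (q : ℝ) ^ 2)), W j := by
            apply Finset.sum_le_sum
            intro j hj
            exact (not_le.1 (Finset.mem_filter.1 hj).2).le
        _ ≤ ∑ j ∈ univ.filter (fun j : Fin D => ¬ 8 ∣ (j : ℕ)), W j := by
            apply Finset.sum_le_sum_of_subset_of_nonneg (Finset.filter_subset _ _)
            intro j _ _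
            exact hW0 j
        _ ≤ (D : ℝ) / (32 * (q : ℝ) ^ 2) := hWs
    have h2 : (D : ℝ) / (32 * (q : ℝ) ^ 2) = (D : ℝ) / 4 * (1 / (8 * (q : ℝ) ^ 2)) := by
      field_simp
      ring
    rw [h2] at h1
    exact le_of_mul_le_mul_right h1 (by positivity)
  have hact := ave_act D
  have hcard : (univ.filter (fun j : Fin D => 8 ∣ (j : ℕ))).card
      + (univ.filter (fun j : Fin D => ¬ 8 ∣ (j : ℕ))).card = D := by
    rw [Finset.card_filter_add_card_filter_not, Finset.card_univ, Fintype.card_fin]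
  have hcard2 : ((univ.filter (fun j : Fin D => ¬ 8 ∣ (j : ℕ))).filter
      (fun j => W j ≤ 1 / (8 * (q : ℝ) ^ 2))).card
      + ((univ.filter (fun j : Fin D => ¬ 8 ∣ (j : ℕ))).filter
      (fun j => ¬ W j ≤ 1 / (8 * (q : ℝ) ^ 2))).card
      = (univ.filter (fun j : Fin D => ¬ 8 ∣ (j : ℕ))).card := by
    rw [Finset.card_filter_add_card_filter_not]
  have hbadN : 4 * ((univ.filter (fun j : Fin D => ¬ 8 ∣ (j : ℕ))).filter
      (fun j => ¬ W j ≤ 1 / (8 * (q : ℝ) ^ 2))).card ≤ D := by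
    have h1 : (4 : ℝ) * (((univ.filter (fun j : Fin D => ¬ 8 ∣ (j : ℕ))).filter
      (fun j => ¬ W j ≤ 1 / (8 * (q : ℝ) ^ 2))).card : ℝ) ≤ D := by linarith
    exact_mod_cast h1
  have hfin : (univ.filter (fun j : Fin D => ¬ 8 ∣ (j : ℕ))).filter
      (fun j => W j ≤ 1 / (8 * (q : ℝ) ^ 2))
      = univ.filter (fun j : Fin D => ¬ 8 ∣ (j : ℕ) ∧
      ∑ I ∈ univ.filter (fun I => b j ∈ I ∧ ¬ (S I ∧ G I j)), wt (1 / (q : ℝ)) I
        ≤ 1 / (8 * (q : ℝ) ^ 2)) := by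
    rw [Finset.filter_filter]
  rw [← hfin]
  omega

/-- In a good row every colour is met with weight at least `1/(2 q^2)`. -/
theorem good_beta {m n q l : ℕ} (hp : Par m n q l) (b β : Fin m) (P : Finset (Fin m) → Prop)
    (h : ∑ I ∈ univ.filter (fun I => b ∈ I ∧ ¬ P I), wt (1 / (q : ℝ)) I
        ≤ 1 / (8 * (q : ℝ) ^ 2)) :
    1 / (2 * (q : ℝ) ^ 2)
      ≤ ∑ I ∈ univ.filter (fun I => (b ∈ I ∧ P I) ∧ β ∈ I), wt (1 / (q : ℝ)) I := by
  have hq8 := hp.hq
  have hqR : (8 : ℝ) ≤ q := by exact_mod_cast hq8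
  have hq0 : (0 : ℝ) < q := by linarith
  have hτ0 : (0 : ℝ) ≤ 1 / (q : ℝ) := by positivity
  have hτ1 : 1 / (q : ℝ) ≤ 1 := by
    rw [div_le_one hq0]; linarith
  have h2 := wt_mem2 hτ0 hτ1 b β
  have h3 : ∑ I ∈ univ.filter (fun I : Finset (Fin m) => b ∈ I ∧ β ∈ I), wt (1 / (q : ℝ)) I
      ≤ ∑ I ∈ univ.filter (fun I => (b ∈ I ∧ P I) ∧ β ∈ I), wt (1 / (q : ℝ)) I
        + ∑ I ∈ univ.filter (fun I => b ∈ I ∧ ¬ P I), wt (1 / (q : ℝ)) I := by
    have h4 : univ.filter (fun I : Finset (Fin m) => b ∈ I ∧ β ∈ I)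
        ⊆ univ.filter (fun I => (b ∈ I ∧ P I) ∧ β ∈ I) ∪ univ.filter (fun I => b ∈ I ∧ ¬ P I) := by
      intro I hI
      obtain ⟨-, h5, h6⟩ := Finset.mem_filter.1 hI
      by_cases h7 : P I
      · exact Finset.mem_union_left _ (Finset.mem_filter.2 ⟨mem_univ _, ⟨h5, h7⟩, h6⟩)
      · exact Finset.mem_union_right _ (Finset.mem_filter.2 ⟨mem_univ _, h5, h7⟩)
    have h5 : ∑ I ∈ univ.filter (fun I : Finset (Fin m) => b ∈ I ∧ β ∈ I), wt (1 / (q : ℝ)) I
        ≤ ∑ I ∈ univ.filter (fun I => (b ∈ I ∧ P I) ∧ β ∈ I) ∪ univ.filter (fun I => b ∈ I ∧ ¬ P I),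
          wt (1 / (q : ℝ)) I :=
      Finset.sum_le_sum_of_subset_of_nonneg h4 (fun I _ _ => wt_nonneg hτ0 hτ1 I)
    have h6 := Finset.sum_union_inter (s₁ := univ.filter (fun I => (b ∈ I ∧ P I) ∧ β ∈ I))
      (s₂ := univ.filter (fun I => b ∈ I ∧ ¬ P I)) (f := fun I => wt (1 / (q : ℝ)) I)
    have h7 : 0 ≤ ∑ I ∈ univ.filter (fun I => (b ∈ I ∧ P I) ∧ β ∈ I) ∩
        univ.filter (fun I => b ∈ I ∧ ¬ P I), wt (1 / (q : ℝ)) I :=
      Finset.sum_nonneg (fun I _ => wt_nonneg hτ0 hτ1 I)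
    linarith
  have h8 : 1 / (2 * (q : ℝ) ^ 2) ≤ (1 / (q : ℝ)) ^ 2 - 1 / (8 * (q : ℝ) ^ 2) := by
    have h9 : (1 / (q : ℝ)) ^ 2 - 1 / (8 * (q : ℝ) ^ 2) - 1 / (2 * (q : ℝ) ^ 2)
        = 3 / (8 * (q : ℝ) ^ 2) := by
      field_simp
      ring
    have h10 : 0 ≤ 3 / (8 * (q : ℝ) ^ 2) := by positivity
    linarith
  linarith

end Pool.Agent.Rey
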