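import Mathlib
import Pool.Agent.Rey.Cnt
import Pool.Agent.Rey.Defs

set_option autoImplicit false

namespace Pool.Agent.Rey

open Finset
open scoped Classical

-- MODULE ha
private theorem ha_cells {D : ℕ} {α : Type} [Fintype α] [DecidableEq α]
    (Z : Finset (Fin D × Fin D)) (A : Fin D × Fin D → Finset α) (η : ℝ) (hη : 0 ≤ η)
    (hA : ∀ z ∈ Z, ((A z).card : ℝ) ≤ η * Fintype.card α) :
    ((univ.filter (fun X : Fin D → Fin D → α => ∀ z ∈ Z, X z.1 z.2 ∈ A z)).card : ℝ)
      ≤ η ^ Z.card * Fintype.card (Fin D → Fin D → α) := by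
  have h := card_cells Z A η hη hA
  have e : Fintype.card (Fin D → Fin D → α) = Fintype.card (Fin D × Fin D → α) :=
    Fintype.card_congr (Equiv.curry _ _ _).symm
  rw [e, Fintype.card_fun]
  push_cast
  refine le_trans (le_of_eq ?_) h
  norm_cast
  refine card_bij (fun X _ => fun z => X z.1 z.2) ?_ ?_ ?_
  · intro X hX
    simpa using hX
  · intro X _ Y _ hXY
    funext a b
    exact congrFun hXY (a, b)
  · intro X hX
    refine ⟨fun a b => X (a, b), ?_, rfl⟩
    simpa using hX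

/-- rows of window `i` divisible by 8 -/
private theorem ha_rows (D m : ℕ) (hm : 0 < m) (i : ℕ) :
    (univ.filter (fun j : Fin D => 8 ∣ (j : ℕ) ∧ (j : ℕ) / (8 * m ^ 3) = i)).card ≤ m ^ 3 := by
  have hm3 : 0 < m ^ 3 := by positivity
  have key : ∀ j : Fin D, (j : ℕ) / (8 * m ^ 3) = i →
      ∃ r, r < m ^ 3 ∧ (j : ℕ) / 8 = m ^ 3 * i + r := by
    intro j hi
    have h1 : (j : ℕ) / 8 / m ^ 3 = i := by rw [Nat.div_div_eq_div_mul]; exact hi
    have h2 := Nat.div_add_mod ((j : ℕ) / 8) (m ^ 3)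
    rw [h1] at h2
    exact ⟨_, Nat.mod_lt _ hm3, h2.symm⟩
  calc _ ≤ (Finset.range (m ^ 3)).card := by
        refine card_le_card_of_injOn (fun j => (j : ℕ) / 8 - m ^ 3 * i) ?_ ?_
        · intro j hj
          simp only [coe_filter, mem_univ, true_and, Set.mem_ofPred_eq] at hj
          obtain ⟨r, hr, hr2⟩ := key j hj.2
          simp only [coe_range, Set.mem_Iio]
          omega
        · intro j hj j' hj' he
          simp only [coe_filter, mem_univ, true_and, Set.mem_ofPred_eq] at hj hj'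
          obtain ⟨r, hr, hr2⟩ := key j hj.2
          obtain ⟨r', hr', hr2'⟩ := key j' hj'.2
          have h8 := hj.1
          have h8' := hj'.1
          simp only at he
          apply Fin.ext
          omega
    _ = m ^ 3 := card_range _

/-- the subsets Theta -/
private theorem ha_thetas (D m : ℕ) (hm : 0 < m) (i : ℕ) :
    (univ.filter (fun Θ : Finset (Fin D) => Θ.card = m ^ 2 ∧
      ∀ j ∈ Θ, 8 ∣ (j : ℕ) ∧ (j : ℕ) / (8 * m ^ 3) = i)).card ≤ (m ^ 3) ^ (m ^ 2) := by
  calc _ ≤ (powersetCard (m ^ 2)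
        (univ.filter (fun j : Fin D => 8 ∣ (j : ℕ) ∧ (j : ℕ) / (8 * m ^ 3) = i))).card := by
        refine card_le_card ?_
        intro Θ hΘ
        simp only [mem_filter, mem_univ, true_and, mem_powersetCard] at hΘ ⊢
        refine ⟨fun j hj => ?_, hΘ.1⟩
        simp only [mem_filter, mem_univ, true_and]
        exact hΘ.2 j hj
    _ = Nat.choose _ (m ^ 2) := card_powersetCard _ _
    _ ≤ _ := (Nat.choose_le_pow _ _).trans (Nat.pow_le_pow_left (ha_rows D m hm i) _)

/-- Fixed `K`, `Q`, `Θ`. -/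
private theorem ha_fix {D M m q w : ℕ} (hq : 0 < q) (hM0 : 0 < M) (hm : 0 < m)
    (K : Fin m × Fin m → Fin w → Option (Fin D))
    (hK : ∀ i g g' k, K g i = some k → K g' i = some k → g = g')
    (hK2 : ∀ i ∈ usd K, (univ.filter (fun g => (K g i).isSome = true)).card = m)
    (Q : Fin m × Fin m → Fin w → Finset (Fin M)) (Θ : Fin w → Finset (Fin D))
    (hQ : ∀ g i, (K g i).isSome = true → M ≤ 8 * q * (Q g i).card)
    (hΘ : ∀ i ∈ usd K, (Θ i).card = m ^ 2 ∧
          ∀ j ∈ Θ i, 8 ∣ (j : ℕ) ∧ (j : ℕ) / (8 * m ^ 3) = i) :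
    ((univ.filter (fun xx : Fin D → Fin D → Fin M =>
        ∀ g i k j, K g i = some k → j ∈ Θ i → xx k j ∉ Q g i)).card : ℝ)
      ≤ ((1 - 1 / (8 * (q : ℝ))) ^ (m ^ 3)) ^ (usd K).card
        * Fintype.card (Fin D → Fin D → Fin M) := by
  have hqR : (1 : ℝ) ≤ q := by exact_mod_cast hq
  have hMR : (0 : ℝ) < M := by exact_mod_cast hM0
  set η : ℝ := 1 - 1 / (8 * (q : ℝ)) with hη
  have h0 : 0 ≤ η := by
    rw [hη, sub_nonneg, div_le_one (by positivity)]; linarith
  -- index set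
  set T : Finset (Σ _ : Fin w, (Fin m × Fin m) × Fin D) := (usd K).sigma (fun i =>
    (univ.filter (fun g => (K g i).isSome = true)) ×ˢ (Θ i)) with hT
  have hTc : T.card = m ^ 3 * (usd K).card := by
    rw [hT, card_sigma, sum_congr rfl (fun i hi => by
      rw [card_product, hK2 i hi, (hΘ i hi).1]), sum_const, smul_eq_mul]
    ring
  -- the cells
  have hmem : ∀ x ∈ T, ∃ k, K x.2.1 x.1 = some k ∧ x.1 ∈ usd K ∧ x.2.2 ∈ Θ x.1 := by
    rintro ⟨i, g, j⟩ hx
    simp only [hT, mem_sigma, mem_product, mem_filter, mem_univ, true_and] at hx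
    obtain ⟨k, hk⟩ := Option.isSome_iff_exists.1 hx.2.1
    exact ⟨k, hk, hx.1, hx.2.2⟩
  set cell : (Σ _ : Fin w, (Fin m × Fin m) × Fin D) → Fin D × Fin D :=
    fun x => ((K x.2.1 x.1).getD x.2.2, x.2.2) with hcell
  set Z : Finset (Fin D × Fin D) := T.image cell with hZ
  have hinj : Set.InjOn cell T := by
    rintro ⟨i, g, j⟩ hx ⟨i', g', j'⟩ hx' he
    obtain ⟨k, hk, hi, hj⟩ := hmem _ hx
    obtain ⟨k', hk', hi', hj'⟩ := hmem _ hx'
    simp only at hk hk' hi hi' hj hj'
    simp only [hcell, hk, hk', Option.getD_some, Prod.mk.injEq] at he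
    obtain ⟨h1, h2⟩ := he
    subst h1; subst h2
    have e1 := ((hΘ i hi).2 j hj).2
    have e2 := ((hΘ i' hi').2 j hj').2
    have : i = i' := Fin.ext (e1.symm.trans e2)
    subst this
    have := hK i g g' k hk hk'
    subst this
    rfl
  have hZc : Z.card = m ^ 3 * (usd K).card := by
    rw [hZ, card_image_of_injOn hinj, hTc]
  -- allowed sets
  have hex : ∀ z ∈ Z, ∃ g i k j, K g i = some k ∧ j ∈ Θ i ∧ z = (k, j) := by
    intro z hz
    rw [hZ, mem_image] at hz
    obtain ⟨x, hx, rfl⟩ := hz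
    obtain ⟨k, hk, hi, hj⟩ := hmem _ hx
    exact ⟨x.2.1, x.1, k, x.2.2, hk, hj, by simp only [hcell, hk, Option.getD_some]⟩
  set A : Fin D × Fin D → Finset (Fin M) := fun z =>
    univ.filter (fun x => ∀ g i, K g i = some z.1 → z.2 ∈ Θ i → x ∉ Q g i) with hA
  have hAc : ∀ z ∈ Z, ((A z).card : ℝ) ≤ η * Fintype.card (Fin M) := by
    intro z hz
    obtain ⟨g, i, k, j, hk, hj, rfl⟩ := hex z hz
    have h1 : A (k, j) ⊆ (Q g i)ᶜ := by
      intro x hx
      simp only [hA, mem_filter, mem_univ, true_and, mem_compl] at hx ⊢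
      exact hx g i hk hj
    have h2 : ((A (k, j)).card : ℝ) ≤ ((Q g i)ᶜ.card : ℝ) := by exact_mod_cast card_le_card h1
    refine h2.trans ?_
    rw [card_compl, Fintype.card_fin, Nat.cast_sub (by simpa using card_le_univ (Q g i))]
    have h3 : (M : ℝ) ≤ 8 * q * (Q g i).card := by
      exact_mod_cast hQ g i (by rw [hk]; rfl)
    have h4 : (M : ℝ) / (8 * q) ≤ (Q g i).card := by
      rw [div_le_iff₀ (by positivity)]; linarith
    have : η * M = M - M / (8 * q) := by rw [hη]; ring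
    rw [this]; linarith
  have := ha_cells Z A η h0 hAc
  rw [hZc, pow_mul] at this
  refine le_trans ?_ this
  norm_cast
  refine card_le_card ?_
  intro X hX
  simp only [mem_filter, mem_univ, true_and] at hX ⊢
  rintro ⟨k, j⟩ _
  simp only [hA, mem_filter, mem_univ, true_and]
  intro g i hk hj
  exact hX g i k j hk hj

/-- Fixed `K`: the number of `(Q, Θ)` is at most `(2^(M m) (m^3)^(m^2))^|usd K|`, and for fixed
`(Q, Θ)` there are `m * m^2` distinct cells `(K g i, j)` in each used window. -/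
theorem lb_fixed {D M m q w : ℕ} (hq : 0 < q) (hM : M + 1 = m) (hM0 : 0 < M)
    (K : Fin m × Fin m → Fin w → Option (Fin D))
    (hK : ∀ i g g' k, K g i = some k → K g' i = some k → g = g')
    (hK2 : ∀ i ∈ usd K, (univ.filter (fun g => (K g i).isSome = true)).card = m) :
    ((univ.filter (fun xx : Fin D → Fin D → Fin M =>
      ∃ (Q : Fin m × Fin m → Fin w → Finset (Fin M)) (Θ : Fin w → Finset (Fin D)),
        (∀ g i, (K g i).isSome = true → M ≤ 8 * q * (Q g i).card) ∧
        (∀ i ∈ usd K, (Θ i).card = m ^ 2 ∧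
          ∀ j ∈ Θ i, 8 ∣ (j : ℕ) ∧ (j : ℕ) / (8 * m ^ 3) = i) ∧
        ∀ g i k j, K g i = some k → j ∈ Θ i → xx k j ∉ Q g i)).card : ℝ)
      ≤ (2 ^ (M * m) * ((m : ℝ) ^ 3) ^ (m ^ 2) * (1 - 1 / (8 * (q : ℝ))) ^ (m ^ 3))
          ^ (usd K).card * Fintype.card (Fin D → Fin D → Fin M) := by
  have hm : 0 < m := by omega
  -- the index sets
  set QS : Finset (Fin m × Fin m → Fin w → Finset (Fin M)) :=
    Fintype.piFinset (fun g => Fintype.piFinset (fun i =>
      if (K g i).isSome = true then univ else {∅})) with hQS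
  set TS : Finset (Fin w → Finset (Fin D)) :=
    Fintype.piFinset (fun i => if i ∈ usd K then univ.filter (fun Θ : Finset (Fin D) =>
      Θ.card = m ^ 2 ∧ ∀ j ∈ Θ, 8 ∣ (j : ℕ) ∧ (j : ℕ) / (8 * m ^ 3) = i) else {∅}) with hTS
  have hQc : QS.card = (2 ^ (M * m)) ^ (usd K).card := by
    rw [hQS, Fintype.card_piFinset]
    simp only [Fintype.card_piFinset]
    rw [prod_comm]
    have : ∀ i : Fin w, ∏ g : Fin m × Fin m,
        (if (K g i).isSome = true then (univ : Finset (Finset (Fin M))) else {∅}).card =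
          if i ∈ usd K then 2 ^ (M * m) else 1 := by
      intro i
      have h1 : ∀ g : Fin m × Fin m,
        (if (K g i).isSome = true then (univ : Finset (Finset (Fin M))) else {∅}).card =
          if (K g i).isSome = true then 2 ^ M else 1 := by
        intro g
        split_ifs
        · rw [card_univ, Fintype.card_finset, Fintype.card_fin]
        · rfl
      rw [prod_congr rfl (fun g _ => h1 g), prod_ite, prod_const, prod_const_one, mul_one,
        ← pow_mul]
      split_ifs with hi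
      · rw [hK2 i hi]
      · have : (univ.filter (fun g => (K g i).isSome = true)) = ∅ := by
          rw [filter_eq_empty_iff]
          intro g _ hg
          apply hi
          simp only [usd, mem_filter, mem_univ, true_and]
          exact ⟨g, hg⟩
        rw [this, card_empty, mul_zero, pow_zero]
    rw [prod_congr rfl (fun i _ => this i), prod_ite, prod_const, prod_const_one, mul_one]
    congr 2
    ext i; simp
  have hTc : TS.card ≤ ((m ^ 3) ^ (m ^ 2)) ^ (usd K).card := by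
    rw [hTS, Fintype.card_piFinset]
    calc _ ≤ ∏ i : Fin w, (if i ∈ usd K then (m ^ 3) ^ (m ^ 2) else 1) := by
          refine prod_le_prod' fun i _ => ?_
          split_ifs with hi
          · exact ha_thetas D m hm i
          · simp
      _ = _ := by
          rw [prod_ite, prod_const, prod_const_one, mul_one]
          congr 2
          ext i; simp
  -- union bound
  set good : (Fin m × Fin m → Fin w → Finset (Fin M)) × (Fin w → Finset (Fin D)) → Prop :=
    fun P => (∀ g i, (K g i).isSome = true → M ≤ 8 * q * (P.1 g i).card) ∧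
      (∀ i ∈ usd K, (P.2 i).card = m ^ 2 ∧
          ∀ j ∈ P.2 i, 8 ∣ (j : ℕ) ∧ (j : ℕ) / (8 * m ^ 3) = i) with hgood
  have hsub : (univ.filter (fun xx : Fin D → Fin D → Fin M =>
      ∃ (Q : Fin m × Fin m → Fin w → Finset (Fin M)) (Θ : Fin w → Finset (Fin D)),
        (∀ g i, (K g i).isSome = true → M ≤ 8 * q * (Q g i).card) ∧
        (∀ i ∈ usd K, (Θ i).card = m ^ 2 ∧
          ∀ j ∈ Θ i, 8 ∣ (j : ℕ) ∧ (j : ℕ) / (8 * m ^ 3) = i) ∧
        ∀ g i k j, K g i = some k → j ∈ Θ i → xx k j ∉ Q g i)) ⊆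
      ((QS ×ˢ TS).filter good).biUnion (fun P => univ.filter
        (fun xx : Fin D → Fin D → Fin M =>
          ∀ g i k j, K g i = some k → j ∈ P.2 i → xx k j ∉ P.1 g i)) := by
    intro xx hxx
    simp only [mem_filter, mem_univ, true_and] at hxx
    obtain ⟨Q, Θ, h1, h2, h3⟩ := hxx
    rw [mem_biUnion]
    refine ⟨(fun g i => if (K g i).isSome = true then Q g i else ∅,
      fun i => if i ∈ usd K then Θ i else ∅), ?_, ?_⟩
    · simp only [mem_filter, mem_product, hQS, hTS, Fintype.mem_piFinset, hgood]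
      refine ⟨⟨?_, ?_⟩, ?_, ?_⟩
      · intro g i
        split_ifs
        · exact mem_univ _
        · exact mem_singleton_self _
      · intro i
        split_ifs with hi
        · simp only [mem_filter, mem_univ, true_and]
          exact h2 i hi
        · exact mem_singleton_self _
      · intro g i hg
        rw [if_pos hg]
        exact h1 g i hg
      · intro i hi
        rw [if_pos hi]
        exact h2 i hi
    · simp only [mem_filter, mem_univ, true_and]
      intro g i k j hk hj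
      have hs : (K g i).isSome = true := by rw [hk]; rfl
      have hu : i ∈ usd K := by
        simp only [usd, mem_filter, mem_univ, true_and]
        exact ⟨g, hs⟩
      rw [if_pos hs]
      rw [if_pos hu] at hj
      exact h3 g i k j hk hj
  have hN : (0 : ℝ) ≤ ((1 - 1 / (8 * (q : ℝ))) ^ (m ^ 3)) ^ (usd K).card
        * Fintype.card (Fin D → Fin D → Fin M) := by
    have hqR : (1 : ℝ) ≤ q := by exact_mod_cast hq
    have : (0 : ℝ) ≤ 1 - 1 / (8 * (q : ℝ)) := by
      rw [sub_nonneg, div_le_one (by positivity)]; linarith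
    positivity
  calc _ ≤ ((((QS ×ˢ TS).filter good).biUnion (fun P => univ.filter
        (fun xx : Fin D → Fin D → Fin M =>
          ∀ g i k j, K g i = some k → j ∈ P.2 i → xx k j ∉ P.1 g i))).card : ℝ) := by
        exact_mod_cast card_le_card hsub
    _ ≤ ∑ P ∈ (QS ×ˢ TS).filter good, ((univ.filter
        (fun xx : Fin D → Fin D → Fin M =>
          ∀ g i k j, K g i = some k → j ∈ P.2 i → xx k j ∉ P.1 g i)).card : ℝ) := by
        exact_mod_cast card_biUnion_le
    _ ≤ ∑ P ∈ (QS ×ˢ TS).filter good, ((1 - 1 / (8 * (q : ℝ))) ^ (m ^ 3)) ^ (usd K).card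
        * Fintype.card (Fin D → Fin D → Fin M) := by
        refine sum_le_sum fun P hP => ?_
        simp only [mem_filter, hgood] at hP
        exact ha_fix hq hM0 hm K hK hK2 P.1 P.2 hP.2.1 hP.2.2
    _ = (((QS ×ˢ TS).filter good).card : ℝ) * (((1 - 1 / (8 * (q : ℝ))) ^ (m ^ 3)) ^ (usd K).card
        * Fintype.card (Fin D → Fin D → Fin M)) := by
        rw [sum_const, nsmul_eq_mul]
    _ ≤ (((2 : ℝ) ^ (M * m)) ^ (usd K).card * (((m : ℝ) ^ 3) ^ (m ^ 2)) ^ (usd K).card) *
        (((1 - 1 / (8 * (q : ℝ))) ^ (m ^ 3)) ^ (usd K).card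
        * Fintype.card (Fin D → Fin D → Fin M)) := by
        refine mul_le_mul_of_nonneg_right ?_ hN
        have h1 : ((QS ×ˢ TS).filter good).card ≤
            (2 ^ (M * m)) ^ (usd K).card * ((m ^ 3) ^ (m ^ 2)) ^ (usd K).card := by
          refine (card_filter_le _ _).trans ?_
          rw [card_product, hQc]
          exact Nat.mul_le_mul_left _ hTc
        exact_mod_cast h1
    _ = _ := by
        rw [mul_pow, mul_pow]; ring
-- END ha

-- MODULE hb
private theorem hb_count {D m w : ℕ} (K : Fin m × Fin m → Fin w → Option (Fin D))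
    (h : ∀ i ∈ usd K, (univ.filter (fun g => (K g i).isSome = true)).card = m) :
    ∑ g, (dm (K g)).card = m * (usd K).card := by
  have h1 : ∑ g, (dm (K g)).card =
      ∑ i : Fin w, (univ.filter (fun g => (K g i).isSome = true)).card := by
    simp only [dm, card_filter]
    exact sum_comm
  rw [h1]
  have h2 : ∀ i : Fin w, (univ.filter (fun g => (K g i).isSome = true)).card =
      if i ∈ usd K then m else 0 := by
    intro i
    split_ifs with hi
    · exact h i hi
    · rw [card_eq_zero, filter_eq_empty_iff]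
      intro g _ hg
      apply hi
      simp only [usd, mem_filter, mem_univ, true_and]
      exact ⟨g, hg⟩
  rw [sum_congr rfl (fun i _ => h2 i), sum_ite, sum_const, sum_const_zero, add_zero,
    smul_eq_mul, mul_comm]
  congr 2
  ext i; simp

private theorem hb_inv {D m w : ℕ} (hm : 2 ≤ m) (hD : D ≤ (w + 1) * (8 * m ^ 3)) :
    ((1 - 1 / (8 * (m : ℝ) ^ 3))⁻¹) ^ D ≤ 4 ^ (w + 1) := by
  have hmR : (2 : ℝ) ≤ m := by exact_mod_cast hm
  have hm3 : (8 : ℝ) ≤ (m : ℝ) ^ 3 := by
    have := pow_le_pow_left₀ (by norm_num) hmR 3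
    norm_num at this
    exact this
  have hpos : (0 : ℝ) < 8 * (m : ℝ) ^ 3 := by positivity
  have h1 : (0 : ℝ) < 1 - 1 / (8 * (m : ℝ) ^ 3) := by
    rw [sub_pos, div_lt_one hpos]; linarith
  have h1' : 1 ≤ (1 - 1 / (8 * (m : ℝ) ^ 3))⁻¹ := by
    rw [one_le_inv₀ h1]
    have : 0 ≤ 1 / (8 * (m : ℝ) ^ 3) := by positivity
    linarith
  -- (1 - 1/N)^(-N) ≤ 4
  have h2 : ((1 - 1 / (8 * (m : ℝ) ^ 3))⁻¹) ^ (8 * m ^ 3) ≤ 4 := by
    have h3 : (1 - 1 / (8 * (m : ℝ) ^ 3))⁻¹ ≤ Real.exp (64 / 63 * (1 / (8 * (m : ℝ) ^ 3))) := by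
      rw [inv_le_comm₀ h1 (Real.exp_pos _), ← Real.exp_neg]
      set x : ℝ := 1 / (8 * (m : ℝ) ^ 3) with hx
      have hx1 : x ≤ 1 / 64 := by
        rw [hx]
        apply one_div_le_one_div_of_le (by norm_num)
        linarith
      have hx0 : 0 < x := by positivity
      -- exp (-(64/63 x)) ≤ 1 - x
      have h4 : (1 + 64 / 63 * x) * (1 - x) ≥ 1 := by nlinarith
      have h5 : 1 + 64 / 63 * x ≤ Real.exp (64 / 63 * x) := by
        have := Real.add_one_le_exp (64 / 63 * x)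
        linarith
      rw [Real.exp_neg, inv_le_comm₀ (Real.exp_pos _) h1]
      refine le_trans ?_ h5
      rw [inv_le_iff_one_le_mul₀ h1]
      exact h4
    calc _ ≤ (Real.exp (64 / 63 * (1 / (8 * (m : ℝ) ^ 3)))) ^ (8 * m ^ 3) :=
          pow_le_pow_left₀ (by positivity) h3 _
      _ = Real.exp (64 / 63) := by
          rw [← Real.exp_nat_mul]
          congr 1
          push_cast
          field_simp
      _ ≤ 4 := by
          have h6 : Real.exp (64 / 63) ≤ Real.exp (1 + 1 / 63) := by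
            apply Real.exp_le_exp.2; norm_num
          refine h6.trans ?_
          rw [Real.exp_add]
          have h7 := Real.exp_one_lt_d9
          have h8 : Real.exp (1 / 63) ≤ 1.1 := by
            have h9 : Real.exp (1 / 63) ≤ (1 - 1 / 63)⁻¹ := by
              rw [le_inv_comm₀ (Real.exp_pos _) (by norm_num), ← Real.exp_neg]
              have := Real.add_one_le_exp (-(1 / 63 : ℝ))
              linarith
            refine h9.trans ?_
            norm_num
          nlinarith [Real.exp_pos (1 / 63), Real.exp_pos 1]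
  calc _ ≤ ((1 - 1 / (8 * (m : ℝ) ^ 3))⁻¹) ^ ((w + 1) * (8 * m ^ 3)) :=
        pow_le_pow_right₀ h1' hD
    _ = (((1 - 1 / (8 * (m : ℝ) ^ 3))⁻¹) ^ (8 * m ^ 3)) ^ (w + 1) := by
        rw [← pow_mul]; congr 1; ring
    _ ≤ _ := pow_le_pow_left₀ (by positivity) h2 _

/-- Sum over `K`: `sum over g of card (dm (K g)) = m * card (usd K)`; write
`Z^|U| = prod over g of a^(2 card (dm (K g))) * (Z a^(-2m))^|U|` with `a = 1/(8 m^3)`, use
`cnt_pm` for every `g`, `(1+a)^w ≤ 2^w`, `(1-a)^(-D) ≤ 4^(w+1)`, and `|U| ≥ (w+1)/5`. -/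
theorem lb_sum {D m w : ℕ} (hm : 2 ≤ m) (hD : D ≤ (w + 1) * (8 * m ^ 3)) (Z : ℝ) (hZ : 0 ≤ Z)
    (hZ2 : Z * (8 * (m : ℝ) ^ 3) ^ (2 * m) ≤ Real.exp (-(11 * (m : ℝ) ^ 2))) :
    ∑ K ∈ univ.filter (fun K : Fin m × Fin m → Fin w → Option (Fin D) =>
      (∀ g, PM (K g)) ∧
      (∀ i ∈ usd K, (univ.filter (fun g => (K g i).isSome = true)).card = m) ∧
      (usd K).Nonempty ∧ w ≤ 4 * (usd K).card), Z ^ (usd K).card < 1 := by
  have hmR : (2 : ℝ) ≤ m := by exact_mod_cast hm
  have hm3 : (8 : ℝ) ≤ (m : ℝ) ^ 3 := by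
    have := pow_le_pow_left₀ (by norm_num) hmR 3
    norm_num at this
    exact this
  have hpos : (0 : ℝ) < 8 * (m : ℝ) ^ 3 := by positivity
  set a : ℝ := 1 / (8 * (m : ℝ) ^ 3) with ha
  have ha0 : 0 < a := by positivity
  have ha1 : a < 1 := by rw [ha, div_lt_one hpos]; linarith
  set W : ℝ := Real.exp (-(11 * (m : ℝ) ^ 2)) with hW
  set P : Finset (Fin w → Option (Fin D)) := univ.filter (fun f => PM f) with hP
  -- each term
  have hterm : ∀ K ∈ univ.filter (fun K : Fin m × Fin m → Fin w → Option (Fin D) =>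
      (∀ g, PM (K g)) ∧
      (∀ i ∈ usd K, (univ.filter (fun g => (K g i).isSome = true)).card = m) ∧
      (usd K).Nonempty ∧ w ≤ 4 * (usd K).card), Z ^ (usd K).card ≤
        (∏ g, a ^ (2 * (dm (K g)).card)) *
          Real.exp (-(11 / 5 * (m : ℝ) ^ 2 * (w + 1))) := by
    intro K hK
    simp only [mem_filter, mem_univ, true_and] at hK
    obtain ⟨_, h2, h3, h4⟩ := hK
    have hU : 1 ≤ (usd K).card := card_pos.2 h3
    have e1 : ∏ g, a ^ (2 * (dm (K g)).card) = (a ^ (2 * m)) ^ (usd K).card := by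
      rw [prod_pow_eq_pow_sum, ← mul_sum, hb_count K h2, ← pow_mul]
      congr 1; ring
    have e2 : Z = a ^ (2 * m) * (Z * (8 * (m : ℝ) ^ 3) ^ (2 * m)) := by
      rw [ha, div_pow, one_pow]
      field_simp
    have e3 : Z ^ (usd K).card = (a ^ (2 * m)) ^ (usd K).card *
        (Z * (8 * (m : ℝ) ^ 3) ^ (2 * m)) ^ (usd K).card := by
      conv_lhs => rw [e2]
      rw [mul_pow]
    rw [e1, e3]
    refine mul_le_mul_of_nonneg_left ?_ (by positivity)
    calc (Z * (8 * (m : ℝ) ^ 3) ^ (2 * m)) ^ (usd K).card ≤ W ^ (usd K).card :=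
          pow_le_pow_left₀ (by positivity) hZ2 _
      _ = Real.exp ((usd K).card * (-(11 * (m : ℝ) ^ 2))) := by
          rw [hW, ← Real.exp_nat_mul]
      _ ≤ _ := by
          apply Real.exp_le_exp.2
          have h5 : (w : ℝ) + 1 ≤ 5 * (usd K).card := by
            have : w + 1 ≤ 5 * (usd K).card := by omega
            exact_mod_cast this
          have h6 : 0 ≤ (m : ℝ) ^ 2 := by positivity
          nlinarith
  have hsum : ∑ K ∈ univ.filter (fun K : Fin m × Fin m → Fin w → Option (Fin D) =>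
      (∀ g, PM (K g)) ∧
      (∀ i ∈ usd K, (univ.filter (fun g => (K g i).isSome = true)).card = m) ∧
      (usd K).Nonempty ∧ w ≤ 4 * (usd K).card), (∏ g, a ^ (2 * (dm (K g)).card)) ≤
        (8 : ℝ) ^ ((w + 1) * m ^ 2) := by
    calc _ ≤ ∑ K ∈ Fintype.piFinset (fun _ : Fin m × Fin m => P),
          ∏ g, a ^ (2 * (dm (K g)).card) := by
          refine sum_le_sum_of_subset_of_nonneg ?_ (fun _ _ _ => by positivity)
          intro K hK
          simp only [mem_filter, mem_univ, true_and, Fintype.mem_piFinset, hP] at hK ⊢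
          exact hK.1
      _ = ∏ _g : Fin m × Fin m, ∑ f ∈ P, a ^ (2 * (dm f).card) := by
          rw [prod_univ_sum]
      _ = (∑ f ∈ P, a ^ (2 * (dm f).card)) ^ (m ^ 2) := by
          rw [prod_const, card_univ, Fintype.card_prod, Fintype.card_fin, sq]
      _ ≤ ((8 : ℝ) ^ (w + 1)) ^ (m ^ 2) := by
          refine pow_le_pow_left₀ (sum_nonneg fun _ _ => by positivity) ?_ _
          refine (cnt_pm w D a ha0 ha1).trans ?_
          have h7 : (1 + a) ^ w ≤ 2 ^ (w + 1) := by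
            calc (1 + a) ^ w ≤ 2 ^ w := pow_le_pow_left₀ (by positivity) (by linarith) _
              _ ≤ 2 ^ (w + 1) := pow_le_pow_right₀ (by norm_num) (by omega)
          have h8 : ((1 - a)⁻¹) ^ D ≤ 4 ^ (w + 1) := hb_inv hm hD
          calc _ ≤ (2 : ℝ) ^ (w + 1) * 4 ^ (w + 1) :=
                mul_le_mul h7 h8 (by
                  have : 0 < 1 - a := by linarith
                  positivity) (by positivity)
            _ = (8 : ℝ) ^ (w + 1) := by rw [← mul_pow]; norm_num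
      _ = _ := by rw [← pow_mul]
  calc _ ≤ ∑ K ∈ univ.filter (fun K : Fin m × Fin m → Fin w → Option (Fin D) =>
      (∀ g, PM (K g)) ∧
      (∀ i ∈ usd K, (univ.filter (fun g => (K g i).isSome = true)).card = m) ∧
      (usd K).Nonempty ∧ w ≤ 4 * (usd K).card), (∏ g, a ^ (2 * (dm (K g)).card)) *
          Real.exp (-(11 / 5 * (m : ℝ) ^ 2 * (w + 1))) := sum_le_sum hterm
    _ = (∑ K ∈ univ.filter (fun K : Fin m × Fin m → Fin w → Option (Fin D) =>
      (∀ g, PM (K g)) ∧
      (∀ i ∈ usd K, (univ.filter (fun g => (K g i).isSome = true)).card = m) ∧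
      (usd K).Nonempty ∧ w ≤ 4 * (usd K).card), (∏ g, a ^ (2 * (dm (K g)).card))) *
          Real.exp (-(11 / 5 * (m : ℝ) ^ 2 * (w + 1))) := by rw [sum_mul]
    _ ≤ (8 : ℝ) ^ ((w + 1) * m ^ 2) * Real.exp (-(11 / 5 * (m : ℝ) ^ 2 * (w + 1))) :=
        mul_le_mul_of_nonneg_right hsum (Real.exp_pos _).le
    _ = Real.exp (((w + 1) * m ^ 2) * Real.log 8 - 11 / 5 * (m : ℝ) ^ 2 * (w + 1)) := by
        rw [← Real.rpow_natCast, Real.rpow_def_of_pos (by norm_num), ← Real.exp_add]
        congr 1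
        push_cast
        ring
    _ < 1 := by
        rw [Real.exp_lt_one_iff]
        have h8 : Real.log 8 < 2.1 := by
          have : Real.log 8 = 3 * Real.log 2 := by
            rw [show (8 : ℝ) = 2 ^ 3 by norm_num, Real.log_pow]; norm_num
          rw [this]
          have := Real.log_two_lt_d9
          linarith
        have h9 : (0 : ℝ) < ((w : ℝ) + 1) * m ^ 2 := by positivity
        nlinarith
-- END hb

/-- Numbers of Lemma B. -/
theorem lb_num {M m n q l : ℕ} (hp : Par m n q l) (hM : M + 1 = m) :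
    (2 ^ (M * m) * ((m : ℝ) ^ 3) ^ (m ^ 2) * (1 - 1 / (8 * (q : ℝ))) ^ (m ^ 3))
      * (8 * (m : ℝ) ^ 3) ^ (2 * m) ≤ Real.exp (-(11 * (m : ℝ) ^ 2)) := by
  have hq8 : (8 : ℝ) ≤ q := by exact_mod_cast hp.hq
  have hl1 : (1 : ℝ) ≤ l := by exact_mod_cast hp.hl1
  have hl0 : (0 : ℝ) < l := by linarith
  have hq0 : (0 : ℝ) < q := by linarith
  have hmge : 216 * (q : ℝ) * l ≤ m := by
    have h1 : ((10 ^ 15 * q ^ 14 * l ^ 2 : ℕ) : ℝ) ≤ m := by exact_mod_cast hp.hP
    push_cast at h1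
    have h2 : (q : ℝ) ≤ (q : ℝ) ^ 14 := le_self_pow₀ (by linarith) (by norm_num)
    have h3 : (l : ℝ) ≤ (l : ℝ) ^ 2 := le_self_pow₀ hl1 (by norm_num)
    have h4 : (q : ℝ) * l ≤ (q : ℝ) ^ 14 * (l : ℝ) ^ 2 :=
      mul_le_mul h2 h3 hl0.le (by positivity)
    have h5 : (0 : ℝ) ≤ (q : ℝ) ^ 14 * (l : ℝ) ^ 2 := by positivity
    nlinarith
  have hm216 : (1728 : ℝ) ≤ m := by nlinarith
  have hm0 : (0 : ℝ) < m := by linarith
  have hml : (m : ℝ) ≤ Real.exp l := by
    have := hp.hl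
    calc (m : ℝ) = Real.exp (Real.log m) := (Real.exp_log hm0).symm
      _ ≤ Real.exp l := Real.exp_le_exp.mpr this
  -- the four factors
  have f1 : (2 : ℝ) ^ (M * m) ≤ Real.exp ((m : ℝ) ^ 2) := by
    have h1 : (2 : ℝ) ≤ Real.exp 1 := by
      have := Real.add_one_le_exp (1 : ℝ); linarith
    calc (2 : ℝ) ^ (M * m) ≤ 2 ^ (m * m) := by
          apply pow_le_pow_right₀ (by norm_num)
          apply Nat.mul_le_mul_right
          omega
      _ ≤ (Real.exp 1) ^ (m * m) := by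
          apply pow_le_pow_left₀ (by norm_num) h1
      _ = Real.exp ((m : ℝ) ^ 2) := by
          rw [← Real.exp_nat_mul]; push_cast; ring_nf
  have f2 : ((m : ℝ) ^ 3) ^ (m ^ 2) ≤ Real.exp (3 * l * (m : ℝ) ^ 2) := by
    calc ((m : ℝ) ^ 3) ^ (m ^ 2) ≤ ((Real.exp l) ^ 3) ^ (m ^ 2) := by
          apply pow_le_pow_left₀ (by positivity)
          apply pow_le_pow_left₀ (by positivity) hml
      _ = Real.exp (3 * l * (m : ℝ) ^ 2) := by
          rw [← Real.exp_nat_mul, ← Real.exp_nat_mul]; push_cast; ring_nf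
  have hx0 : (0 : ℝ) ≤ 1 - 1 / (8 * (q : ℝ)) := by
    have : 1 / (8 * (q : ℝ)) ≤ 1 := by
      rw [div_le_one (by positivity)]; linarith
    linarith
  have f3 : (1 - 1 / (8 * (q : ℝ))) ^ (m ^ 3) ≤ Real.exp (-((m : ℝ) ^ 3 / (8 * q))) := by
    have h1 : (1 - 1 / (8 * (q : ℝ))) ≤ Real.exp (-(1 / (8 * (q : ℝ)))) := by
      have := Real.add_one_le_exp (-(1 / (8 * (q : ℝ)))); linarith
    calc (1 - 1 / (8 * (q : ℝ))) ^ (m ^ 3) ≤ (Real.exp (-(1 / (8 * (q : ℝ))))) ^ (m ^ 3) :=
          pow_le_pow_left₀ hx0 h1 _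
      _ = Real.exp (-((m : ℝ) ^ 3 / (8 * q))) := by
          rw [← Real.exp_nat_mul]; push_cast
          congr 1
          field_simp
  have f4 : (8 * (m : ℝ) ^ 3) ^ (2 * m) ≤ Real.exp ((3 + 3 * l) * (2 * m)) := by
    have h8 : (8 : ℝ) ≤ Real.exp 3 := by
      have h1 : (2 : ℝ) ≤ Real.exp 1 := by
        have := Real.add_one_le_exp (1 : ℝ); linarith
      calc (8 : ℝ) = 2 ^ 3 := by norm_num
        _ ≤ (Real.exp 1) ^ 3 := pow_le_pow_left₀ (by norm_num) h1 3
        _ = Real.exp 3 := by rw [← Real.exp_nat_mul]; norm_num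
    have h9 : 8 * (m : ℝ) ^ 3 ≤ Real.exp (3 + 3 * l) := by
      rw [Real.exp_add]
      apply mul_le_mul h8 _ (by positivity) (by positivity)
      calc (m : ℝ) ^ 3 ≤ (Real.exp l) ^ 3 := pow_le_pow_left₀ hm0.le hml 3
        _ = Real.exp (3 * l) := by rw [← Real.exp_nat_mul]; norm_num
    calc (8 * (m : ℝ) ^ 3) ^ (2 * m) ≤ (Real.exp (3 + 3 * l)) ^ (2 * m) :=
          pow_le_pow_left₀ (by positivity) h9 _
      _ = Real.exp ((3 + 3 * l) * (2 * m)) := by
          rw [← Real.exp_nat_mul]; push_cast; ring_nf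
  have hmm : (27 : ℝ) * l * m ^ 2 ≤ m ^ 3 / (8 * q) := by
    rw [le_div_iff₀ (by positivity)]
    have : 27 * l * (m : ℝ) ^ 2 * (8 * q) = (216 * q * l) * m ^ 2 := by ring
    rw [this]
    have h2 : (m : ℝ) ^ 3 = m * m ^ 2 := by ring
    rw [h2]
    exact mul_le_mul_of_nonneg_right hmge (by positivity)
  have hfin : (m : ℝ) ^ 2 + 3 * l * m ^ 2 + (-((m : ℝ) ^ 3 / (8 * q))) + (3 + 3 * l) * (2 * m)
      ≤ -(11 * (m : ℝ) ^ 2) := by
    have h1 : (3 + 3 * (l : ℝ)) * (2 * m) ≤ l * m ^ 2 := by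
      have : (3 + 3 * (l : ℝ)) * 2 ≤ l * m := by nlinarith
      nlinarith
    have h2 : (m : ℝ) ^ 2 ≤ l * m ^ 2 := by
      have : 0 ≤ (m : ℝ) ^ 2 := by positivity
      nlinarith
    nlinarith
  calc (2 ^ (M * m) * ((m : ℝ) ^ 3) ^ (m ^ 2) * (1 - 1 / (8 * (q : ℝ))) ^ (m ^ 3))
      * (8 * (m : ℝ) ^ 3) ^ (2 * m)
      ≤ (Real.exp ((m : ℝ) ^ 2) * Real.exp (3 * l * (m : ℝ) ^ 2)
          * Real.exp (-((m : ℝ) ^ 3 / (8 * q)))) * Real.exp ((3 + 3 * l) * (2 * m)) := by
        apply mul_le_mul _ f4 (by positivity) (by positivity)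
        apply mul_le_mul _ f3 (pow_nonneg hx0 _) (by positivity)
        exact mul_le_mul f1 f2 (by positivity) (by positivity)
    _ = Real.exp ((m : ℝ) ^ 2 + 3 * l * m ^ 2 + (-((m : ℝ) ^ 3 / (8 * q)))
          + (3 + 3 * l) * (2 * m)) := by
        rw [← Real.exp_add, ← Real.exp_add, ← Real.exp_add]
    _ ≤ Real.exp (-(11 * (m : ℝ) ^ 2)) := Real.exp_le_exp.mpr hfin

private theorem lbd_emp {Ω : Type} [Fintype Ω] (P : Ω → Prop) (h : ∀ ω, ¬ P ω) (c : ℝ)
    (hc : 0 ≤ c) : ((univ.filter (fun ω => P ω)).card : ℝ) ≤ c := by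
  have : univ.filter (fun ω => P ω) = ∅ := filter_eq_empty_iff.mpr (fun ω _ => h ω)
  rw [this]
  simpa using hc

/-- LEMMA B. -/
theorem lemB_par {D M m n q l w : ℕ} (hp : Par m n q l) (hM : M + 1 = m)
    (hD : D ≤ (w + 1) * (8 * m ^ 3)) :
    ∃ xx : Fin D → Fin D → Fin M, GoodX m q w xx := by
  have hm : 1728 ≤ m := by
    have h1 := hp.hP
    have h2 : 1 ≤ q ^ 14 := Nat.one_le_pow _ _ (by have := hp.hq; omega)
    have h3 : 1 ≤ l ^ 2 := Nat.one_le_pow _ _ hp.hl1
    have h4 : 10 ^ 15 * 1 * 1 ≤ 10 ^ 15 * q ^ 14 * l ^ 2 := by gcongr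
    omega
  have hM0 : 0 < M := by omega
  have hq : 0 < q := by have := hp.hq; omega
  have : Nonempty (Fin M) := ⟨⟨0, hM0⟩⟩
  set Z : ℝ := 2 ^ (M * m) * ((m : ℝ) ^ 3) ^ (m ^ 2) * (1 - 1 / (8 * (q : ℝ))) ^ (m ^ 3) with hZd
  have hx0 : (0 : ℝ) ≤ 1 - 1 / (8 * (q : ℝ)) := by
    have hq1 : (1 : ℝ) ≤ q := by exact_mod_cast hq
    have : 1 / (8 * (q : ℝ)) ≤ 1 := by
      rw [div_le_one (by positivity)]; linarith
    linarith
  have hZ0 : 0 ≤ Z := by
    rw [hZd]
    exact mul_nonneg (by positivity) (pow_nonneg hx0 _)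
  have hsum := lb_sum (D := D) (m := m) (w := w) (by omega) hD Z hZ0 (lb_num hp hM)
  obtain ⟨xx, hxx⟩ := union_bound (Ω := Fin D → Fin D → Fin M)
    (T := Fin m × Fin m → Fin w → Option (Fin D))
    (fun K xx =>
      ((∀ g, PM (K g)) ∧
        (∀ i ∈ usd K, (univ.filter (fun g => (K g i).isSome = true)).card = m) ∧
        (usd K).Nonempty ∧ w ≤ 4 * (usd K).card) ∧
      (∀ i g g' k, K g i = some k → K g' i = some k → g = g') ∧
      ∃ (Q : Fin m × Fin m → Fin w → Finset (Fin M)) (Θ : Fin w → Finset (Fin D)),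
        (∀ g i, (K g i).isSome = true → M ≤ 8 * q * (Q g i).card) ∧
        (∀ i ∈ usd K, (Θ i).card = m ^ 2 ∧
          ∀ j ∈ Θ i, 8 ∣ (j : ℕ) ∧ (j : ℕ) / (8 * m ^ 3) = i) ∧
        ∀ g i k j, K g i = some k → j ∈ Θ i → xx k j ∉ Q g i)
    (fun K => if ((∀ g, PM (K g)) ∧
        (∀ i ∈ usd K, (univ.filter (fun g => (K g i).isSome = true)).card = m) ∧
        (usd K).Nonempty ∧ w ≤ 4 * (usd K).card) then Z ^ (usd K).card else 0)
    (by
      intro K
      by_cases hK : ((∀ g, PM (K g)) ∧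
        (∀ i ∈ usd K, (univ.filter (fun g => (K g i).isSome = true)).card = m) ∧
        (usd K).Nonempty ∧ w ≤ 4 * (usd K).card)
      · by_cases hK1 : ∀ i g g' k, K g i = some k → K g' i = some k → g = g'
        · rw [if_pos hK]
          have := lb_fixed (M := M) hq hM hM0 K hK1 hK.2.1
          refine le_trans ?_ this
          exact_mod_cast card_le_card (by
            intro ω hω
            simp only [mem_filter, mem_univ, true_and] at hω ⊢
            exact hω.2.2)
        · exact lbd_emp _ (fun ω h => hK1 h.2.1) _ (by rw [if_pos hK]; positivity)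
      · exact lbd_emp _ (fun ω h => hK h.1) _ (by rw [if_neg hK]; simp))
    (by
      rw [← sum_filter]
      exact hsum)
  refine ⟨xx, ?_⟩
  intro K Q Θ h1 h2 h3 h4 h5 h6 h7
  by_contra hcon
  apply hxx K
  refine ⟨⟨h1, h3, h4, h5⟩, h2, Q, Θ, h6, h7, ?_⟩
  intro g i k j hg hj hx
  exact hcon ⟨g, i, k, j, hg, hj, hx⟩

end Pool.Agent.Rey
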