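import Mathlib
import Pool.Agent.Rey.Defs

set_option autoImplicit false

namespace Pool.Agent.Rey

open Finset

/-- Section 3: a valid cell of a non-active row. If a sampled block contains a once used point of
a colour of `I0`, take such a point `a*` of maximal position over all sampled blocks; it is its
own representative, so there is a point `a'` of colour `b j` of level at least `1 + pos a*`, hence
in a sampled block, at position at least `pos a*`; it is a head by maximality. -/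
theorem ord_cell {D M m R h : ℕ} (sam : Fin D → Fin D → Fin h → Fin R)
    (xx : Fin D → Fin D → Fin M) (c : Fin D → Fin M → Fin m) (b : Fin D → Fin m) (a0 : Fin M)
    (I0 : Finset (Fin m)) (v : Fin D × (Fin m → Fin M)) (j : Fin D) (hj : ¬ 8 ∣ (j : ℕ))
    (hv : VAL (lv sam xx) c b a0 I0 v j) :
    (∀ p, sam v.1 j p ∉ gb R (c v.1) I0) ∨
      ∃ p, ∃ a ∈ hd R (c v.1) I0, c v.1 a = b j ∧ (a : ℕ) % R = (sam v.1 j p : ℕ) := by
  classical
  obtain ⟨hv1, hv2, hv3⟩ := hv
  by_cases hex : ∃ p, sam v.1 j p ∈ gb R (c v.1) I0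
  · right
    let T : Finset (Fin M) := univ.filter (fun a =>
      (∃ p, (sam v.1 j p : ℕ) = (a : ℕ) % R) ∧ c v.1 a ∈ I0 ∧ cnt (c v.1) (c v.1 a) = 1)
    have hT : T.Nonempty := by
      obtain ⟨p, hp⟩ := hex
      obtain ⟨a, ha1, ha2, ha3⟩ := (mem_filter.1 hp).2
      exact ⟨a, mem_filter.2 ⟨mem_univ _, ⟨p, ha1.symm⟩, ha2, ha3⟩⟩
    obtain ⟨s, hs, hmax⟩ := T.exists_max_image (fun a : Fin M => (a : ℕ) / R) hT
    obtain ⟨-, hs1, hs2, hs3⟩ := mem_filter.1 hs
    have hsv : v.2 (c v.1 s) = s := by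
      have h1 : v.2 (c v.1 s) ∈ univ.filter (fun a => c v.1 a = c v.1 s) :=
        mem_filter.2 ⟨mem_univ _, hv1 _ hs2⟩
      have h2 : s ∈ univ.filter (fun a => c v.1 a = c v.1 s) :=
        mem_filter.2 ⟨mem_univ _, rfl⟩
      exact Finset.card_le_one.1 (le_of_eq hs3) _ h1 _ h2
    obtain ⟨a', ha', hlev⟩ := hv3 (c v.1 s) hs2
    rw [hsv] at hlev
    have h1 : lv sam xx v.1 j s = 1 + (s : ℕ) / R := by
      unfold lv
      rw [if_neg hj, if_pos hs1]
    have h2 : ∃ p, (sam v.1 j p : ℕ) = (a' : ℕ) % R := by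
      by_contra hcon
      have h3 : lv sam xx v.1 j a' = 0 := by
        unfold lv
        rw [if_neg hj, if_neg hcon]
      rw [h1, h3] at hlev
      exact absurd hlev (Nat.not_le.2 (Nat.lt_of_lt_of_le Nat.zero_lt_one (Nat.le_add_right 1 _)))
    have h3 : lv sam xx v.1 j a' = 1 + (a' : ℕ) / R := by
      unfold lv
      rw [if_neg hj, if_pos h2]
    obtain ⟨p, hp⟩ := h2
    refine ⟨p, a', ?_, ha', hp.symm⟩
    refine mem_filter.2 ⟨mem_univ _, ?_⟩
    intro a'' hmod hlt hI hc1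
    have h4 : a'' ∈ T := mem_filter.2 ⟨mem_univ _, ⟨p, by rw [hmod]; exact hp⟩, hI, hc1⟩
    have h5 : (a'' : ℕ) / R ≤ (s : ℕ) / R := hmax a'' h4
    rw [h1, h3] at hlev
    omega
  · left
    intro p hp
    exact hex ⟨p, hp⟩

/-- A valid cell of an active row: the marked point is no representative of a colour other than
`b j`. -/
theorem act_cell {D M m R h : ℕ} (sam : Fin D → Fin D → Fin h → Fin R)
    (xx : Fin D → Fin D → Fin M) (c : Fin D → Fin M → Fin m) (b : Fin D → Fin m) (a0 : Fin M)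
    (I0 : Finset (Fin m)) (v : Fin D × (Fin m → Fin M)) (j : Fin D) (hj : 8 ∣ (j : ℕ))
    (hv : VAL (lv sam xx) c b a0 I0 v j) (A : Fin m) (hA : A ∈ I0) (hAb : A ≠ b j) :
    xx v.1 j ≠ v.2 A := by
  obtain ⟨hv1, hv2, hv3⟩ := hv
  intro hxx
  obtain ⟨a, ha, hlev⟩ := hv3 A hA
  have h1 : lv sam xx v.1 j (v.2 A) = 1 := by
    unfold lv
    rw [if_pos hj, if_pos hxx.symm]
  rw [h1] at hlev
  have h2 : a = xx v.1 j := by
    by_contra hcon
    have h3 : lv sam xx v.1 j a = 0 := by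
      unfold lv
      rw [if_pos hj, if_neg hcon]
    rw [h3] at hlev
    omega
  apply hAb
  rw [← hv1 A hA, ← hxx, ← h2, ha]

end Pool.Agent.Rey
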