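import Mathlib
import Pool.Agent.Rey.Clus
import Pool.Agent.Rey.Defs
import Pool.Agent.Rey.Env
import Pool.Agent.Rey.Ord

set_option autoImplicit false

namespace Pool.Agent.Rey

open Finset
open scoped Classical

/-- The set `H` of triples (cluster, colour, block) coming from heads of ordinary clusters. -/
noncomputable def HH {D M m : ℕ} (R E1 : ℕ) (c : Fin D → Fin M → Fin m) (I : Finset (Fin m)) :
    Finset (Fin D × Fin m × Fin R) :=
  univ.filter (fun x => (mis (c x.1)).card ≤ E1 ∧
    ∃ a ∈ hd R (c x.1) I, c x.1 a = x.2.1 ∧ (a : ℕ) % R = (x.2.2 : ℕ))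

theorem HH_card {D M m : ℕ} (R E1 : ℕ) (c : Fin D → Fin M → Fin m) (I : Finset (Fin m)) :
    (HH R E1 c I).card ≤ hds R E1 c I := by
  unfold hds
  rw [← Finset.card_sigma]
  set T := (univ.filter (fun k => (mis (c k)).card ≤ E1)).sigma (fun k => hd R (c k) I) with hT
  have h1 : (HH R E1 c I).card
      = ((HH R E1 c I).image (fun x => (x.1, x.2.1, (x.2.2 : ℕ)))).card := by
    symm
    apply Finset.card_image_of_injective
    rintro ⟨k, β, r⟩ ⟨k', β', r'⟩ h
    simp only [Prod.mk.injEq] at h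
    obtain ⟨h1, h2, h3⟩ := h
    subst h1
    subst h2
    have := Fin.ext h3
    subst this
    rfl
  have h2 : ((HH R E1 c I).image (fun x => (x.1, x.2.1, (x.2.2 : ℕ)))) ⊆
      T.image (fun y => (y.1, c y.1 y.2, (y.2 : ℕ) % R)) := by
    intro z hz
    rw [Finset.mem_image] at hz
    obtain ⟨⟨k, β, r⟩, hx, rfl⟩ := hz
    simp only [HH, mem_filter, mem_univ, true_and] at hx
    obtain ⟨h3, a, ha, h4, h5⟩ := hx
    rw [Finset.mem_image]
    refine ⟨⟨k, a⟩, ?_, ?_⟩
    · rw [hT]
      simp only [mem_sigma, mem_filter, mem_univ, true_and]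
      exact ⟨h3, ha⟩
    · simp only [h4, h5]
  rw [h1]
  exact (Finset.card_le_card h2).trans Finset.card_image_le

/-- CASE A. `env_apply` with `Y = n / 2`; `F i j := some (f i j).1` if `b j ∈ I0`, `j` is
non-active and the column is ordinary; `G k := gb` if `k` is ordinary and meets all colours of `I0`,
`univ` otherwise (`gb_ge`); `H := HH` (`HH_card`, `head_blocks`); `ord_cell` contradicts the
conclusion of `GoodSam`, so `sum over i of card (dm (F i)) < pN`, hence
`96 q^2 * card (dm (F i)) < D` for some `i ≤ Y`. -/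
theorem caseA {D M m n q l : ℕ} (hp : Par m n q l) (hM : M + 1 = m) (hD : 2 ≤ D)
    (sam : Fin D → Fin D → Fin (ph q) → Fin (pR q l))
    (hs : GoodSam m q (pE q l) (pH q l D) (pN n q D) (n / 2) sam)
    (xx : Fin D → Fin D → Fin M) (c : Fin D → Fin M → Fin m) (b : Fin D → Fin m)
    (hb : ∀ k a, c k a ≠ b k) (a0 : Fin M)
    (hwin : ∀ I : Finset (Fin m), I.card ≤ n → Win (lv sam xx) c I) (I0 : Finset (Fin m))
    (hI0 : Suit q n (pR q l) (pE q l) (pH q l D) (pV m q D) c I0) :
    ∃ f : Fin D → Fin D × (Fin m → Fin M),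
      (∀ j j', b j ∈ I0 → b j' ∈ I0 → j ≤ j' → (f j).1 ≤ (f j').1) ∧
      (∀ j j' j'', b j ∈ I0 → b j' ∈ I0 → b j'' ∈ I0 → j ≤ j' → j' ≤ j'' →
        f j = f j'' → f j' = f j) ∧
      (∀ j, b j ∈ I0 → VAL (lv sam xx) c b a0 I0 (f j) j) ∧
      96 * q ^ 2 * (univ.filter (fun j : Fin D => b j ∈ I0 ∧ ¬ 8 ∣ (j : ℕ) ∧
        (mis (c (f j).1)).card ≤ pE q l)).card < D := by
  have hq8 := hp.hq
  obtain ⟨hS1, hS2, hS3, hS4⟩ := hI0
  obtain ⟨f, hf1, hf2, hf3, hf4⟩ := env_apply (lv sam xx) c b hb a0 I0 (n / 2)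
    (by
      intro I hI
      apply hwin
      omega)
  set F : Fin (n / 2 + 1) → Fin D → Option (Fin D) := fun i j =>
    if (b j ∈ I0 ∧ ¬ 8 ∣ (j : ℕ) ∧ (mis (c (f i j).1)).card ≤ pE q l) then some (f i j).1 else none
    with hF
  have hFs : ∀ i j k, F i j = some k →
      (b j ∈ I0 ∧ ¬ 8 ∣ (j : ℕ) ∧ (mis (c (f i j).1)).card ≤ pE q l) ∧ (f i j).1 = k := by
    intro i j k h
    simp only [hF] at h
    split_ifs at h with h1
    exact ⟨h1, by simpa using h⟩
  have hdm : ∀ i, dm (F i) = univ.filter (fun j : Fin D => b j ∈ I0 ∧ ¬ 8 ∣ (j : ℕ) ∧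
        (mis (c (f i j).1)).card ≤ pE q l) := by
    intro i
    unfold dm
    ext j
    simp only [mem_filter, mem_univ, true_and, hF]
    split_ifs with h1
    · simp [h1]
    · simpa using h1
  have hsmall : ∑ i, (dm (F i)).card < pN n q D := by
    by_contra hcon
    push Not at hcon
    have hstrict : ∀ i i' : ℕ, i < i' → i' ≤ n / 2 → ∀ j, b j ∈ I0 → (f i j).1 < (f i' j).1 := by
      intro i i' hii'
      induction i', hii' using Nat.le_induction with
      | base =>
        intro hi j hj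
        exact hf4 i (by omega) j hj
      | succ k hk ih =>
        intro hi j hj
        exact lt_trans (ih (by omega) j hj) (hf4 k (by omega) j hj)
    obtain ⟨i, j, k, hk, ⟨p, hp1⟩, hp2⟩ := hs b
      (fun k => if (mis (c k)).card ≤ pE q l ∧ (∀ A ∈ I0, ∃ a, c k a = A)
        then gb (pR q l) (c k) I0 else univ)
      (HH (pR q l) (pE q l) c I0) F
      (by
        intro k
        split_ifs with h1
        · exact gb_ge (c k) hp hM I0 h1.2 hS1 h1.1
        · simp only [card_univ, Fintype.card_fin]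
          nlinarith)
      ((HH_card _ _ c I0).trans hS3)
      (by
        intro k β
        by_cases h1 : (mis (c k)).card ≤ pE q l
        · refine le_trans ?_ h1
          refine le_trans (card_le_card ?_) (head_blocks (c k) hM (pR q l) I0 β)
          intro r hr
          simp only [HH, mem_filter, mem_univ, true_and] at hr ⊢
          obtain ⟨_, a, ha, ha1, ha2⟩ := hr
          exact ⟨a, ha, ha1, ha2⟩
        · have : (univ.filter (fun r : Fin (pR q l) => (k, β, r) ∈ HH (pR q l) (pE q l) c I0))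
              = ∅ := by
            apply filter_eq_empty_iff.mpr
            intro r _ hr
            simp only [HH, mem_filter, mem_univ, true_and] at hr
            exact h1 hr.1
          rw [this]
          simp)
      (by
        intro i i1 i2 k1 k2 hi h1 h2
        obtain ⟨⟨ha, _, _⟩, h1'⟩ := hFs _ _ _ h1
        obtain ⟨⟨hb', _, _⟩, h2'⟩ := hFs _ _ _ h2
        rw [← h1', ← h2']
        exact hf1 i (by omega) i1 i2 ha hb' hi)
      (by
        intro i i' j k h1 h2
        obtain ⟨⟨ha, _, _⟩, h1'⟩ := hFs _ _ _ h1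
        obtain ⟨⟨hb', _, _⟩, h2'⟩ := hFs _ _ _ h2
        rcases lt_trichotomy (i : ℕ) (i' : ℕ) with h | h | h
        · exfalso
          have := hstrict i i' h (by omega) j ha
          rw [h1', h2'] at this
          exact lt_irrefl _ this
        · exact Fin.ext h
        · exfalso
          have := hstrict i' i h (by omega) j ha
          rw [h1', h2'] at this
          exact lt_irrefl _ this)
      hcon
    obtain ⟨⟨ha, h8, hmis⟩, hk'⟩ := hFs _ _ _ hk
    have hval := hf3 i (by omega) j ha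
    subst hk'
    have hall : ∀ A ∈ I0, ∃ a, c (f i j).1 a = A := fun A hA => ⟨_, hval.1 A hA⟩
    rw [if_pos ⟨hmis, hall⟩] at hp1
    rcases ord_cell sam xx c b a0 I0 (f i j) j h8 hval with h | ⟨p', a, ha1, ha2, ha3⟩
    · exact h p hp1
    · apply hp2 p'
      simp only [HH, mem_filter, mem_univ, true_and]
      exact ⟨hmis, a, ha1, ha2, ha3⟩
  have hex : ∃ i : Fin (n / 2 + 1), 96 * q ^ 2 * (dm (F i)).card < D := by
    by_contra hcon
    push Not at hcon
    have h1 : (n / 2 + 1) * D ≤ 96 * q ^ 2 * ∑ i, (dm (F i)).card := by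
      calc (n / 2 + 1) * D = ∑ i : Fin (n / 2 + 1), D := by
            rw [sum_const, card_univ, Fintype.card_fin, smul_eq_mul]
        _ ≤ ∑ i, 96 * q ^ 2 * (dm (F i)).card := sum_le_sum (fun i _ => hcon i)
        _ = _ := by rw [mul_sum]
    have h2 := Nat.lt_ceil.mp hsmall
    have hqpos : (0 : ℝ) < 96 * (q : ℝ) ^ 2 := by
      have : (0 : ℝ) < q := by exact_mod_cast (by omega : 0 < q)
      positivity
    rw [lt_div_iff₀ hqpos] at h2
    have h3 : (((n / 2 + 1) * D : ℕ) : ℝ) ≤ ((96 * q ^ 2 * ∑ i, (dm (F i)).card : ℕ) : ℝ) := by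
      exact_mod_cast h1
    push_cast at h2 h3
    linarith
  obtain ⟨i, hi⟩ := hex
  refine ⟨f i, hf1 i (by omega), hf2 i (by omega), hf3 i (by omega), ?_⟩
  rw [← hdm i]
  exact hi

end Pool.Agent.Rey
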