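import Mathlib
import Pool.Agent.Rey.Cnt
import Pool.Agent.Rey.Defs

set_option autoImplicit false

namespace Pool.Agent.Rey

open Finset
open scoped Classical

-- MODULE ga
/-- One cell: the samples avoid `G` or hit the set `Hb`. -/
theorem one_cell {h R E1 q : ℕ} (hR : 0 < R) (hq : 0 < q) (G Hb : Finset (Fin R))
    (hG : R ≤ 16 * q * G.card) (hH : Hb.card ≤ E1) :
    ((univ.filter (fun s : Fin h → Fin R => (∀ p, s p ∉ G) ∨ ∃ p, s p ∈ Hb)).card : ℝ)
      ≤ ((1 - 1 / (16 * (q : ℝ))) ^ h + h * E1 / R) * Fintype.card (Fin h → Fin R) := by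
  have hqR : (1 : ℝ) ≤ q := by exact_mod_cast hq
  have hRR : (0 : ℝ) < R := by exact_mod_cast hR
  have h1 : ((univ.filter (fun s : Fin h → Fin R => ∀ p, s p ∉ G)).card : ℝ)
      ≤ (1 - 1 / (16 * (q : ℝ))) ^ h * Fintype.card (Fin h → Fin R) := by
    have := card_cells (K := Fin h) (α := Fin R) univ (fun _ => Gᶜ)
      (1 - 1 / (16 * (q : ℝ))) (by
        rw [sub_nonneg, div_le_one (by positivity)]; linarith) (by
        intro z _
        rw [card_compl, Fintype.card_fin, Nat.cast_sub (by simpa using card_le_univ G)]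
        have : (R : ℝ) ≤ 16 * q * G.card := by exact_mod_cast hG
        have h2 : (R : ℝ) / (16 * q) ≤ G.card := by
          rw [div_le_iff₀ (by positivity)]; linarith
        have : (1 - 1 / (16 * (q : ℝ))) * R = R - R / (16 * q) := by ring
        rw [this]; linarith)
    simp only [mem_univ, forall_true_left, mem_compl, card_univ, Fintype.card_fin] at this
    rw [Fintype.card_fun, Fintype.card_fin, Fintype.card_fin]
    push_cast
    exact this
  have h2 : ∀ p : Fin h, ((univ.filter (fun s : Fin h → Fin R => s p ∈ Hb)).card : ℝ)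
      ≤ E1 / R * Fintype.card (Fin h → Fin R) := by
    intro p
    have := card_cells (K := Fin h) (α := Fin R) {p} (fun _ => Hb)
      ((E1 : ℝ) / R) (by positivity) (by
        intro z _
        rw [Fintype.card_fin, div_mul_cancel₀ _ hRR.ne']
        exact_mod_cast hH)
    simp only [mem_singleton, forall_eq, card_singleton, pow_one, Fintype.card_fin] at this
    rw [Fintype.card_fun, Fintype.card_fin, Fintype.card_fin]
    push_cast
    exact this
  have h3 : (univ.filter (fun s : Fin h → Fin R => (∀ p, s p ∉ G) ∨ ∃ p, s p ∈ Hb)) ⊆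
      (univ.filter (fun s : Fin h → Fin R => ∀ p, s p ∉ G)) ∪
        (univ : Finset (Fin h)).biUnion (fun p => univ.filter (fun s : Fin h → Fin R => s p ∈ Hb)) := by
    intro s hs
    simp only [mem_filter, mem_univ, true_and, mem_union, mem_biUnion] at hs ⊢
    exact hs
  have h4 := (card_le_card h3).trans (card_union_le _ _)
  have h5 : (((univ : Finset (Fin h)).biUnion
      (fun p => univ.filter (fun s : Fin h → Fin R => s p ∈ Hb))).card : ℝ)
        ≤ h * (E1 / R * Fintype.card (Fin h → Fin R)) := by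
    have : (((univ : Finset (Fin h)).biUnion
      (fun p => univ.filter (fun s : Fin h → Fin R => s p ∈ Hb))).card : ℝ) ≤
        ∑ p : Fin h, ((univ.filter (fun s : Fin h → Fin R => s p ∈ Hb)).card : ℝ) := by
      exact_mod_cast card_biUnion_le
    refine this.trans ((sum_le_sum fun p _ => h2 p).trans ?_)
    simp
  have h6 : ((univ.filter (fun s : Fin h → Fin R => (∀ p, s p ∉ G) ∨ ∃ p, s p ∈ Hb)).card : ℝ) ≤
      ((univ.filter (fun s : Fin h → Fin R => ∀ p, s p ∉ G)).card : ℝ) +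
      (((univ : Finset (Fin h)).biUnion
      (fun p => univ.filter (fun s : Fin h → Fin R => s p ∈ Hb))).card : ℝ) := by
    exact_mod_cast h4
  calc _ ≤ _ := h6
    _ ≤ (1 - 1 / (16 * (q : ℝ))) ^ h * Fintype.card (Fin h → Fin R) +
        h * (E1 / R * Fintype.card (Fin h → Fin R)) := add_le_add h1 h5
    _ = _ := by ring
-- END ga

-- MODULE gb
private theorem gb_cells {D : ℕ} {α : Type} [Fintype α] [DecidableEq α]
    (Z : Finset (Fin D × Fin D)) (A : Fin D × Fin D → Finset α) (η : ℝ) (hη : 0 ≤ η)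
    (hA : ∀ z ∈ Z, ((A z).card : ℝ) ≤ η * Fintype.card α) :
    ((univ.filter (fun X : Fin D → Fin D → α => ∀ z ∈ Z, X z.1 z.2 ∈ A z)).card : ℝ)
      ≤ η ^ Z.card * Fintype.card (Fin D → Fin D → α) := by
  have h := card_cells Z A η hη hA
  have e : Fintype.card (Fin D → Fin D → α) = Fintype.card (Fin D × Fin D → α) :=
    Fintype.card_congr (Equiv.curry _ _ _).symm
  rw [e, Fintype.card_fun]
  push_cast
  refine le_trans (le_of_eq ?_) h
  norm_cast
  refine card_bij (fun X _ => fun z => X z.1 z.2) ?_ ?_ ?_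
  · intro X hX
    simpa using hX
  · intro X _ Y _ hXY
    funext a b
    exact congrFun hXY (a, b)
  · intro X hX
    refine ⟨fun a b => X (a, b), ?_, rfl⟩
    simpa using hX

/-- Fixed data: the cells `(F i j, j)` are distinct, so the failing probability is at most
`η ^ (sum of the domains)`. -/
theorem la_fixed {D m h R E1 q Y : ℕ} (hR : 0 < R) (hq : 0 < q) (b : Fin D → Fin m)
    (G : Fin D → Finset (Fin R)) (H : Finset (Fin D × Fin m × Fin R))
    (F : Fin (Y + 1) → Fin D → Option (Fin D)) (hG : ∀ k, R ≤ 16 * q * (G k).card)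
    (hH : ∀ k β, (univ.filter (fun r : Fin R => (k, β, r) ∈ H)).card ≤ E1)
    (hF : ∀ i i' j k, F i j = some k → F i' j = some k → i = i') (η : ℝ)
    (hη : (1 - 1 / (16 * (q : ℝ))) ^ h + h * E1 / R ≤ η) :
    ((univ.filter (fun sam : Fin D → Fin D → Fin h → Fin R => ∀ i j k, F i j = some k →
      (∀ p, sam k j p ∉ G k) ∨ ∃ p, (k, b j, sam k j p) ∈ H)).card : ℝ)
      ≤ η ^ (∑ i, (dm (F i)).card) * Fintype.card (Fin D → Fin D → Fin h → Fin R) := by
  have hqR : (1 : ℝ) ≤ q := by exact_mod_cast hq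
  have hRR : (0 : ℝ) < R := by exact_mod_cast hR
  have h0 : 0 ≤ η := by
    refine le_trans ?_ hη
    have : (0 : ℝ) ≤ 1 - 1 / (16 * (q : ℝ)) := by
      rw [sub_nonneg, div_le_one (by positivity)]; linarith
    positivity
  set Z : Finset (Fin D × Fin D) := univ.filter (fun z => ∃ i, F i z.2 = some z.1) with hZ
  have hc : Z.card = ∑ i, (dm (F i)).card := by
    rw [← card_sigma]
    symm
    refine card_bij (fun x _ => ((F x.1 x.2).getD x.2, x.2)) ?_ ?_ ?_
    · rintro ⟨i, j⟩ hx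
      simp only [mem_sigma, mem_univ, true_and, dm, mem_filter] at hx
      obtain ⟨k, hk⟩ := Option.isSome_iff_exists.1 hx
      simp only [hZ, mem_filter, mem_univ, true_and]
      exact ⟨i, by rw [hk]; rfl⟩
    · rintro ⟨i, j⟩ hx ⟨i', j'⟩ hx' he
      simp only [mem_sigma, mem_univ, true_and, dm, mem_filter] at hx hx'
      obtain ⟨k, hk⟩ := Option.isSome_iff_exists.1 hx
      obtain ⟨k', hk'⟩ := Option.isSome_iff_exists.1 hx'
      simp only [hk, hk', Option.getD_some, Prod.mk.injEq] at he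
      obtain ⟨h1, h2⟩ := he
      subst h1; subst h2
      have := hF i i' j k hk hk'
      subst this
      rfl
    · rintro ⟨k, j⟩ hz
      simp only [hZ, mem_filter, mem_univ, true_and] at hz
      obtain ⟨i, hi⟩ := hz
      refine ⟨⟨i, j⟩, ?_, ?_⟩
      · simp only [mem_sigma, mem_univ, true_and, dm, mem_filter, hi, Option.isSome_some]
      · simp only [hi, Option.getD_some]
  have hA : ∀ z ∈ Z, (((univ.filter (fun s : Fin h → Fin R => (∀ p, s p ∉ G z.1) ∨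
      ∃ p, s p ∈ (univ.filter (fun r : Fin R => (z.1, b z.2, r) ∈ H)))).card : ℕ) : ℝ) ≤
        η * Fintype.card (Fin h → Fin R) := by
    intro z _
    refine (one_cell hR hq _ _ (hG z.1) (hH z.1 (b z.2))).trans ?_
    exact mul_le_mul_of_nonneg_right hη (by positivity)
  have := gb_cells Z _ η h0 hA
  rw [hc] at this
  refine le_trans ?_ this
  norm_cast
  refine card_le_card ?_
  intro X hX
  simp only [mem_filter, mem_univ, true_and] at hX ⊢
  rintro ⟨k, j⟩ hz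
  simp only [hZ, mem_filter, mem_univ, true_and] at hz
  obtain ⟨i, hi⟩ := hz
  exact hX i j k hi
-- END gb

-- MODULE gc
/-- Sum over the partial monotone maps. -/
theorem la_sum (D Y N0 : ℕ) (a ξ : ℝ) (h0 : 0 < a) (h1 : a < 1) (x0 : 0 < ξ) (x1 : ξ ≤ 1) :
    ∑ F ∈ univ.filter (fun F : Fin (Y + 1) → Fin D → Option (Fin D) =>
      (∀ i, PM (F i)) ∧ N0 ≤ ∑ i, (dm (F i)).card), (a ^ 2 * ξ) ^ (∑ i, (dm (F i)).card)
      ≤ ((1 + a) ^ D * ((1 - a)⁻¹) ^ D) ^ (Y + 1) * ξ ^ N0 := by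
  have hb := cnt_pm D D a h0 h1
  set P : Finset (Fin D → Option (Fin D)) := univ.filter (fun f => PM f) with hP
  calc ∑ F ∈ univ.filter (fun F : Fin (Y + 1) → Fin D → Option (Fin D) =>
      (∀ i, PM (F i)) ∧ N0 ≤ ∑ i, (dm (F i)).card), (a ^ 2 * ξ) ^ (∑ i, (dm (F i)).card)
      ≤ ∑ F ∈ univ.filter (fun F : Fin (Y + 1) → Fin D → Option (Fin D) =>
      (∀ i, PM (F i)) ∧ N0 ≤ ∑ i, (dm (F i)).card), (∏ i, a ^ (2 * (dm (F i)).card)) * ξ ^ N0 := by
        refine sum_le_sum fun F hF => ?_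
        simp only [mem_filter, mem_univ, true_and] at hF
        rw [mul_pow, ← pow_mul, prod_pow_eq_pow_sum, mul_sum]
        exact mul_le_mul_of_nonneg_left (pow_le_pow_of_le_one x0.le x1 hF.2) (by positivity)
    _ = (∑ F ∈ univ.filter (fun F : Fin (Y + 1) → Fin D → Option (Fin D) =>
      (∀ i, PM (F i)) ∧ N0 ≤ ∑ i, (dm (F i)).card), (∏ i, a ^ (2 * (dm (F i)).card))) * ξ ^ N0 := by
        rw [sum_mul]
    _ ≤ (∑ F ∈ Fintype.piFinset (fun _ : Fin (Y + 1) => P),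
          ∏ i, a ^ (2 * (dm (F i)).card)) * ξ ^ N0 := by
        refine mul_le_mul_of_nonneg_right ?_ (by positivity)
        refine sum_le_sum_of_subset_of_nonneg ?_ (fun _ _ _ => by positivity)
        intro F hF
        simp only [mem_filter, mem_univ, true_and, Fintype.mem_piFinset, hP] at hF ⊢
        exact hF.1
    _ = (∏ _i : Fin (Y + 1), ∑ f ∈ P, a ^ (2 * (dm f).card)) * ξ ^ N0 := by
        rw [prod_univ_sum]
    _ = (∑ f ∈ P, a ^ (2 * (dm f).card)) ^ (Y + 1) * ξ ^ N0 := by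
        rw [prod_const, card_univ, Fintype.card_fin]
    _ ≤ _ := by
        refine mul_le_mul_of_nonneg_right ?_ (by positivity)
        exact pow_le_pow_left₀ (sum_nonneg fun _ _ => by positivity) hb _
-- END gc

/-- LEMMA A, abstract numbers. -/
theorem lemA {D m h R E1 q Hmax N0 Y : ℕ} (hR : 0 < R) (hq : 0 < q) (hm : 0 < m) (a ξ : ℝ)
    (h0 : 0 < a) (h1 : a < 1) (x0 : 0 < ξ) (x1 : ξ ≤ 1)
    (hη : (1 - 1 / (16 * (q : ℝ))) ^ h + h * E1 / R ≤ a ^ 2 * ξ)
    (hsum : (m : ℝ) ^ D * 2 ^ (R * D) * (((m * R : ℕ) : ℝ) ^ Hmax * Real.exp D) *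
      (((1 + a) ^ D * ((1 - a)⁻¹) ^ D) ^ (Y + 1) * ξ ^ N0) < 1) :
    ∃ sam : Fin D → Fin D → Fin h → Fin R, GoodSam m q E1 Hmax N0 Y sam := by
  classical
  haveI : Nonempty (Fin R) := ⟨⟨0, hR⟩⟩
  let T := (Fin D → Fin m) × (Fin D → Finset (Fin R)) × (Finset (Fin D × Fin m × Fin R)) ×
    (Fin (Y + 1) → Fin D → Option (Fin D))
  let Cnd : T → Prop := fun t =>
    (∀ k, R ≤ 16 * q * (t.2.1 k).card) ∧ t.2.2.1.card ≤ Hmax ∧
    (∀ k β, (univ.filter (fun r : Fin R => (k, β, r) ∈ t.2.2.1)).card ≤ E1) ∧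
    (∀ i, PM (t.2.2.2 i)) ∧
    (∀ i i' j k, t.2.2.2 i j = some k → t.2.2.2 i' j = some k → i = i') ∧
    N0 ≤ ∑ i, (dm (t.2.2.2 i)).card
  let bad : T → (Fin D → Fin D → Fin h → Fin R) → Prop := fun t sam => Cnd t ∧
    ∀ i j k, t.2.2.2 i j = some k → (∀ p, sam k j p ∉ t.2.1 k) ∨ ∃ p, (k, t.1 j, sam k j p) ∈ t.2.2.1
  let pH' : Finset (Fin D × Fin m × Fin R) → ℝ := fun H => if H.card ≤ Hmax then 1 else 0
  let pF : (Fin (Y + 1) → Fin D → Option (Fin D)) → ℝ := fun F =>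
    if (∀ i, PM (F i)) ∧ N0 ≤ ∑ i, (dm (F i)).card then
      (a ^ 2 * ξ) ^ (∑ i, (dm (F i)).card) else 0
  let p : T → ℝ := fun t => pH' t.2.2.1 * pF t.2.2.2
  have haξ : 0 < a ^ 2 * ξ := by positivity
  have hpH0 : ∀ H, 0 ≤ pH' H := by intro H; simp only [pH']; split_ifs <;> norm_num
  have hpF0 : ∀ F, 0 ≤ pF F := by
    intro F; simp only [pF]; split_ifs
    · positivity
    · exact le_refl _
  have hbad : ∀ t, ((univ.filter (fun ω => bad t ω)).card : ℝ)
      ≤ p t * Fintype.card (Fin D → Fin D → Fin h → Fin R) := by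
    intro t
    by_cases hC : Cnd t
    · obtain ⟨c1, c2, c3, c4, c5, c6⟩ := hC
      have hp : p t = (a ^ 2 * ξ) ^ (∑ i, (dm (t.2.2.2 i)).card) := by
        have e1 : pH' t.2.2.1 = 1 := by simp only [pH']; rw [if_pos c2]
        have e2 : pF t.2.2.2 = (a ^ 2 * ξ) ^ (∑ i, (dm (t.2.2.2 i)).card) := by
          simp only [pF]; rw [if_pos ⟨c4, c6⟩]
        simp only [p]; rw [e1, e2, one_mul]
      rw [hp]
      refine le_trans ?_ (la_fixed hR hq t.1 t.2.1 t.2.2.1 t.2.2.2 c1 c3 c5 (a ^ 2 * ξ) hη)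
      refine Nat.cast_le.2 (card_le_card ?_)
      intro ω hω
      rw [mem_filter] at hω ⊢
      exact ⟨mem_univ _, hω.2.2⟩
    · have : univ.filter (fun ω => bad t ω) = ∅ := by
        rw [filter_eq_empty_iff]
        intro ω _ hω
        exact hC hω.1
      rw [this, card_empty, Nat.cast_zero]
      exact mul_nonneg (mul_nonneg (hpH0 _) (hpF0 _)) (Nat.cast_nonneg _)
  have hcardT : ∑ t : T, p t = (m : ℝ) ^ D * 2 ^ (R * D) * (∑ H, pH' H) * (∑ F, pF F) := by
    have e1 : ∑ t : T, p t = ∑ _b : (Fin D → Fin m), ∑ _G : (Fin D → Finset (Fin R)),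
        ∑ H : Finset (Fin D × Fin m × Fin R), ∑ F, pH' H * pF F := by
      rw [Fintype.sum_prod_type]
      refine sum_congr rfl (fun b _ => ?_)
      rw [Fintype.sum_prod_type]
      refine sum_congr rfl (fun G _ => ?_)
      rw [Fintype.sum_prod_type]
    rw [e1]
    have e2 : ∑ H : Finset (Fin D × Fin m × Fin R), ∑ F, pH' H * pF F
        = (∑ H, pH' H) * (∑ F, pF F) := by
      rw [sum_mul_sum]
    rw [e2, sum_const, sum_const]
    simp only [card_univ, Fintype.card_fun, Fintype.card_fin, Fintype.card_finset, nsmul_eq_mul]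
    push_cast
    rw [pow_mul]
    ring
  have hH : ∑ H, pH' H ≤ ((m * R : ℕ) : ℝ) ^ Hmax * Real.exp D := by
    have e : ∑ H, pH' H = ((univ.filter (fun H : Finset (Fin D × Fin m × Fin R) =>
        H.card ≤ Hmax)).card : ℝ) := by
      simp only [pH']
      rw [sum_boole]
    rw [e]
    refine card_small Hmax (m * R) D (Nat.mul_pos hm hR) ?_
    simp only [Fintype.card_prod, Fintype.card_fin]
    exact le_of_eq (Nat.mul_comm _ _)
  have hF : ∑ F, pF F ≤ ((1 + a) ^ D * ((1 - a)⁻¹) ^ D) ^ (Y + 1) * ξ ^ N0 := by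
    have e : ∑ F, pF F = ∑ F ∈ univ.filter (fun F : Fin (Y + 1) → Fin D → Option (Fin D) =>
        (∀ i, PM (F i)) ∧ N0 ≤ ∑ i, (dm (F i)).card), (a ^ 2 * ξ) ^ (∑ i, (dm (F i)).card) := by
      rw [sum_filter]
    rw [e]
    exact la_sum D Y N0 a ξ h0 h1 x0 x1
  have hs : ∑ t, p t < 1 := by
    rw [hcardT]
    refine lt_of_le_of_lt ?_ hsum
    refine mul_le_mul (mul_le_mul_of_nonneg_left hH (by positivity)) hF
      (sum_nonneg (fun F _ => hpF0 F)) (by positivity)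
  obtain ⟨sam, hsam⟩ := union_bound bad p hbad hs
  refine ⟨sam, ?_⟩
  intro b G H F c1 c2 c3 c4 c5 c6
  by_contra hcon
  refine hsam (b, G, H, F) ⟨⟨c1, c2, c3, c4, c5, c6⟩, ?_⟩
  intro i j k hk
  by_contra hcon2
  push Not at hcon2
  exact hcon ⟨i, j, k, hk, hcon2.1, hcon2.2⟩

/-- Numbers of Lemma A, first part: `exp(-25 q) ≤ η/2`, `h E1 / R ≤ η/2`. -/
theorem la_num1 {m n q l : ℕ} (hp : Par m n q l) :
    (1 - 1 / (16 * (q : ℝ))) ^ (ph q) + (ph q : ℝ) * (pE q l : ℕ) / (pR q l : ℕ)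
      ≤ (1 / (576 * (q : ℝ) ^ 2)) ^ 2 * (1 / 3) := by
  have hq : (8 : ℝ) ≤ q := by exact_mod_cast hp.hq
  have hl : (1 : ℝ) ≤ l := by exact_mod_cast hp.hl1
  have hq0 : (0 : ℝ) < q := by linarith
  have hl0 : (0 : ℝ) < l := by linarith
  have e2 : (ph q : ℝ) * (pE q l : ℕ) / (pR q l : ℕ) = 1 / (2000000 * (q : ℝ) ^ 4) := by
    unfold ph pE pR
    push_cast
    field_simp
    norm_num
  have e3 : (1 / (576 * (q : ℝ) ^ 2)) ^ 2 * (1 / 3) = 1 / (995328 * (q : ℝ) ^ 4) := by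
    field_simp
    norm_num
  have e1 : (1 - 1 / (16 * (q : ℝ))) ^ (ph q) ≤ 1 / (2000000 * (q : ℝ) ^ 4) := by
    have hx : 1 / (16 * (q : ℝ)) ≤ 1 := by
      rw [div_le_one (by positivity)]
      linarith
    have s1 : (1 - 1 / (16 * (q : ℝ))) ≤ Real.exp (-(1 / (16 * (q : ℝ)))) := by
      have := Real.add_one_le_exp (-(1 / (16 * (q : ℝ))))
      linarith
    have s2 : (1 - 1 / (16 * (q : ℝ))) ^ (ph q) ≤ Real.exp (-(25 * (q : ℝ))) := by
      refine le_trans (pow_le_pow_left₀ (by linarith) s1 _) ?_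
      rw [← Real.exp_nat_mul]
      refine Real.exp_le_exp.2 (le_of_eq ?_)
      unfold ph
      push_cast
      field_simp
      norm_num
    refine le_trans s2 ?_
    rw [Real.exp_neg, ← one_div]
    refine one_div_le_one_div_of_le (by positivity) ?_
    have s3 : Real.exp (25 * (q : ℝ)) = Real.exp (21 * (q : ℝ)) * Real.exp (q : ℝ) ^ 4 := by
      rw [← Real.exp_nat_mul, ← Real.exp_add]
      congr 1
      push_cast
      ring
    rw [s3]
    have s4 : (q : ℝ) ^ 4 ≤ Real.exp (q : ℝ) ^ 4 := by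
      refine pow_le_pow_left₀ hq0.le ?_ 4
      have := Real.add_one_le_exp (q : ℝ)
      linarith
    have s5 : (2000000 : ℝ) ≤ Real.exp (21 * (q : ℝ)) := by
      have t1 : Real.exp 1 ^ 168 ≤ Real.exp (21 * (q : ℝ)) := by
        rw [← Real.exp_nat_mul]
        refine Real.exp_le_exp.2 ?_
        push_cast
        linarith
      have t2 : (2 : ℝ) ^ 168 ≤ Real.exp 1 ^ 168 := by
        refine pow_le_pow_left₀ (by norm_num) ?_ _
        have := Real.add_one_le_exp (1 : ℝ)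
        linarith
      have t3 : (2000000 : ℝ) ≤ 2 ^ 168 := by norm_num
      linarith
    exact mul_le_mul s5 s4 (by positivity) (Real.exp_pos _).le
  rw [e2, e3]
  have e4 : 1 / (2000000 * (q : ℝ) ^ 4) + 1 / (2000000 * (q : ℝ) ^ 4) ≤ 1 / (995328 * (q : ℝ) ^ 4) := by
    have : 1 / (2000000 * (q : ℝ) ^ 4) + 1 / (2000000 * (q : ℝ) ^ 4) = 1 / (1000000 * (q : ℝ) ^ 4) := by
      field_simp
      norm_num
    rw [this]
    refine one_div_le_one_div_of_le (by positivity) ?_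
    have : (0 : ℝ) < (q : ℝ) ^ 4 := by positivity
    linarith
  linarith

/-- Numbers of Lemma A, second part. Logarithms:
`D (ln m + R ln 2 + 400 q^3 R ln (m R) + 1) + (Y+1) D / (192 q^2) - N0 ln 3 < 0`,
with `N0 ≥ (Y+1) D / (96 q^2)`, `Y + 1 ≥ n/2 ≥ 4 m / q`, `R ≤ m`. -/
theorem la_num2 {m n q l D : ℕ} (hp : Par m n q l) (hD : 2 ≤ D) :
    (m : ℝ) ^ D * 2 ^ (pR q l * D) * (((m * pR q l : ℕ) : ℝ) ^ (pH q l D) * Real.exp D) *
      (((1 + 1 / (576 * (q : ℝ) ^ 2)) ^ D * ((1 - 1 / (576 * (q : ℝ) ^ 2))⁻¹) ^ D) ^ (n / 2 + 1)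
        * (1 / 3) ^ (pN n q D)) < 1 := by
  have hq : (8 : ℝ) ≤ q := by exact_mod_cast hp.hq
  have hl : (1 : ℝ) ≤ l := by exact_mod_cast hp.hl1
  have hq0 : (0 : ℝ) < q := by linarith
  have hl0 : (0 : ℝ) < l := by linarith
  have hD' : (2 : ℝ) ≤ D := by exact_mod_cast hD
  have hD0 : (0 : ℝ) < D := by linarith
  have hP : (10 : ℝ) ^ 15 * (q : ℝ) ^ 14 * (l : ℝ) ^ 2 ≤ m := by exact_mod_cast hp.hP
  have hqn : 8 * (m : ℝ) ≤ n * q := by exact_mod_cast hp.hqn
  have hm0 : (0 : ℝ) < m := lt_of_lt_of_le (by positivity) hP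
  have hml : (m : ℝ) ≤ Real.exp l := by
    rw [← Real.exp_log hm0]
    exact Real.exp_le_exp.2 hp.hl
  have hR0 : (0 : ℝ) ≤ (pR q l : ℝ) := Nat.cast_nonneg _
  have hRe : (pR q l : ℝ) = 8 * 10 ^ 9 * (q : ℝ) ^ 8 * l := by
    unfold pR; push_cast; ring
  have hq1 : (1 : ℝ) ≤ q := by linarith
  have hRm : (pR q l : ℝ) ≤ m := by
    refine le_trans ?_ hP
    rw [hRe]
    have a1 : (q : ℝ) ^ 8 ≤ (q : ℝ) ^ 14 := pow_le_pow_right₀ hq1 (by norm_num)
    have a2 : (l : ℝ) ≤ (l : ℝ) ^ 2 := by nlinarith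
    have a3 : (q : ℝ) ^ 8 * l ≤ (q : ℝ) ^ 14 * (l : ℝ) ^ 2 :=
      mul_le_mul a1 a2 hl0.le (by positivity)
    have a4 : 0 ≤ (q : ℝ) ^ 14 * (l : ℝ) ^ 2 := by positivity
    nlinarith
  -- the factors
  have f1 : (m : ℝ) ^ D ≤ Real.exp (D * l) := by
    rw [Real.exp_nat_mul]
    exact pow_le_pow_left₀ hm0.le hml D
  have f2 : (2 : ℝ) ^ (pR q l * D) ≤ Real.exp (pR q l * D) := by
    have : (2 : ℝ) ≤ Real.exp 1 := by
      have := Real.add_one_le_exp (1 : ℝ)
      linarith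
    calc (2 : ℝ) ^ (pR q l * D) ≤ Real.exp 1 ^ (pR q l * D) := pow_le_pow_left₀ (by norm_num) this _
      _ = Real.exp (pR q l * D) := by
          rw [← Real.exp_nat_mul]
          push_cast
          rw [mul_one]
  have f3 : ((m * pR q l : ℕ) : ℝ) ^ (pH q l D) ≤ Real.exp (pH q l D * (2 * l)) := by
    rw [Real.exp_nat_mul]
    refine pow_le_pow_left₀ (Nat.cast_nonneg _) ?_ _
    push_cast
    calc (m : ℝ) * (pR q l : ℝ) ≤ Real.exp l * Real.exp l :=
          mul_le_mul hml (le_trans hRm hml) hR0 (Real.exp_pos _).le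
      _ = Real.exp (2 * l) := by rw [← Real.exp_add]; congr 1; ring
  set a : ℝ := 1 / (576 * (q : ℝ) ^ 2) with ha
  have ha0 : 0 < a := by positivity
  have ha2 : a ≤ 1 / 2 := by
    rw [ha]
    refine one_div_le_one_div_of_le (by norm_num) ?_
    nlinarith
  have f4 : (1 + a) ^ D * ((1 - a)⁻¹) ^ D ≤ Real.exp (D * (3 * a)) := by
    rw [← mul_pow, Real.exp_nat_mul]
    refine pow_le_pow_left₀ (mul_nonneg (by linarith) (inv_nonneg.2 (by linarith))) ?_ _
    have g1 : 1 + a ≤ Real.exp a := by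
      have := Real.add_one_le_exp a
      linarith
    have g2 : (1 - a)⁻¹ ≤ Real.exp (2 * a) := by
      have h1 : (1 - a)⁻¹ ≤ 1 + 2 * a := by
        rw [inv_le_comm₀ (by linarith) (by linarith)]
        rw [inv_eq_one_div, div_le_iff₀ (by linarith)]
        nlinarith
      have := Real.add_one_le_exp (2 * a)
      linarith
    calc (1 + a) * (1 - a)⁻¹ ≤ Real.exp a * Real.exp (2 * a) :=
          mul_le_mul g1 g2 (inv_nonneg.2 (by linarith)) (Real.exp_pos _).le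
      _ = Real.exp (3 * a) := by rw [← Real.exp_add]; congr 1; ring
  have f5 : ((1 + a) ^ D * ((1 - a)⁻¹) ^ D) ^ (n / 2 + 1)
      ≤ Real.exp (((n / 2 + 1 : ℕ) : ℝ) * (D * (3 * a))) := by
    rw [Real.exp_nat_mul]
    exact pow_le_pow_left₀ (mul_nonneg (pow_nonneg (by linarith) _)
      (pow_nonneg (inv_nonneg.2 (by linarith)) _)) f4 _
  have f6 : (1 / 3 : ℝ) ^ (pN n q D) ≤ Real.exp (-(pN n q D : ℝ)) := by
    have : (1 / 3 : ℝ) ≤ Real.exp (-1) := by
      rw [Real.exp_neg, ← one_div]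
      refine one_div_le_one_div_of_le (Real.exp_pos _) ?_
      have := Real.exp_one_lt_d9
      linarith
    calc (1 / 3 : ℝ) ^ (pN n q D) ≤ Real.exp (-1) ^ (pN n q D) :=
          pow_le_pow_left₀ (by norm_num) this _
      _ = Real.exp (-(pN n q D : ℝ)) := by
          rw [← Real.exp_nat_mul]
          congr 1
          ring
  have hexp : (m : ℝ) ^ D * 2 ^ (pR q l * D) * (((m * pR q l : ℕ) : ℝ) ^ (pH q l D) * Real.exp D) *
      (((1 + a) ^ D * ((1 - a)⁻¹) ^ D) ^ (n / 2 + 1) * (1 / 3) ^ (pN n q D))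
      ≤ Real.exp (D * l + pR q l * D + (pH q l D * (2 * l) + D)
        + (((n / 2 + 1 : ℕ) : ℝ) * (D * (3 * a)) + -(pN n q D : ℝ))) := by
    rw [Real.exp_add, Real.exp_add (D * l + pR q l * D : ℝ), Real.exp_add (D * l : ℝ),
      Real.exp_add (pH q l D * (2 * l) : ℝ), Real.exp_add (((n / 2 + 1 : ℕ) : ℝ) * (D * (3 * a)))]
    refine mul_le_mul (mul_le_mul (mul_le_mul f1 f2 (by positivity) (Real.exp_pos _).le)
      (mul_le_mul_of_nonneg_right f3 (Real.exp_pos _).le) (by positivity) (by positivity))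
      (mul_le_mul f5 f6 (by positivity) (Real.exp_pos _).le) ?_ (by positivity)
    refine mul_nonneg (pow_nonneg (mul_nonneg (pow_nonneg (by linarith) _)
      (pow_nonneg (inv_nonneg.2 (by linarith)) _)) _) (by positivity)
  refine lt_of_le_of_lt hexp ?_
  rw [Real.exp_lt_one_iff]
  -- the exponent is negative
  have hT : (n : ℝ) / 2 ≤ ((n / 2 + 1 : ℕ) : ℝ) := by
    have : n ≤ 2 * (n / 2 + 1) := by omega
    have : (n : ℝ) ≤ 2 * ((n / 2 + 1 : ℕ) : ℝ) := by exact_mod_cast this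
    linarith
  set T : ℝ := ((n / 2 + 1 : ℕ) : ℝ) with hTdef
  have hN : T * D / (96 * (q : ℝ) ^ 2) ≤ (pN n q D : ℝ) := by
    unfold pN
    exact Nat.le_ceil _
  have hHe : (pH q l D : ℝ) = 400 * (q : ℝ) ^ 3 * (8 * 10 ^ 9 * (q : ℝ) ^ 8 * l) * D := by
    unfold pH
    push_cast
    rw [hRe]
  have hTm : 4 * (m : ℝ) / q ≤ T := by
    rw [div_le_iff₀ hq0]
    nlinarith
  have hTq : 10 ^ 15 / 48 * ((q : ℝ) ^ 11 * (l : ℝ) ^ 2) ≤ T / (192 * (q : ℝ) ^ 2) := by
    have h1 : 4 * (10 ^ 15 * (q : ℝ) ^ 14 * (l : ℝ) ^ 2) / q ≤ T := by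
      refine le_trans ?_ hTm
      exact div_le_div_of_nonneg_right (by linarith) hq0.le
    have h2 : (4 * (10 ^ 15 * (q : ℝ) ^ 14 * (l : ℝ) ^ 2) / q) / (192 * (q : ℝ) ^ 2)
        ≤ T / (192 * (q : ℝ) ^ 2) := div_le_div_of_nonneg_right h1 (by positivity)
    refine le_trans (le_of_eq ?_) h2
    field_simp
    norm_num
  have h3a : 3 * a = 1 / (192 * (q : ℝ) ^ 2) := by
    rw [ha]
    field_simp
    norm_num
  have hmain : D * l + pR q l * D + (pH q l D * (2 * l) + D) + (T * (D * (3 * a)) + -(pN n q D : ℝ))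
      ≤ D * (l + 8 * 10 ^ 9 * (q : ℝ) ^ 8 * l + 800 * (q : ℝ) ^ 3 * (8 * 10 ^ 9 * (q : ℝ) ^ 8 * l) * l
        + 1 - T / (192 * (q : ℝ) ^ 2)) := by
    rw [hHe, hRe, h3a]
    have : T * D / (96 * (q : ℝ) ^ 2) = 2 * (D * (T / (192 * (q : ℝ) ^ 2))) := by
      field_simp
      ring
    rw [this] at hN
    have e2 : T * (D * (1 / (192 * (q : ℝ) ^ 2))) = D * (T / (192 * (q : ℝ) ^ 2)) := by
      field_simp
    rw [e2]
    nlinarith
  refine lt_of_le_of_lt hmain ?_
  refine mul_neg_of_pos_of_neg hD0 ?_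
  have k1 : (l : ℝ) ≤ (q : ℝ) ^ 11 * (l : ℝ) ^ 2 := by
    have b1 : (1 : ℝ) ≤ (q : ℝ) ^ 11 := one_le_pow₀ hq1
    have b2 : (l : ℝ) ≤ (l : ℝ) ^ 2 := by nlinarith
    calc (l : ℝ) = 1 * l := (one_mul _).symm
      _ ≤ (q : ℝ) ^ 11 * (l : ℝ) ^ 2 := mul_le_mul b1 b2 hl0.le (by positivity)
  have k2 : (q : ℝ) ^ 8 * l ≤ (q : ℝ) ^ 11 * (l : ℝ) ^ 2 := by
    have b1 : (q : ℝ) ^ 8 ≤ (q : ℝ) ^ 11 := pow_le_pow_right₀ hq1 (by norm_num)
    have b2 : (l : ℝ) ≤ (l : ℝ) ^ 2 := by nlinarith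
    exact mul_le_mul b1 b2 hl0.le (by positivity)
  have k3 : 800 * (q : ℝ) ^ 3 * (8 * 10 ^ 9 * (q : ℝ) ^ 8 * l) * l
      = 6400000000000 * ((q : ℝ) ^ 11 * (l : ℝ) ^ 2) := by ring
  rw [k3]
  have k4 : (1 : ℝ) ≤ (q : ℝ) ^ 11 * (l : ℝ) ^ 2 := le_trans hl k1
  nlinarith

/-- LEMMA A. -/
theorem lemA_par {m n q l D : ℕ} (hp : Par m n q l) (hD : 2 ≤ D) :
    ∃ sam : Fin D → Fin D → Fin (ph q) → Fin (pR q l),
      GoodSam m q (pE q l) (pH q l D) (pN n q D) (n / 2) sam := by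
  have hq8 : 8 ≤ q := hp.hq
  have hq8r : (8 : ℝ) ≤ q := by exact_mod_cast hp.hq
  have hl1 := hp.hl1
  have hR : 0 < pR q l := by
    unfold pR
    have : 0 < q := by omega
    have : 0 < l := by omega
    positivity
  have hm : 0 < m := by
    have h1 := hp.hP
    have h2 : 0 < 10 ^ 15 * q ^ 14 * l ^ 2 := by
      have : 0 < q := by omega
      have : 0 < l := by omega
      positivity
    omega
  have ha1 : 1 / (576 * (q : ℝ) ^ 2) < 1 := by
    rw [div_lt_one (by positivity)]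
    nlinarith
  exact lemA hR (by omega) hm (1 / (576 * (q : ℝ) ^ 2)) (1 / 3) (by positivity) ha1 (by norm_num)
    (by norm_num) (la_num1 hp) (la_num2 hp hD)

end Pool.Agent.Rey
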