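import Mathlib
import Pool.Agent.Rey.Bern
import Pool.Agent.Rey.Clus
import Pool.Agent.Rey.Defs

set_option autoImplicit false

namespace Pool.Agent.Rey

open Finset
open scoped Classical

private theorem da_markov {m : ℕ} {τ : ℝ} (h0 : 0 ≤ τ) (h1 : τ ≤ 1) (f : Finset (Fin m) → ℕ)
    (P : Finset (Fin m) → Prop) [DecidablePred P] (B E : ℝ) (hB : 0 < B)
    (hP : ∀ I, P I → B ≤ (f I : ℝ))
    (hE : ∑ I : Finset (Fin m), wt τ I * (f I : ℝ) ≤ E) :
    ∑ I ∈ univ.filter (fun I : Finset (Fin m) => P I), wt τ I ≤ E / B := by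
  rw [le_div_iff₀ hB, Finset.sum_mul]
  calc ∑ I ∈ univ.filter (fun I : Finset (Fin m) => P I), wt τ I * B
      ≤ ∑ I ∈ univ.filter (fun I : Finset (Fin m) => P I), wt τ I * (f I : ℝ) := by
        apply Finset.sum_le_sum
        intro I hI
        exact mul_le_mul_of_nonneg_left (hP I (Finset.mem_filter.1 hI).2) (wt_nonneg h0 h1 I)
    _ ≤ ∑ I : Finset (Fin m), wt τ I * (f I : ℝ) := by
        apply Finset.sum_le_sum_of_subset_of_nonneg (Finset.filter_subset _ _)
        intro I _ _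
        exact mul_nonneg (wt_nonneg h0 h1 I) (Nat.cast_nonneg _)
    _ ≤ E := hE

/-- Markov for the heads: `E hds ≤ D (R q + 2 E1) ≤ Hmax / (300 q^2)`. -/
theorem unsuit_heads {D M m n q l : ℕ} (hp : Par m n q l) (h : M + 1 = m) (hD : 1 ≤ D)
    (c : Fin D → Fin M → Fin m) :
    ∑ I ∈ univ.filter (fun I : Finset (Fin m) => ¬ hds (pR q l) (pE q l) c I ≤ pH q l D),
      wt (1 / (q : ℝ)) I ≤ 1 / (300 * (q : ℝ) ^ 2) := by
  have hqR : (8:ℝ) ≤ q := by exact_mod_cast hp.hq
  have hlR : (1:ℝ) ≤ l := by exact_mod_cast hp.hl1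
  have hDR : (1:ℝ) ≤ D := by exact_mod_cast hD
  have hq0 : (0:ℝ) < q := by linarith
  have h0 : 0 < 1 / (q : ℝ) := by positivity
  have h1 : 1 / (q : ℝ) < 1 := by
    rw [div_lt_one hq0]; linarith
  have hRpos : 0 < pR q l := by
    unfold pR
    have := hp.hq
    have := hp.hl1
    positivity
  have hE : ∑ I : Finset (Fin m), wt (1 / (q : ℝ)) I * (hds (pR q l) (pE q l) c I : ℝ)
      ≤ D * ((pR q l : ℝ) * q + 2 * (pE q l : ℝ)) := by
    have e : ∀ I : Finset (Fin m), wt (1 / (q : ℝ)) I * (hds (pR q l) (pE q l) c I : ℝ)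
        = ∑ k ∈ univ.filter (fun k => (mis (c k)).card ≤ pE q l),
          wt (1 / (q : ℝ)) I * ((hd (pR q l) (c k) I).card : ℝ) := by
      intro I
      unfold hds
      push_cast
      rw [Finset.mul_sum]
    simp_rw [e]
    rw [Finset.sum_comm]
    calc ∑ k ∈ univ.filter (fun k => (mis (c k)).card ≤ pE q l), ∑ I : Finset (Fin m),
          wt (1 / (q : ℝ)) I * ((hd (pR q l) (c k) I).card : ℝ)
        ≤ ∑ k ∈ univ.filter (fun k => (mis (c k)).card ≤ pE q l),
          ((pR q l : ℝ) * q + 2 * (pE q l : ℝ)) := by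
          apply Finset.sum_le_sum
          intro k hk
          have hk' : (mis (c k)).card ≤ pE q l := (Finset.mem_filter.1 hk).2
          have hk'' : ((mis (c k)).card : ℝ) ≤ (pE q l : ℝ) := by exact_mod_cast hk'
          have := exp_heads (c k) h h0 h1 (pR q l) hRpos
          have e2 : (pR q l : ℝ) / (1 / (q : ℝ)) = (pR q l : ℝ) * q := by
            field_simp
          rw [e2] at this
          linarith
      _ = ((univ.filter (fun k => (mis (c k)).card ≤ pE q l)).card : ℝ) *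
          ((pR q l : ℝ) * q + 2 * (pE q l : ℝ)) := by
          rw [Finset.sum_const, nsmul_eq_mul]
      _ ≤ D * ((pR q l : ℝ) * q + 2 * (pE q l : ℝ)) := by
          apply mul_le_mul_of_nonneg_right _ (by positivity)
          have := Finset.card_filter_le (univ : Finset (Fin D))
            (fun k => (mis (c k)).card ≤ pE q l)
          rw [Finset.card_univ, Fintype.card_fin] at this
          exact_mod_cast this
  have hB : (0:ℝ) < (pH q l D : ℝ) := by
    have : 0 < pH q l D := by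
      unfold pH
      have := hp.hq
      positivity
    exact_mod_cast this
  have key := da_markov h0.le h1.le (fun I => hds (pR q l) (pE q l) c I)
    (fun I => ¬ hds (pR q l) (pE q l) c I ≤ pH q l D) (pH q l D : ℝ) _ hB
    (by
      intro I hI
      have : pH q l D ≤ hds (pR q l) (pE q l) c I := by omega
      exact_mod_cast this) hE
  refine le_trans (by convert key using 3) ?_
  have hH : (pH q l D : ℝ) = 400 * (q:ℝ) ^ 3 * (pR q l : ℝ) * D := by
    unfold pH
    push_cast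
    ring
  have hEE : (pE q l : ℝ) = 10 * (q:ℝ) ^ 2 * l := by
    unfold pE
    push_cast
    ring
  have hRR : (pR q l : ℝ) = 8 * 10 ^ 9 * (q:ℝ) ^ 8 * l := by
    unfold pR
    push_cast
    ring
  rw [div_le_div_iff₀ hB (by positivity), hH, hEE, hRR]
  have hl0 : (0:ℝ) < l := by linarith
  have hq7 : (1:ℝ) ≤ (q:ℝ) ^ 7 := one_le_pow₀ (by linarith)
  have : (0:ℝ) ≤ (D:ℝ) * (q:ℝ) ^ 4 * l * ((q:ℝ) ^ 7 - 1) := by
    apply mul_nonneg (by positivity) (by linarith)
  have h2 : (0:ℝ) ≤ (D:ℝ) * (q:ℝ) ^ 4 * l := by positivity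
  nlinarith [this, h2]

/-- Markov for the virtual special columns: `E vs ≤ D exp(-E1/(2 q^2)) = D exp(-5 l) ≤ D / m^5`,
and `vs > Vmax` (a floor) implies `vs > 300 q^2 D / m^5`. -/
theorem unsuit_vs {D M m n q l : ℕ} (hp : Par m n q l) (h : M + 1 = m) (hD : 1 ≤ D)
    (c : Fin D → Fin M → Fin m) :
    ∑ I ∈ univ.filter (fun I : Finset (Fin m) => ¬ vs (pE q l) c I ≤ pV m q D),
      wt (1 / (q : ℝ)) I ≤ 1 / (300 * (q : ℝ) ^ 2) := by
  have hqR : (8:ℝ) ≤ q := by exact_mod_cast hp.hq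
  have hlR : (1:ℝ) ≤ l := by exact_mod_cast hp.hl1
  have hDR : (1:ℝ) ≤ D := by exact_mod_cast hD
  have hq0 : (0:ℝ) < q := by linarith
  have hm0 : 0 < m := by omega
  have hmR : (0:ℝ) < m := by exact_mod_cast hm0
  have h0 : 0 < 1 / (q : ℝ) := by positivity
  have h1 : 1 / (q : ℝ) < 1 := by
    rw [div_lt_one hq0]; linarith
  have hexp : Real.exp (-(5 * (l:ℝ))) ≤ 1 / (m:ℝ) ^ 5 := by
    have e1 : (m:ℝ) ^ 5 = Real.exp (5 * Real.log m) := by
      rw [show (5:ℝ) * Real.log m = Real.log m * (5:ℕ) by push_cast; ring, Real.exp_mul,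
        Real.exp_log hmR, Real.rpow_natCast]
    rw [e1, one_div, ← Real.exp_neg]
    apply Real.exp_le_exp.2
    have := hp.hl
    linarith
  have hE : ∑ I : Finset (Fin m), wt (1 / (q : ℝ)) I * (vs (pE q l) c I : ℝ)
      ≤ D * (1 / (m:ℝ) ^ 5) := by
    have e : ∀ I : Finset (Fin m), wt (1 / (q : ℝ)) I * (vs (pE q l) c I : ℝ)
        = ∑ k ∈ univ.filter (fun k => pE q l < (mis (c k)).card),
          wt (1 / (q : ℝ)) I * ((∏ A ∈ I, cnt (c k) A : ℕ) : ℝ) := by
      intro I
      unfold vs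
      rw [Nat.cast_sum, Finset.mul_sum]
    simp_rw [e]
    rw [Finset.sum_comm]
    calc ∑ k ∈ univ.filter (fun k => pE q l < (mis (c k)).card), ∑ I : Finset (Fin m),
          wt (1 / (q : ℝ)) I * ((∏ A ∈ I, cnt (c k) A : ℕ) : ℝ)
        ≤ ∑ k ∈ univ.filter (fun k => pE q l < (mis (c k)).card), (1 / (m:ℝ) ^ 5) := by
          apply Finset.sum_le_sum
          intro k hk
          have hk' : pE q l < (mis (c k)).card := (Finset.mem_filter.1 hk).2
          have hk'' : (pE q l : ℝ) ≤ ((mis (c k)).card : ℝ) := by exact_mod_cast hk'.le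
          have hEE : (pE q l : ℝ) = 10 * (q:ℝ) ^ 2 * l := by
            unfold pE
            push_cast
            ring
          refine (exp_prod (c k) h h0.le h1).trans (le_trans ?_ hexp)
          apply Real.exp_le_exp.2
          have e3 : (1 / (q:ℝ)) ^ 2 * (10 * (q:ℝ) ^ 2 * l) / 2 = 5 * (l:ℝ) := by
            field_simp
            ring
          have e4 : (1 / (q:ℝ)) ^ 2 * (10 * (q:ℝ) ^ 2 * l) ≤
              (1 / (q:ℝ)) ^ 2 * ((mis (c k)).card : ℝ) := by
            apply mul_le_mul_of_nonneg_left _ (by positivity)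
            rw [← hEE]; exact hk''
          linarith
      _ = ((univ.filter (fun k => pE q l < (mis (c k)).card)).card : ℝ) *
          (1 / (m:ℝ) ^ 5) := by
          rw [Finset.sum_const, nsmul_eq_mul]
      _ ≤ D * (1 / (m:ℝ) ^ 5) := by
          apply mul_le_mul_of_nonneg_right _ (by positivity)
          have := Finset.card_filter_le (univ : Finset (Fin D))
            (fun k => pE q l < (mis (c k)).card)
          rw [Finset.card_univ, Fintype.card_fin] at this
          exact_mod_cast this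
  have hB : (0:ℝ) < 300 * (q:ℝ) ^ 2 * D / (m:ℝ) ^ 5 := by positivity
  have key := da_markov h0.le h1.le (fun I => vs (pE q l) c I)
    (fun I => ¬ vs (pE q l) c I ≤ pV m q D) (300 * (q:ℝ) ^ 2 * D / (m:ℝ) ^ 5) _ hB
    (by
      intro I hI
      have h2 : pV m q D < vs (pE q l) c I := by omega
      unfold pV at h2
      rw [Nat.div_lt_iff_lt_mul (by positivity)] at h2
      rw [div_le_iff₀ (by positivity)]
      exact_mod_cast h2.le) hE
  refine le_trans (by convert key using 3) (le_of_eq ?_)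
  have hD0 : (D:ℝ) ≠ 0 := by positivity
  field_simp

theorem unsuit {D M m n q l : ℕ} (hp : Par m n q l) (h : M + 1 = m) (hD : 1 ≤ D)
    (c : Fin D → Fin M → Fin m) :
    ∑ I ∈ univ.filter (fun I : Finset (Fin m) =>
      ¬ Suit q n (pR q l) (pE q l) (pH q l D) (pV m q D) c I),
      wt (1 / (q : ℝ)) I ≤ 1 / (96 * (q : ℝ) ^ 2) := by
  have hq8 : (8 : ℝ) ≤ q := by exact_mod_cast hp.hq
  have hw0 : ∀ I : Finset (Fin m), 0 ≤ wt (1 / (q : ℝ)) I := by
    intro I
    refine wt_nonneg (by positivity) ?_ I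
    rw [div_le_one (by linarith)]
    linarith
  have h1 := wt_low hp
  have h2 := wt_high hp
  have h3 := unsuit_heads hp h hD c
  have h4 := unsuit_vs hp h hD c
  have hsub : (univ.filter (fun I : Finset (Fin m) =>
      ¬ Suit q n (pR q l) (pE q l) (pH q l D) (pV m q D) c I)) ⊆
      ((univ.filter (fun I : Finset (Fin m) => ¬ m ≤ 4 * q * I.card)) ∪
        (univ.filter (fun I : Finset (Fin m) => ¬ 2 * I.card ≤ n))) ∪
      ((univ.filter (fun I : Finset (Fin m) => ¬ hds (pR q l) (pE q l) c I ≤ pH q l D)) ∪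
        (univ.filter (fun I : Finset (Fin m) => ¬ vs (pE q l) c I ≤ pV m q D))) := by
    intro I hI
    simp only [mem_filter, mem_univ, true_and] at hI
    simp only [mem_union, mem_filter, mem_univ, true_and]
    by_contra hcon
    push Not at hcon
    exact hI ⟨hcon.1.1, hcon.1.2, hcon.2.1, hcon.2.2⟩
  have hun : ∀ A B : Finset (Finset (Fin m)), ∑ I ∈ A ∪ B, wt (1 / (q : ℝ)) I
      ≤ ∑ I ∈ A, wt (1 / (q : ℝ)) I + ∑ I ∈ B, wt (1 / (q : ℝ)) I := by
    intro A B
    rw [← Finset.sum_union_inter]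
    have : 0 ≤ ∑ I ∈ A ∩ B, wt (1 / (q : ℝ)) I := Finset.sum_nonneg (fun I _ => hw0 I)
    linarith
  refine (Finset.sum_le_sum_of_subset_of_nonneg hsub (fun I _ _ => hw0 I)).trans ?_
  refine (hun _ _).trans ?_
  refine (add_le_add (hun _ _) (hun _ _)).trans ?_
  have e1 : (1 : ℝ) / (600 * (q : ℝ) ^ 2) = (1 / 600) * (1 / (q : ℝ) ^ 2) := by
    rw [one_div_mul_one_div]
  have e2 : (1 : ℝ) / (300 * (q : ℝ) ^ 2) = (1 / 300) * (1 / (q : ℝ) ^ 2) := by
    rw [one_div_mul_one_div]
  have e3 : (1 : ℝ) / (96 * (q : ℝ) ^ 2) = (1 / 96) * (1 / (q : ℝ) ^ 2) := by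
    rw [one_div_mul_one_div]
  rw [e1] at h1 h2
  rw [e2] at h3 h4
  rw [e3]
  have hpos : 0 < 1 / (q : ℝ) ^ 2 := by positivity
  linarith

end Pool.Agent.Rey
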