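import Mathlib
import Pool.Agent.Rey.Defs
import Pool.Agent.Rey.Ord

set_option autoImplicit false

namespace Pool.Agent.Rey

open Finset
open scoped Classical

/-- Windows containing an excellent row (`D ≥ 64 m^3`, `w = D / (8 m^3)`):
`3D/8 - 8 m^3 ≥ D/4` rows of `E` lie in windows, at most `8 m^3` per window. -/
theorem windows {D m : ℕ} (hm : 1 ≤ m) (hD : 64 * m ^ 3 ≤ D) (E : Finset (Fin D))
    (hE : 3 * D ≤ 8 * E.card) :
    ∃ (U : Finset (Fin (D / (8 * m ^ 3)))) (r : Fin (D / (8 * m ^ 3)) → Fin D), U.Nonempty ∧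
      D / (8 * m ^ 3) ≤ 4 * U.card ∧
      ∀ i ∈ U, r i ∈ E ∧ (r i : ℕ) / (8 * m ^ 3) = (i : ℕ) := by
  set W := 8 * m ^ 3 with hW
  have hm3 : 0 < m ^ 3 := by positivity
  have hW0 : 0 < W := by omega
  set w := D / W with hw
  have hD0 : 0 < D := by omega
  have hdm : W * w + D % W = D := Nat.div_add_mod D W
  have hml := Nat.mod_lt D hW0
  have hwW : W * w ≤ D := Nat.mul_div_le D W
  have hw0 : 0 < w := Nat.div_pos (by omega) hW0
  -- the rows of `E` in windows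
  set E' := E.filter (fun j : Fin D => (j : ℕ) < W * w) with hE'
  have hcE : E.card ≤ E'.card + W := by
    have h1 : (E.filter (fun j : Fin D => ¬ (j : ℕ) < W * w)).card ≤ W := by
      have h2 : ((E.filter (fun j : Fin D => ¬ (j : ℕ) < W * w)).image (fun j : Fin D => (j : ℕ))).card ≤
          (Finset.Ico (W * w) D).card := by
        apply Finset.card_le_card
        intro x hx
        obtain ⟨j, hj, rfl⟩ := Finset.mem_image.1 hx
        rw [Finset.mem_filter] at hj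
        rw [Finset.mem_Ico]
        exact ⟨not_lt.1 hj.2, j.2⟩
      rw [Finset.card_image_of_injective _ Fin.val_injective, Nat.card_Ico] at h2
      omega
    have h2 := Finset.card_filter_add_card_filter_not (s := E) (fun j : Fin D => (j : ℕ) < W * w)
    rw [← hE'] at h2
    omega
  have hlt : ∀ j ∈ E', (j : ℕ) / W < w := by
    intro j hj
    rw [hE', Finset.mem_filter] at hj
    exact (Nat.div_lt_iff_lt_mul hW0).2 (by rw [mul_comm]; exact hj.2)
  set U : Finset (Fin w) := univ.filter (fun i => ∃ j ∈ E', (j : ℕ) / W = (i : ℕ)) with hU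
  have hch : ∀ i : Fin w, ∃ j : Fin D, i ∈ U → j ∈ E' ∧ (j : ℕ) / W = (i : ℕ) := by
    intro i
    by_cases hi : i ∈ U
    · rw [hU, Finset.mem_filter] at hi
      obtain ⟨-, j, hj, hji⟩ := hi
      exact ⟨j, fun _ => ⟨hj, hji⟩⟩
    · exact ⟨⟨0, hD0⟩, fun h => absurd h hi⟩
  choose r hr using hch
  have hcard : E'.card ≤ W * U.card := by
    have h1 : E'.card ≤ W * (E'.image (fun j : Fin D => (j : ℕ) / W)).card := by
      apply Finset.card_le_mul_card_image
      intro b hb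
      have h2 : ((E'.filter (fun j : Fin D => (j : ℕ) / W = b)).image (fun j : Fin D => (j : ℕ))).card
          ≤ (Finset.Ico (W * b) (W * b + W)).card := by
        apply Finset.card_le_card
        intro x hx
        obtain ⟨j, hj, rfl⟩ := Finset.mem_image.1 hx
        rw [Finset.mem_filter] at hj
        rw [Finset.mem_Ico, ← hj.2]
        have h3 := Nat.div_add_mod (j : ℕ) W
        have h4 := Nat.mod_lt (j : ℕ) hW0
        omega
      rw [Finset.card_image_of_injective _ Fin.val_injective, Nat.card_Ico] at h2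
      omega
    have h2 : (E'.image (fun j : Fin D => (j : ℕ) / W)).card ≤ U.card := by
      rw [← Finset.card_image_of_injective U Fin.val_injective]
      apply Finset.card_le_card
      intro x hx
      obtain ⟨j, hj, rfl⟩ := Finset.mem_image.1 hx
      rw [Finset.mem_image]
      refine ⟨⟨(j : ℕ) / W, hlt j hj⟩, ?_, rfl⟩
      rw [hU, Finset.mem_filter]
      exact ⟨Finset.mem_univ _, j, hj, rfl⟩
    exact h1.trans (Nat.mul_le_mul_left _ h2)
  have h4 : w ≤ 4 * U.card := by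
    have h5 : W * w ≤ W * (4 * U.card) := by
      have : W * (4 * U.card) = 4 * (W * U.card) := by ring
      omega
    exact Nat.le_of_mul_le_mul_left h5 hW0
  refine ⟨U, r, ?_, h4, ?_⟩
  · rw [← Finset.card_pos]
    omega
  · intro i hi
    obtain ⟨h5, h6⟩ := hr i hi
    rw [hE', Finset.mem_filter] at h5
    exact ⟨h5.1, h6⟩

private theorem la_div (W a x : ℕ) (h : x < W) : (W * a + x) / W = a := by
  rw [Nat.mul_add_div (by omega), Nat.div_eq_of_lt h, add_zero]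

/-- A colour which occurs as `b j` for at least `m^2` active rows of the window `i`. -/
theorem pigeon {D m : ℕ} (hm : 1 ≤ m) (b : Fin D → Fin m) (i : Fin (D / (8 * m ^ 3))) :
    ∃ (β : Fin m) (Θ : Finset (Fin D)), Θ.card = m ^ 2 ∧
      ∀ j ∈ Θ, 8 ∣ (j : ℕ) ∧ (j : ℕ) / (8 * m ^ 3) = (i : ℕ) ∧ b j = β := by
  have hm3 : 0 < m ^ 3 := by positivity
  have hi : 8 * m ^ 3 * (i : ℕ) + 8 * m ^ 3 ≤ D := by
    have h1 : (i : ℕ) + 1 ≤ D / (8 * m ^ 3) := i.2
    have h2 := (Nat.le_div_iff_mul_le (show 0 < 8 * m ^ 3 by omega)).1 h1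
    calc 8 * m ^ 3 * (i : ℕ) + 8 * m ^ 3 = ((i : ℕ) + 1) * (8 * m ^ 3) := by ring
      _ ≤ D := h2
  have hlt : ∀ s : Fin (m ^ 3), 8 * m ^ 3 * (i : ℕ) + 8 * (s : ℕ) < D := by
    intro s
    have := s.2
    omega
  let g : Fin (m ^ 3) → Fin D := fun s => ⟨8 * m ^ 3 * (i : ℕ) + 8 * (s : ℕ), hlt s⟩
  have hg : Function.Injective g := by
    intro s s' h
    have h1 : 8 * m ^ 3 * (i : ℕ) + 8 * (s : ℕ) = 8 * m ^ 3 * (i : ℕ) + 8 * (s' : ℕ) :=
      congrArg Fin.val h
    exact Fin.ext (by omega)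
  obtain ⟨β, -, hβ⟩ := Finset.exists_le_card_fiber_of_mul_le_card_of_maps_to
    (s := (univ : Finset (Fin (m ^ 3)))) (t := (univ : Finset (Fin m))) (f := fun s => b (g s))
    (n := m ^ 2) (fun _ _ => Finset.mem_univ _) ⟨⟨0, by omega⟩, Finset.mem_univ _⟩ (by
      rw [Finset.card_univ, Finset.card_univ, Fintype.card_fin, Fintype.card_fin]
      exact le_of_eq (by ring))
  obtain ⟨Z, hZ, hZc⟩ := Finset.exists_subset_card_eq hβ
  refine ⟨β, Z.image g, by rw [Finset.card_image_of_injective _ hg, hZc], ?_⟩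
  intro j hj
  obtain ⟨s, hs, rfl⟩ := Finset.mem_image.1 hj
  have hs' := Finset.mem_filter.1 (hZ hs)
  refine ⟨?_, ?_, hs'.2⟩
  · show 8 ∣ 8 * m ^ 3 * (i : ℕ) + 8 * (s : ℕ)
    exact ⟨m ^ 3 * (i : ℕ) + (s : ℕ), by ring⟩
  · show (8 * m ^ 3 * (i : ℕ) + 8 * (s : ℕ)) / (8 * m ^ 3) = (i : ℕ)
    have := s.2
    exact la_div _ _ _ (by omega)

/-- Section 8, end. `K g i := some (hub)` if `g = (l, u l i)` is used at the window `i ∈ U`;
`Q g i := image of (fam g).erase (β i)` under the representatives; `Θ` from `pigeon`. -/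
theorem win_contra {D M m n q l : ℕ} (hp : Par m n q l) (hM : M + 1 = m)
    (hD : 64 * m ^ 3 ≤ D) (sam : Fin D → Fin D → Fin (ph q) → Fin (pR q l))
    (xx : Fin D → Fin D → Fin M) (hx : GoodX m q (D / (8 * m ^ 3)) xx)
    (c : Fin D → Fin M → Fin m) (b : Fin D → Fin m) (a0 : Fin M)
    (f : Finset (Fin m) → Fin D → Fin D × (Fin m → Fin M)) (S : Finset (Fin m) → Prop)
    (hS : ∀ I, S I → m ≤ 4 * q * I.card)
    (hf1 : ∀ I, S I → ∀ j j', b j ∈ I → b j' ∈ I → j ≤ j' → (f I j).1 ≤ (f I j').1)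
    (hf3 : ∀ I, S I → ∀ j, b j ∈ I → VAL (lv sam xx) c b a0 I (f I j) j)
    (G : Finset (Fin m) → Fin D → Prop)
    (hG : ∀ I j, G I j → S I ∧ b j ∈ I ∧ ∀ j', b j' ∈ I → (j : ℕ) ≤ j' + 8 * m ^ 3 →
      (j' : ℕ) ≤ j + 8 * m ^ 3 → f I j' = f I j)
    (fam : Fin m × Fin m → Finset (Fin m)) (E : Finset (Fin D)) (hE : 3 * D ≤ 8 * E.card)
    (hE1 : ∀ j ∈ E, ∀ β l', ∃ u, G (fam (l', u)) j ∧ β ∈ fam (l', u))
    (hE2 : ∀ j ∈ E, ∀ g g', g ≠ g' → G (fam g) j → G (fam g') j →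
      (f (fam g) j).1 ≠ (f (fam g') j).1) : False := by
  obtain ⟨hq, hnm, hqn, hl, hl1, hP⟩ := hp
  have hmq : 8 * q ≤ m := by
    refine le_trans ?_ hP
    have h1 : 1 ≤ l ^ 2 := Nat.one_le_pow _ _ hl1
    have h2 : q ≤ q ^ 14 := by
      calc q = q ^ 1 := (pow_one q).symm
        _ ≤ q ^ 14 := Nat.pow_le_pow_right (by omega) (by norm_num)
    calc 8 * q ≤ 10 ^ 15 * q ^ 14 := Nat.mul_le_mul (by norm_num) h2
      _ = 10 ^ 15 * q ^ 14 * 1 := by ring
      _ ≤ 10 ^ 15 * q ^ 14 * l ^ 2 := Nat.mul_le_mul_left _ h1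
  have hm1 : 1 ≤ m := by omega
  obtain ⟨U, r, hU, hwU, hr⟩ := windows hm1 hD E hE
  choose β Θ hΘ1 hΘ2 using fun i : Fin (D / (8 * m ^ 3)) => pigeon hm1 b i
  have hu : ∀ i : Fin (D / (8 * m ^ 3)), ∃ u : Fin m → Fin m, i ∈ U → ∀ l',
      G (fam (l', u l')) (r i) ∧ β i ∈ fam (l', u l') := by
    intro i
    by_cases hi : i ∈ U
    · choose u hu using fun l' => hE1 (r i) (hr i hi).1 (β i) l'
      exact ⟨u, fun _ => hu⟩
    · exact ⟨fun l' => l', fun h => absurd h hi⟩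
  choose u hu using hu
  let K : Fin m × Fin m → Fin (D / (8 * m ^ 3)) → Option (Fin D) := fun g i =>
    if i ∈ U ∧ g.2 = u i g.1 then some (f (fam g) (r i)).1 else none
  have hK : ∀ g i k, K g i = some k → i ∈ U ∧ g.2 = u i g.1 ∧ (f (fam g) (r i)).1 = k := by
    intro g i k h
    by_cases hc : i ∈ U ∧ g.2 = u i g.1
    · simp only [K, if_pos hc, Option.some.injEq] at h
      exact ⟨hc.1, hc.2, h⟩
    · simp [K, if_neg hc] at h
  have hKs : ∀ g i, (K g i).isSome = true ↔ i ∈ U ∧ g.2 = u i g.1 := by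
    intro g i
    by_cases hc : i ∈ U ∧ g.2 = u i g.1
    · simp only [K, if_pos hc, Option.isSome_some, true_iff]
      exact hc
    · simp only [K, if_neg hc, Option.isSome_none, Bool.false_eq_true, false_iff]
      exact hc
  have hGK : ∀ g i, i ∈ U → g.2 = u i g.1 → G (fam g) (r i) ∧ β i ∈ fam g := by
    rintro ⟨g1, g2⟩ i hi h
    simp only at h
    subst h
    exact hu i hi g1
  have husd : ∀ i, i ∈ usd K ↔ i ∈ U := by
    intro i
    unfold usd
    rw [Finset.mem_filter]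
    constructor
    · rintro ⟨-, g, hg⟩
      exact ((hKs g i).1 hg).1
    · intro hi
      refine ⟨Finset.mem_univ _, (⟨0, hm1⟩, u i ⟨0, hm1⟩), (hKs _ _).2 ⟨hi, rfl⟩⟩
  have husd' : usd K = U := Finset.ext husd
  have hwin : ∀ i ∈ U, ∀ j ∈ Θ i, ((r i : ℕ) ≤ j + 8 * m ^ 3) ∧ ((j : ℕ) ≤ r i + 8 * m ^ 3) := by
    intro i hi j hj
    have h1 := (hr i hi).2
    have h2 := (hΘ2 i j hj).2.1
    have h0 : 0 < 8 * m ^ 3 := by positivity
    have h3 : (8 * m ^ 3) * ((r i : ℕ) / (8 * m ^ 3)) ≤ r i := Nat.mul_div_le _ _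
    have h4 : (r i : ℕ) < (8 * m ^ 3) * ((r i : ℕ) / (8 * m ^ 3)) + 8 * m ^ 3 := by
      have := Nat.lt_mul_div_succ (r i : ℕ) h0
      rw [Nat.mul_add, Nat.mul_one] at this
      exact this
    have h5 : (8 * m ^ 3) * ((j : ℕ) / (8 * m ^ 3)) ≤ j := Nat.mul_div_le _ _
    have h6 : (j : ℕ) < (8 * m ^ 3) * ((j : ℕ) / (8 * m ^ 3)) + 8 * m ^ 3 := by
      have := Nat.lt_mul_div_succ (j : ℕ) h0
      rw [Nat.mul_add, Nat.mul_one] at this
      exact this
    rw [h1] at h3 h4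
    rw [h2] at h5 h6
    constructor <;> omega
  let Q : Fin m × Fin m → Fin (D / (8 * m ^ 3)) → Finset (Fin M) := fun g i =>
    ((fam g).erase (β i)).image (f (fam g) (r i)).2
  have key : ¬ ∃ g i k j, K g i = some k ∧ j ∈ Θ i ∧ xx k j ∈ Q g i := by
    rintro ⟨g, i, k, j, hgk, hj, hxx⟩
    obtain ⟨hi, hg, rfl⟩ := hK g i k hgk
    obtain ⟨hG1, hβ⟩ := hGK g i hi hg
    obtain ⟨hSg, hbr, hGf⟩ := hG _ _ hG1
    obtain ⟨hj8, hjw, hbj⟩ := hΘ2 i j hj
    have hbj' : b j ∈ fam g := by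
      rw [hbj]
      exact hβ
    have hfj : f (fam g) j = f (fam g) (r i) :=
      hGf j hbj' (hwin i hi j hj).1 (hwin i hi j hj).2
    have hv := hf3 _ hSg j hbj'
    simp only [Q, Finset.mem_image, Finset.mem_erase] at hxx
    obtain ⟨A, ⟨hA1, hA2⟩, hA3⟩ := hxx
    have h1 := act_cell sam xx c b a0 (fam g) (f (fam g) j) j hj8 hv A hA2 (by
      rw [hbj]
      exact hA1)
    rw [hfj] at h1
    exact h1 hA3.symm
  refine key (hx K Q Θ ?_ ?_ ?_ ?_ ?_ ?_ ?_)
  · intro g i i' k k' hii h1 h2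
    obtain ⟨hi, hg, rfl⟩ := hK g i k h1
    obtain ⟨hi', hg', rfl⟩ := hK g i' k' h2
    obtain ⟨hG1, hβ⟩ := hGK g i hi hg
    obtain ⟨hG1', hβ'⟩ := hGK g i' hi' hg'
    obtain ⟨hSg, hbr, -⟩ := hG _ _ hG1
    obtain ⟨-, hbr', -⟩ := hG _ _ hG1'
    refine hf1 _ hSg _ _ hbr hbr' ?_
    rcases eq_or_lt_of_le hii with h | h
    · rw [h]
    · have h3 := (hr i hi).2
      have h4 := (hr i' hi').2
      have h5 : (i : ℕ) < i' := h
      rw [Fin.le_def]
      by_contra hcon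
      push Not at hcon
      have h6 := Nat.div_le_div_right (c := 8 * m ^ 3) hcon.le
      omega
  · intro i g g' k h1 h2
    obtain ⟨hi, hg, h3⟩ := hK g i k h1
    obtain ⟨-, hg', h4⟩ := hK g' i k h2
    by_contra hne
    exact hE2 (r i) (hr i hi).1 g g' hne (hGK g i hi hg).1 (hGK g' i hi hg').1 (h3.trans h4.symm)
  · intro i hi
    rw [husd] at hi
    have h1 : (univ.filter (fun g : Fin m × Fin m => (K g i).isSome = true)) =
        (univ : Finset (Fin m)).image (fun l' => (l', u i l')) := by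
      ext g
      simp only [Finset.mem_filter, Finset.mem_univ, true_and, Finset.mem_image]
      rw [hKs]
      constructor
      · rintro ⟨-, h⟩
        exact ⟨g.1, by rw [← h]⟩
      · rintro ⟨l', rfl⟩
        exact ⟨hi, rfl⟩
    rw [h1, Finset.card_image_of_injective _ (fun x y h => (Prod.ext_iff.1 h).1),
      Finset.card_univ, Fintype.card_fin]
  · rw [husd']
    exact hU
  · rw [husd']
    exact hwU
  · intro g i h
    obtain ⟨hi, hg⟩ := (hKs g i).1 h
    obtain ⟨hG1, hβ⟩ := hGK g i hi hg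
    obtain ⟨hSg, hbr, -⟩ := hG _ _ hG1
    have hv := hf3 _ hSg (r i) hbr
    have hinj : Set.InjOn (f (fam g) (r i)).2 ((fam g).erase (β i) : Finset (Fin m)) := by
      intro A hA A' hA' h
      have hA1 := hv.1 A (Finset.mem_of_mem_erase hA)
      have hA2 := hv.1 A' (Finset.mem_of_mem_erase hA')
      rw [← hA1, ← hA2, h]
    have hcard : (Q g i).card + 1 = (fam g).card := by
      simp only [Q]
      rw [Finset.card_image_of_injOn hinj, Finset.card_erase_add_one hβ]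
    have h1 := hS _ hSg
    rw [← hcard] at h1
    have h2 : 4 * q * ((Q g i).card + 1) = 4 * q * (Q g i).card + 4 * q := by ring
    have h3 : 8 * q * (Q g i).card = 2 * (4 * q * (Q g i).card) := by ring
    rw [h3]
    rw [h2] at h1
    omega
  · intro i hi
    exact ⟨hΘ1 i, fun j hj => ⟨(hΘ2 i j hj).1, (hΘ2 i j hj).2.1⟩⟩

end Pool.Agent.Rey
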