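import Mathlib
import Pool.Agent.Rey.App
import Pool.Agent.Rey.Ave
import Pool.Agent.Rey.Defs
import Pool.Agent.Rey.Fam
import Pool.Agent.Rey.Geo
import Pool.Agent.Rey.LA
import Pool.Agent.Rey.LB
import Pool.Agent.Rey.Suit
import Pool.Agent.Rey.Wnd

set_option autoImplicit false

namespace Pool.Agent.Rey

open Finset
open scoped Classical

private theorem ma_pow {m n q l : ℕ} (hp : Par m n q l) : 0 < m ∧ 460800 * q ^ 4 ≤ m ^ 2 ∧
    19200 * q ^ 2 ≤ m ^ 2 := by
  have hq := hp.hq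
  have h1 := hp.hP
  have h2 : q ^ 4 ≤ q ^ 14 := Nat.pow_le_pow_right (by omega) (by norm_num)
  have h3 : q ^ 2 ≤ q ^ 4 := Nat.pow_le_pow_right (by omega) (by norm_num)
  have h4 : 1 ≤ l ^ 2 := Nat.one_le_pow _ _ hp.hl1
  have h5 : 0 < q ^ 4 := by positivity
  have h6 : 10 ^ 15 * q ^ 4 ≤ m := by
    calc 10 ^ 15 * q ^ 4 = 10 ^ 15 * q ^ 4 * 1 := by ring
      _ ≤ 10 ^ 15 * q ^ 14 * l ^ 2 := by gcongr
      _ ≤ m := h1
  have hm : 0 < m := by
    have : 0 < 10 ^ 15 * q ^ 4 := by positivity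
    omega
  have h7 : m ≤ m ^ 2 := by nlinarith
  refine ⟨hm, ?_, ?_⟩
  · have : 460800 * q ^ 4 ≤ 10 ^ 15 * q ^ 4 := Nat.mul_le_mul_right _ (by norm_num)
    omega
  · have : 19200 * q ^ 4 ≤ 10 ^ 15 * q ^ 4 := Nat.mul_le_mul_right _ (by norm_num)
    have : 19200 * q ^ 2 ≤ 19200 * q ^ 4 := Nat.mul_le_mul_left _ h3
    omega

/-- `pV ≥ 1` forces `D` to be large. -/
theorem big_D {D m n q l : ℕ} (hp : Par m n q l) (hV : 1 ≤ pV m q D) : 64 * m ^ 3 ≤ D := by
  obtain ⟨hm, h1, h2⟩ := ma_pow hp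
  have hq := hp.hq
  have h3 : 0 < m ^ 5 := by positivity
  have h4 : m ^ 5 ≤ 300 * q ^ 2 * D := by
    unfold pV at hV
    have := (Nat.le_div_iff_mul_le h3).1 hV
    omega
  have h5 : 300 * q ^ 2 * (64 * m ^ 3) ≤ 300 * q ^ 2 * D := by
    calc 300 * q ^ 2 * (64 * m ^ 3) = 19200 * q ^ 2 * m ^ 3 := by ring
      _ ≤ m ^ 2 * m ^ 3 := Nat.mul_le_mul_right _ h2
      _ = m ^ 5 := by ring
      _ ≤ _ := h4
  exact Nat.le_of_mul_le_mul_left h5 (by positivity)

/-- `2 L Vmax ≤ D / (96 q^2)` for `L = 8 m^3`. -/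
theorem LV {D m n q l : ℕ} (hp : Par m n q l) : 96 * q ^ 2 * (2 * (8 * m ^ 3) * pV m q D) ≤ D := by
  obtain ⟨hm, h1, h2⟩ := ma_pow hp
  have h3 : pV m q D * m ^ 5 ≤ 300 * q ^ 2 * D := Nat.div_mul_le_self _ _
  have h5 : m ^ 2 * (96 * q ^ 2 * (2 * (8 * m ^ 3) * pV m q D)) ≤ m ^ 2 * D := by
    calc m ^ 2 * (96 * q ^ 2 * (2 * (8 * m ^ 3) * pV m q D)) =
        1536 * q ^ 2 * (pV m q D * m ^ 5) := by ring
      _ ≤ 1536 * q ^ 2 * (300 * q ^ 2 * D) := Nat.mul_le_mul_left _ h3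
      _ = 460800 * q ^ 4 * D := by ring
      _ ≤ m ^ 2 * D := Nat.mul_le_mul_right _ h1
  exact Nat.le_of_mul_le_mul_left h5 (by positivity)

private theorem mb_nine : 10 ^ 225 * 9 ^ 210 * 10 ^ 134 ≤ 10 ^ 560 := by
  have h : 9 ^ 210 ≤ 10 ^ 201 := by norm_num
  calc 10 ^ 225 * 9 ^ 210 * 10 ^ 134 ≤ 10 ^ 225 * 10 ^ 201 * 10 ^ 134 := by gcongr
    _ = 10 ^ 560 := by rw [← pow_add, ← pow_add]

/-- From the exponent condition to the parameters. -/
theorem par_of {m n : ℕ} (hn : 1 ≤ n) (hnm : n ≤ m) (h : 10 ^ 40 * m ^ 14 ≤ n ^ 15) :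
    ∃ q l, Par m n q l := by
  have hm : 0 < m := by omega
  have hm1 : (1 : ℝ) ≤ m := by exact_mod_cast hm
  have hlog : 0 ≤ Real.log m := Real.log_nonneg hm1
  refine ⟨8 * m / n + 1, ⌈Real.log m⌉₊ + 1, ?_, hnm, ?_, ?_, by omega, ?_⟩
  · have : 8 ≤ 8 * m / n := (Nat.le_div_iff_mul_le (by omega)).2 (by nlinarith)
    omega
  · have h1 := Nat.div_add_mod (8 * m) n
    have h2 := Nat.mod_lt (8 * m) (show 0 < n by omega)
    rw [mul_add, mul_one]
    omega
  · push_cast
    have := Nat.le_ceil (Real.log m)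
    linarith
  · set q := 8 * m / n + 1 with hq
    set l := ⌈Real.log m⌉₊ + 1 with hl
    -- `l ^ 30 ≤ 10 ^ 134 * m`
    have h1 : l ^ 30 ≤ 10 ^ 134 * m := by
      have e1 : (l : ℝ) ≤ Real.log m + 2 := by
        have := Nat.ceil_lt_add_one hlog
        rw [hl]
        push_cast
        linarith
      have e2 := Real.pow_div_factorial_le_exp (l : ℝ) (Nat.cast_nonneg l) 30
      have e3 : Real.exp (l : ℝ) ≤ m * Real.exp 2 := by
        calc Real.exp (l : ℝ) ≤ Real.exp (Real.log m + 2) := Real.exp_le_exp.2 e1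
          _ = m * Real.exp 2 := by rw [Real.exp_add, Real.exp_log (by positivity)]
      have e4 : Real.exp 2 ≤ 10 := by
        have := Real.exp_one_lt_d9
        have e5 : Real.exp 2 = Real.exp 1 ^ 2 := by
          rw [← Real.exp_nat_mul]
          norm_num
        rw [e5]
        have h0 := Real.exp_pos 1
        nlinarith
      have e6 : ((30 : ℕ).factorial : ℝ) ≤ 10 ^ 33 := by
        have : (30 : ℕ).factorial ≤ 10 ^ 33 := by decide
        exact_mod_cast this
      have e7 : (l : ℝ) ^ 30 ≤ 10 ^ 134 * m := by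
        have e8 : (0 : ℝ) < ((30 : ℕ).factorial : ℝ) := by positivity
        rw [div_le_iff₀ e8] at e2
        calc (l : ℝ) ^ 30 ≤ Real.exp l * ((30 : ℕ).factorial : ℝ) := e2
          _ ≤ (m * 10) * 10 ^ 33 := by
              apply mul_le_mul _ e6 e8.le (by positivity)
              exact e3.trans (mul_le_mul_of_nonneg_left e4 (by positivity))
          _ ≤ 10 ^ 134 * m := by nlinarith
      exact_mod_cast e7
    -- `q n ≤ 9 m`
    have h2 : q * n ≤ 9 * m := by
      have := Nat.div_mul_le_self (8 * m) n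
      rw [hq, add_mul]
      omega
    have h3 : 10 ^ 560 * m ^ 196 ≤ n ^ 210 := by
      calc 10 ^ 560 * m ^ 196 = (10 ^ 40 * m ^ 14) ^ 14 := by
            rw [mul_pow, ← pow_mul, ← pow_mul]
        _ ≤ (n ^ 15) ^ 14 := Nat.pow_le_pow_left h 14
        _ = n ^ 210 := by rw [← pow_mul]
    have h4 : 10 ^ 560 * q ^ 210 ≤ 9 ^ 210 * m ^ 14 := by
      have e1 : m ^ 196 * (10 ^ 560 * q ^ 210) ≤ m ^ 196 * (9 ^ 210 * m ^ 14) := by
        calc m ^ 196 * (10 ^ 560 * q ^ 210) = q ^ 210 * (10 ^ 560 * m ^ 196) := by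
              rw [mul_comm, mul_assoc, mul_comm, mul_assoc, mul_comm (m ^ 196)]
          _ ≤ q ^ 210 * n ^ 210 := Nat.mul_le_mul_left _ h3
          _ = (q * n) ^ 210 := by rw [mul_pow]
          _ ≤ (9 * m) ^ 210 := Nat.pow_le_pow_left h2 210
          _ = m ^ 196 * (9 ^ 210 * m ^ 14) := by
              rw [mul_pow, mul_comm (m ^ 196), mul_assoc, ← pow_add]
      exact Nat.le_of_mul_le_mul_left e1 (by positivity)
    have h5 : (10 ^ 15 * q ^ 14 * l ^ 2) ^ 15 ≤ m ^ 15 := by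
      have e1 : 10 ^ 560 * (10 ^ 15 * q ^ 14 * l ^ 2) ^ 15 ≤ 10 ^ 560 * m ^ 15 := by
        calc 10 ^ 560 * (10 ^ 15 * q ^ 14 * l ^ 2) ^ 15 =
            (10 ^ 560 * q ^ 210) * (10 ^ 225 * l ^ 30) := by
              rw [mul_pow, mul_pow, ← pow_mul, ← pow_mul, ← pow_mul, mul_assoc (10 ^ 560),
                mul_left_comm (q ^ 210), mul_assoc (10 ^ (15 * 15))]
          _ ≤ (9 ^ 210 * m ^ 14) * (10 ^ 225 * (10 ^ 134 * m)) :=
              Nat.mul_le_mul h4 (Nat.mul_le_mul_left _ h1)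
          _ = (10 ^ 225 * 9 ^ 210 * 10 ^ 134) * m ^ 15 := by
              rw [show m ^ 15 = m ^ 14 * m from pow_succ m 14]
              generalize m ^ 14 = M
              generalize (9 : ℕ) ^ 210 = a
              generalize (10 : ℕ) ^ 225 = b
              generalize (10 : ℕ) ^ 134 = d
              ring
          _ ≤ 10 ^ 560 * m ^ 15 := Nat.mul_le_mul_right _ mb_nine
      exact Nat.le_of_mul_le_mul_left e1 (by positivity)
    exact (Nat.pow_le_pow_iff_left (by norm_num)).1 h5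

/-- No colouring wins. -/
theorem no_win {D M m n q l : ℕ} (hp : Par m n q l) (hM : M + 1 = m) (hD : 2 ≤ D)
    (sam : Fin D → Fin D → Fin (ph q) → Fin (pR q l))
    (hs : GoodSam m q (pE q l) (pH q l D) (pN n q D) (n / 2) sam)
    (xx : Fin D → Fin D → Fin M) (hx : GoodX m q (D / (8 * m ^ 3)) xx)
    (c : Fin D → Fin M → Fin m)
    (hwin : ∀ I : Finset (Fin m), I.card ≤ n → Win (lv sam xx) c I) : False := by
  have hM0 : 0 < M := by
    have h1 := hp.hP
    have h2 : 1 ≤ q ^ 14 := Nat.one_le_pow _ _ (by have := hp.hq; omega)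
    have h3 : 1 ≤ l ^ 2 := Nat.one_le_pow _ _ hp.hl1
    have h4 : 10 ^ 15 * 1 * 1 ≤ 10 ^ 15 * q ^ 14 * l ^ 2 := by gcongr
    omega
  set a0 : Fin M := ⟨0, hM0⟩ with ha0
  have hmis : ∀ k, ∃ B, B ∈ mis (c k) := fun k => mis_pos (c k) (by omega)
  choose b hb' using hmis
  have hb : ∀ k a, c k a ≠ b k := by
    intro k a
    have := hb' k
    simp only [mis, mem_filter, mem_univ, true_and] at this
    exact this a
  set S : Finset (Fin m) → Prop :=
    fun I => Suit q n (pR q l) (pE q l) (pH q l D) (pV m q D) c I with hSdef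
  have hSw : ∑ I ∈ univ.filter (fun I => ¬ S I), wt (1 / (q : ℝ)) I ≤ 1 / (96 * (q : ℝ) ^ 2) :=
    unsuit hp hM (by omega) c
  have hA : ∀ I, ∃ f : Fin D → Fin D × (Fin m → Fin M), S I →
      (∀ j j', b j ∈ I → b j' ∈ I → j ≤ j' → (f j).1 ≤ (f j').1) ∧
      (∀ j j' j'', b j ∈ I → b j' ∈ I → b j'' ∈ I → j ≤ j' → j' ≤ j'' →
        f j = f j'' → f j' = f j) ∧
      (∀ j, b j ∈ I → VAL (lv sam xx) c b a0 I (f j) j) ∧
      96 * q ^ 2 * (univ.filter (fun j : Fin D => b j ∈ I ∧ ¬ 8 ∣ (j : ℕ) ∧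
        (mis (c (f j).1)).card ≤ pE q l)).card < D := by
    intro I
    by_cases h : S I
    · obtain ⟨f, hf⟩ := caseA hp hM hD sam hs xx c b hb a0 hwin I h
      exact ⟨f, fun _ => hf⟩
    · exact ⟨fun j => (j, fun _ => a0), fun h' => absurd h' h⟩
  choose f hf using hA
  -- valid columns have no missing colour in `I`
  have hmisI : ∀ I, S I → ∀ j, b j ∈ I → ∀ A ∈ mis (c (f I j).1), A ∉ I := by
    intro I hI j hj A hA hAI
    simp only [mis, mem_filter, mem_univ, true_and] at hA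
    exact hA _ (((hf I hI).2.2.1 j hj).1 A hAI)
  rcases Nat.eq_zero_or_pos (pV m q D) with hV | hV
  · -- no special columns
    refine case0 hp hD b S hSw (fun I hI => ?_)
    have h1 := (hf I hI).2.2.2
    have h2 : (univ.filter (fun j : Fin D => b j ∈ I ∧ ¬ 8 ∣ (j : ℕ)))
        = (univ.filter (fun j : Fin D => b j ∈ I ∧ ¬ 8 ∣ (j : ℕ) ∧
          (mis (c (f I j).1)).card ≤ pE q l)) := by
      apply Finset.filter_congr
      intro j _
      refine ⟨fun h => ⟨h.1, h.2, ?_⟩, fun h => ⟨h.1, h.2.1⟩⟩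
      by_contra hsp
      push Not at hsp
      have h3 : vs (pE q l) c I ≤ 0 := by
        have := hI.2.2.2
        rwa [hV] at this
      have h4 : 0 < ∏ A ∈ I, cnt (c (f I j).1) A := by
        apply Finset.prod_pos
        intro A hAI
        unfold cnt
        rw [Finset.card_pos]
        exact ⟨(f I j).2 A, by simpa using ((hf I hI).2.2.1 j h.1).1 A hAI⟩
      have h5 : ∏ A ∈ I, cnt (c (f I j).1) A ≤ vs (pE q l) c I := by
        unfold vs
        exact Finset.single_le_sum (f := fun k => ∏ A ∈ I, cnt (c k) A)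
          (fun _ _ => Nat.zero_le _) (by simpa using hsp)
      omega
    rw [h2]
    exact h1
  · have hDb := big_D hp hV
    have hm1 : 1 ≤ m := by omega
    have hD8 : 8 ≤ D := by
      have : 1 ≤ m ^ 3 := Nat.one_le_pow _ _ hm1
      omega
    set G : Finset (Fin m) → Fin D → Prop := fun I j => S I ∧ b j ∈ I ∧
      pE q l < (mis (c (f I j).1)).card ∧ ∀ j', b j' ∈ I → (j : ℕ) ≤ j' + 8 * m ^ 3 →
        (j' : ℕ) ≤ j + 8 * m ^ 3 → f I j' = f I j with hG
    have hgr := good_rows hp hD8 b S G hSw (fun I hI => by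
      set Sp : Finset (Fin D × (Fin m → Fin M)) := univ.filter
        (fun v : Fin D × (Fin m → Fin M) => pE q l < (mis (c v.1)).card ∧
          (∀ A ∈ I, c v.1 (v.2 A) = A) ∧ ∀ A, A ∉ I → v.2 A = a0) with hSp
      have hSpc : Sp.card ≤ pV m q D := (sp_card (pE q l) c a0 I).trans hI.2.2.2
      set J : Finset (Fin D) := univ.filter (fun j => b j ∈ I) with hJ
      have hdeep := deep (L := 8 * m ^ 3) J (f I) (by
        intro j hj j' hj' j'' hj'' h1 h2 h3
        simp only [hJ, mem_filter, mem_univ, true_and] at hj hj' hj''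
        exact (hf I hI).2.1 j j' j'' hj hj' hj'' h1 h2 h3) Sp
      have hord := (hf I hI).2.2.2
      have hsub : (univ.filter (fun j : Fin D => b j ∈ I ∧ ¬ 8 ∣ (j : ℕ) ∧ ¬ G I j)) ⊆
          (univ.filter (fun j : Fin D => b j ∈ I ∧ ¬ 8 ∣ (j : ℕ) ∧
            (mis (c (f I j).1)).card ≤ pE q l)) ∪
          (J.filter (fun j => f I j ∈ Sp ∧ ∃ j' ∈ J, (j : ℕ) ≤ j' + 8 * m ^ 3 ∧
            (j' : ℕ) ≤ j + 8 * m ^ 3 ∧ f I j' ≠ f I j)) := by
        intro j hj
        simp only [mem_filter, mem_univ, true_and] at hj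
        obtain ⟨h1, h2, h3⟩ := hj
        simp only [mem_union, mem_filter, mem_univ, true_and]
        by_cases hsp : (mis (c (f I j).1)).card ≤ pE q l
        · exact Or.inl ⟨h1, h2, hsp⟩
        · right
          push Not at hsp
          refine ⟨by simpa [hJ] using h1, ?_, ?_⟩
          · simp only [hSp, mem_filter, mem_univ, true_and]
            exact ⟨hsp, ((hf I hI).2.2.1 j h1).1, ((hf I hI).2.2.1 j h1).2.1⟩
          · by_contra hcon
            apply h3
            refine ⟨hI, h1, hsp, ?_⟩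
            intro j' hj' h4 h5
            by_contra h6
            exact hcon ⟨j', by simpa [hJ] using hj', h4, h5, h6⟩
      have hcard := (Finset.card_le_card hsub).trans (Finset.card_union_le _ _)
      have hLV := LV (D := D) hp
      set x := (univ.filter (fun j : Fin D => b j ∈ I ∧ ¬ 8 ∣ (j : ℕ) ∧ ¬ G I j)).card
      set y := (univ.filter (fun j : Fin D => b j ∈ I ∧ ¬ 8 ∣ (j : ℕ) ∧
            (mis (c (f I j).1)).card ≤ pE q l)).card
      set z := (J.filter (fun j => f I j ∈ Sp ∧ ∃ j' ∈ J, (j : ℕ) ≤ j' + 8 * m ^ 3 ∧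
            (j' : ℕ) ≤ j + 8 * m ^ 3 ∧ f I j' ≠ f I j)).card
      have hz : z ≤ 2 * (8 * m ^ 3) * pV m q D :=
        hdeep.trans (Nat.mul_le_mul_left _ hSpc)
      have hz2 : 96 * q ^ 2 * z ≤ D := (Nat.mul_le_mul_left _ hz).trans hLV
      nlinarith)
    set GR : Finset (Fin D) := univ.filter (fun j : Fin D => ¬ 8 ∣ (j : ℕ) ∧
      ∑ I ∈ univ.filter (fun I => b j ∈ I ∧ ¬ (S I ∧ G I j)), wt (1 / (q : ℝ)) I
        ≤ 1 / (8 * (q : ℝ) ^ 2)) with hGR
    have hw0 : ∀ I : Finset (Fin m), 0 ≤ wt (1 / (q : ℝ)) I := by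
      intro I
      have hq8 : (8 : ℝ) ≤ q := by exact_mod_cast hp.hq
      refine wt_nonneg (by positivity) ?_ I
      rw [div_le_one (by linarith)]
      linarith
    obtain ⟨fam, hfam⟩ := family hp GR G (fun I j => (f I j).1) (fun k => mis (c k))
      (by
        intro j hj β
        simp only [hGR, mem_filter, mem_univ, true_and] at hj
        refine (good_beta hp (b j) β (fun I => S I ∧ G I j) (by convert hj.2)).trans ?_
        apply Finset.sum_le_sum_of_subset_of_nonneg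
        · intro I hI
          simp only [mem_filter, mem_univ, true_and] at hI ⊢
          exact ⟨hI.1.2.2, hI.2⟩
        · intro I _ _
          exact hw0 I)
      (by
        intro I j hIj
        exact ⟨hIj.2.2.1.le, hmisI I hIj.1 j hIj.2.1⟩)
    set E : Finset (Fin D) := GR.filter (fun j =>
        (∀ β l', ∃ u, G (fam (l', u)) j ∧ β ∈ fam (l', u)) ∧
        ∀ g g', g ≠ g' → G (fam g) j → G (fam g') j → (f (fam g) j).1 ≠ (f (fam g') j).1) with hE
    refine win_contra hp hM hDb sam xx hx c b a0 f S (fun I hI => hI.1)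
      (fun I hI => (hf I hI).1) (fun I hI => (hf I hI).2.2.1) G
      (fun I j h => ⟨h.1, h.2.1, h.2.2.2⟩) fam E ?_ ?_ ?_
    · have h1 : D ≤ 2 * GR.card := by convert hgr
      have h2 : 3 * GR.card ≤ 4 * E.card := by convert hfam
      omega
    · intro j hj
      exact (Finset.mem_filter.mp hj).2.1
    · intro j hj
      exact (Finset.mem_filter.mp hj).2.2

theorem main {d m n q l : ℕ} (hp : Par m n q l) (hd : 1 ≤ d) :
    ∃ X : Finset (EuclideanSpace ℝ (Fin d)), X.card = (m - 1) * (d + 1) ∧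
      ∀ f : EuclideanSpace ℝ (Fin d) → Fin m, ∃ I : Finset (Fin m), I.card = n ∧
        (⋂ i ∈ I, convexHull ℝ {x : EuclideanSpace ℝ (Fin d) | x ∈ X ∧ f x = i}) = ∅ := by
  have hm2 : 2 ≤ m := by
    have h1 := hp.hP
    have h2 : 1 ≤ q ^ 14 := Nat.one_le_pow _ _ (by have := hp.hq; omega)
    have h3 : 1 ≤ l ^ 2 := Nat.one_le_pow _ _ hp.hl1
    have h4 : 10 ^ 15 * 1 * 1 ≤ 10 ^ 15 * q ^ 14 * l ^ 2 := by gcongr
    omega
  obtain ⟨sam, hs⟩ := lemA_par (D := d + 1) hp (by omega)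
  obtain ⟨xx, hx⟩ := lemB_par (D := d + 1) (M := m - 1) (w := (d + 1) / (8 * m ^ 3)) hp (by omega)
    (by
      have hpos : 0 < 8 * m ^ 3 := by positivity
      have := Nat.lt_div_mul_add (a := d + 1) hpos
      rw [add_mul, one_mul]
      omega)
  exact geo d (m - 1) m n hd (by omega) hp.hnm (lv sam xx) (fun c hwin =>
    no_win hp (by omega) (by omega) sam hs xx hx c hwin)

end Pool.Agent.Rey
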